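import Pool.Agent.Lib.MP_24877f_gt_h61.Rep

set_option autoImplicit false

/-!
# The twists as automorphisms and a checker for identities between them (MP_24877f_gt)
-/

namespace Pool.Agent.Lib.MP_24877f_gt_h61

def Sy.zero : Sy → Sy
  | Sy.A _ => Sy.A 0
  | Sy.B _ => Sy.B 0
  | Sy.C _ => Sy.C 0
  | Sy.P _ => Sy.P 0
  | Sy.D _ => Sy.D 0
  | Sy.S _ => Sy.S 0

def Sy.idx : Sy → ℕ
  | Sy.A p => p
  | Sy.B p => p
  | Sy.C p => p
  | Sy.P p => p
  | Sy.D p => p
  | Sy.S p => p

theorem hom_zero (m : ℕ) (y : Sy) (s : Bool) : hom m y s = hom (m + y.idx) y.zero s := by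
  cases y <;> simp [hom, Sy.idx, Sy.zero]

theorem act_tab_zero (y : Sy) (s : Bool) (l : Lt) :
    Wd.act (tab y.zero s) (tab y.zero (!s) l) = [(l, true)] := by
  cases y <;> cases s <;> rcases l with _ | _ | (_ | _ | i) | (_ | _ | i) <;> rfl

/-- an inner or outer generator is the value of a letter -/
theorem gen_cases (n : ℕ) (q : ℕ × Bool) : ∃ (X : F) (l : Lt), Inn n X ∧ FreeGroup.of q = rho n X l ∧
    ((l = Lt.X) ∨ (∃ i, q.1 = n + i ∧ (l = Lt.al i ∨ l = Lt.be i))) := by
  obtain ⟨j, b⟩ := q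
  rcases Nat.lt_or_ge j n with h | h
  · exact ⟨FreeGroup.of (j, b), Lt.X, Or.inr ⟨j, b, h, rfl⟩, rfl, Or.inl rfl⟩
  · obtain ⟨i, rfl⟩ := Nat.exists_eq_add_of_le h
    cases b
    · exact ⟨1, Lt.al i, Or.inl rfl, rfl, Or.inr ⟨i, rfl, Or.inl rfl⟩⟩
    · exact ⟨1, Lt.be i, Or.inl rfl, rfl, Or.inr ⟨i, rfl, Or.inr rfl⟩⟩

theorem hom_hom_zero (n : ℕ) (y : Sy) (s : Bool) :
    (hom n y.zero s).comp (hom n y.zero (!s)) = MonoidHom.id F := by
  apply FreeGroup.ext_hom
  intro q
  obtain ⟨X, l, hX, hq, -⟩ := gen_cases n q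
  rw [hq, MonoidHom.comp_apply, rep n X hX, ev_act (rho n X) _ (rep n X hX y.zero s), act_tab_zero]
  simp

theorem hom_hom (m : ℕ) (y : Sy) (s : Bool) (x : F) : hom m y s (hom m y (!s) x) = x := by
  rw [hom_zero m y s, hom_zero m y (!s)]
  exact DFunLike.congr_fun (hom_hom_zero (m + y.idx) y s) x

/-- the automorphism of a symbol -/
def aut (m : ℕ) (y : Sy) : MulAut F where
  toFun := hom m y true
  invFun := hom m y false
  left_inv := fun x => hom_hom m y false x
  right_inv := fun x => hom_hom m y true x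
  map_mul' := map_mul _

/-- the automorphism of a signed symbol -/
def sA (m : ℕ) (x : Sy × Bool) : MulAut F := bif x.2 then aut m x.1 else (aut m x.1)⁻¹

theorem sA_apply (m : ℕ) (x : Sy × Bool) (g : F) : sA m x g = hom m x.1 x.2 g := by
  obtain ⟨y, b⟩ := x
  cases b <;> rfl

/-- the product of a word in the symbols -/
def pr (m : ℕ) (u : List (Sy × Bool)) : MulAut F := (u.map (sA m)).prod

def acts (u : List (Sy × Bool)) (w : Wd) : Wd :=
  u.foldr (fun x w => Wd.act (tab x.1 x.2) w) w

theorem pr_ev (m : ℕ) (X : F) (hX : Inn m X) (u : List (Sy × Bool)) (w : Wd) :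
    pr m u (ev (rho m X) w) = ev (rho m X) (acts u w) := by
  induction u with
  | nil => rfl
  | cons x t ih =>
    have h1 : pr m (x :: t) = sA m x * pr m t := by simp [pr]
    rw [h1, MulAut.mul_apply, ih, sA_apply, ev_act (rho m X) _ (rep m X hX x.1 x.2)]
    rfl

/-- bound for the handles moved by a symbol -/
def bd (r : ℕ) : Sy → Bool
  | Sy.A p => Nat.blt p r
  | Sy.B p => Nat.blt p r
  | Sy.C p => Nat.blt (p + 1) r
  | Sy.P p => Nat.blt p r
  | Sy.D p => Nat.ble p r
  | Sy.S p => Nat.blt (p + 1) r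

theorem tab_al (r : ℕ) (y : Sy) (h : bd r y = true) (s : Bool) (i : ℕ) (hi : r ≤ i) :
    tab y s (Lt.al i) = [(Lt.al i, true)] := by
  cases y with
  | A p => rfl
  | B p =>
    have h1 : p < r := by simpa [bd, Nat.blt] using h
    have h2 : Nat.beq i p = false := beq_f (by omega)
    simp [tab, h2]
  | C p =>
    have h1 : p + 1 < r := by simpa [bd, Nat.blt] using h
    have h2 : Nat.beq i (p + 1) = false := beq_f (by omega)
    simp [tab, h2]
  | P p =>
    have h1 : p < r := by simpa [bd, Nat.blt] using h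
    have h2 : Nat.ble i p = false := by
      rw [← Bool.not_eq_true]; simp only [Nat.ble_eq]; omega
    simp [tab, h2]
  | D p =>
    have h1 : p ≤ r := by simpa [bd] using h
    have h2 : Nat.blt i p = false := by
      rw [← Bool.not_eq_true]; simp only [Nat.blt, Nat.ble_eq]; omega
    simp [tab, h2]
  | S p =>
    have h1 : p + 1 < r := by simpa [bd, Nat.blt] using h
    have h2 : Nat.beq i (p + 1) = false := beq_f (by omega)
    have h3 : Nat.beq i p = false := beq_f (by omega)
    simp [tab, h2, h3]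

theorem tab_be (r : ℕ) (y : Sy) (h : bd r y = true) (s : Bool) (i : ℕ) (hi : r ≤ i) :
    tab y s (Lt.be i) = [(Lt.be i, true)] := by
  cases y with
  | A p =>
    have h1 : p < r := by simpa [bd, Nat.blt] using h
    have h2 : Nat.beq i p = false := beq_f (by omega)
    simp [tab, h2]
  | B p => rfl
  | C p =>
    have h1 : p + 1 < r := by simpa [bd, Nat.blt] using h
    have h2 : Nat.beq i (p + 1) = false := beq_f (by omega)
    have h3 : Nat.beq i p = false := beq_f (by omega)
    simp [tab, h2, h3]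
  | P p =>
    have h1 : p < r := by simpa [bd, Nat.blt] using h
    have h2 : Nat.blt i p = false := by
      rw [← Bool.not_eq_true]; simp only [Nat.blt, Nat.ble_eq]; omega
    have h3 : Nat.beq i p = false := beq_f (by omega)
    simp [tab, h2, h3]
  | D p =>
    have h1 : p ≤ r := by simpa [bd] using h
    have h2 : Nat.blt i p = false := by
      rw [← Bool.not_eq_true]; simp only [Nat.blt, Nat.ble_eq]; omega
    simp [tab, h2]
  | S p =>
    have h1 : p + 1 < r := by simpa [bd, Nat.blt] using h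
    have h2 : Nat.beq i (p + 1) = false := beq_f (by omega)
    have h3 : Nat.beq i p = false := beq_f (by omega)
    simp [tab, h2, h3]

theorem acts_fix (u : List (Sy × Bool)) (l : Lt) (h : ∀ x ∈ u, tab x.1 x.2 l = [(l, true)]) :
    acts u [(l, true)] = [(l, true)] := by
  induction u with
  | nil => rfl
  | cons x t ih =>
    have h1 : acts (x :: t) [(l, true)] = Wd.act (tab x.1 x.2) (acts t [(l, true)]) := rfl
    rw [h1, ih (fun y hy => h y (List.mem_cons_of_mem _ hy))]
    simp [Wd.act, Wd.app, Wd.push, h x (List.mem_cons_self ..)]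

/-- checker -/
def chk (r : ℕ) (u v : List (Sy × Bool)) : Bool :=
  u.all (fun x => bd r x.1) && v.all (fun x => bd r x.1) &&
  (Wd.beq (acts u [(Lt.X, true)]) (acts v [(Lt.X, true)]) &&
  (List.range r).all (fun i => Wd.beq (acts u [(Lt.al i, true)]) (acts v [(Lt.al i, true)]) &&
    Wd.beq (acts u [(Lt.be i, true)]) (acts v [(Lt.be i, true)])))

theorem pr_eq {r : ℕ} {u v : List (Sy × Bool)} (h : chk r u v = true) (m : ℕ) :
    pr m u = pr m v := by
  simp only [chk, Bool.and_eq_true, List.all_eq_true, List.mem_range] at h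
  obtain ⟨⟨hu, hv⟩, hX, hl⟩ := h
  have key : (pr m u : F →* F) = (pr m v : F →* F) := by
    apply FreeGroup.ext_hom
    intro q
    obtain ⟨X, l, hXi, hq, hc⟩ := gen_cases m q
    have hql : FreeGroup.of q = ev (rho m X) [(l, true)] := by rw [hq]; simp
    change pr m u (FreeGroup.of q) = pr m v (FreeGroup.of q)
    rw [hql, pr_ev m X hXi, pr_ev m X hXi]
    congr 1
    rcases hc with rfl | ⟨i, -, rfl | rfl⟩
    · exact Wd.eq_of_beq hX
    · rcases Nat.lt_or_ge i r with h1 | h1
      · exact Wd.eq_of_beq (hl i h1).1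
      · rw [acts_fix u _ (fun x hx => tab_al r x.1 (hu x hx) x.2 i h1),
          acts_fix v _ (fun x hx => tab_al r x.1 (hv x hx) x.2 i h1)]
    · rcases Nat.lt_or_ge i r with h1 | h1
      · exact Wd.eq_of_beq (hl i h1).2
      · rw [acts_fix u _ (fun x hx => tab_be r x.1 (hu x hx) x.2 i h1),
          acts_fix v _ (fun x hx => tab_be r x.1 (hv x hx) x.2 i h1)]
  apply MulEquiv.ext
  intro x
  exact DFunLike.congr_fun key x

/-- positive word -/
def P (l : List Sy) : List (Sy × Bool) := l.map (fun y => (y, true))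

/-- inverse word -/
def iv (l : List (Sy × Bool)) : List (Sy × Bool) := (l.map (fun x => (x.1, !x.2))).reverse

def pw (n : ℕ) (l : List (Sy × Bool)) : List (Sy × Bool) := (List.replicate n l).flatten

theorem pr_append (m : ℕ) (u v : List (Sy × Bool)) : pr m (u ++ v) = pr m u * pr m v := by
  simp [pr]

theorem pr_pw (m n : ℕ) (u : List (Sy × Bool)) : pr m (pw n u) = pr m u ^ n := by
  induction n with
  | zero => rfl
  | succ n ih =>
    have : pw (n + 1) u = u ++ pw n u := by simp [pw, List.replicate_succ]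
    rw [this, pr_append, ih, pow_succ']

theorem pr_iv (m : ℕ) (u : List (Sy × Bool)) : pr m (iv u) = (pr m u)⁻¹ := by
  induction u with
  | nil => simp [iv, pr]
  | cons x t ih =>
    have h1 : iv (x :: t) = iv t ++ [(x.1, !x.2)] := by simp [iv]
    rw [h1, pr_append, ih]
    have h2 : pr m (x :: t) = sA m x * pr m t := by simp [pr]
    rw [h2, mul_inv_rev]
    congr 1
    obtain ⟨y, b⟩ := x
    cases b <;> simp [pr, sA]



end Pool.Agent.Lib.MP_24877f_gt_h61
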