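import Pool.Agent.Lib.MP_24877f_gt_h61.Ident

set_option autoImplicit false

/-!
# Identities at base `0` (MP_24877f_gt)
-/

namespace Pool.Agent.Lib.MP_24877f_gt_h61

open Sy

def isE : Lt → Bool
  | Lt.E => true
  | _ => false

/-- remove the (trivial) boundary word of zero handles, and reduce -/
def noE (w : Wd) : Wd := Wd.app (w.filter (fun x => !isE x.1)) []

theorem ev_noE (X : F) (w : Wd) : ev (rho 0 X) (noE w) = ev (rho 0 X) w := by
  unfold noE
  rw [ev_app, ev_nil, mul_one]
  induction w with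
  | nil => rfl
  | cons x t ih =>
    obtain ⟨a, b⟩ := x
    cases a with
    | E =>
      have : List.filter (fun x : Lt × Bool => !isE x.1) ((Lt.E, b) :: t) =
          List.filter (fun x => !isE x.1) t := by
        rw [List.filter_cons_of_neg]; simp [isE]
      rw [this, ih, ev_cons]
      cases b <;> simp [rho, R]
    | X =>
      rw [List.filter_cons_of_pos (by simp [isE]), ev_cons, ev_cons, ih]
    | al i =>
      rw [List.filter_cons_of_pos (by simp [isE]), ev_cons, ev_cons, ih]
    | be i =>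
      rw [List.filter_cons_of_pos (by simp [isE]), ev_cons, ev_cons, ih]

/-- checker at base `0` -/
def chk0 (r : ℕ) (u v : List (Sy × Bool)) : Bool :=
  u.all (fun x => bd r x.1) && v.all (fun x => bd r x.1) &&
  (List.range r).all (fun i =>
    Wd.beq (noE (acts u [(Lt.al i, true)])) (noE (acts v [(Lt.al i, true)])) &&
    Wd.beq (noE (acts u [(Lt.be i, true)])) (noE (acts v [(Lt.be i, true)])))

theorem pr_eq0 {r : ℕ} {u v : List (Sy × Bool)} (h : chk0 r u v = true) :
    pr 0 u = pr 0 v := by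
  simp only [chk0, Bool.and_eq_true, List.all_eq_true, List.mem_range] at h
  obtain ⟨⟨hu, hv⟩, hl⟩ := h
  have key : (pr 0 u : F →* F) = (pr 0 v : F →* F) := by
    apply FreeGroup.ext_hom
    rintro ⟨i, b⟩
    have hX : Inn 0 1 := Or.inl rfl
    cases b
    · have hql : FreeGroup.of (i, false) = ev (rho 0 1) [(Lt.al i, true)] := by simp [rho, al]
      change pr 0 u (FreeGroup.of (i, false)) = pr 0 v (FreeGroup.of (i, false))
      rw [hql, pr_ev 0 1 hX, pr_ev 0 1 hX]
      rcases Nat.lt_or_ge i r with h1 | h1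
      · rw [← ev_noE, ← ev_noE _ (acts v _), Wd.eq_of_beq (hl i h1).1]
      · rw [acts_fix u _ (fun x hx => tab_al r x.1 (hu x hx) x.2 i h1),
          acts_fix v _ (fun x hx => tab_al r x.1 (hv x hx) x.2 i h1)]
    · have hql : FreeGroup.of (i, true) = ev (rho 0 1) [(Lt.be i, true)] := by simp [rho, be]
      change pr 0 u (FreeGroup.of (i, true)) = pr 0 v (FreeGroup.of (i, true))
      rw [hql, pr_ev 0 1 hX, pr_ev 0 1 hX]
      rcases Nat.lt_or_ge i r with h1 | h1
      · rw [← ev_noE, ← ev_noE _ (acts v _), Wd.eq_of_beq (hl i h1).2]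
      · rw [acts_fix u _ (fun x hx => tab_be r x.1 (hu x hx) x.2 i h1),
          acts_fix v _ (fun x hx => tab_be r x.1 (hv x hx) x.2 i h1)]
  apply MulEquiv.ext
  intro x
  exact DFunLike.congr_fun key x

/-- chains -/
def ch3 : List Sy := [A 0, B 0, C 0, B 1, C 1, B 2, A 2]
def ch4 : List Sy := [A 0, B 0, C 0, B 1, C 1, B 2, C 2, B 3, A 3]

theorem base3_id : (pr 0 (P ch3)) ^ 8 = TD 3 := by
  have := pr_eq0 (r := 3) (u := pw 8 (P ch3)) (v := P [D 3]) (by decide +kernel)
  simpa only [pr_pw, pr_P_cons, pr_P_nil, mul_one, aut_D, zero_add] using this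

theorem base4_id : (pr 0 (P ch4)) ^ 10 = TD 4 := by
  have := pr_eq0 (r := 4) (u := pw 10 (P ch4)) (v := P [D 4]) (by decide +kernel)
  simpa only [pr_pw, pr_P_cons, pr_P_nil, mul_one, aut_D, zero_add] using this

def rot5 : List (Sy × Bool) := iv (pw 6 (P [A 0, B 0])) ++ P [S 0, S 1, S 2, S 3]

theorem base5_id : (pr 0 rot5) ^ 5 = (TD 5)⁻¹ := by
  have := pr_eq0 (r := 5) (u := pw 5 rot5) (v := iv (P [D 5])) (by decide +kernel)
  simpa only [pr_pw, pr_iv, pr_P_cons, pr_P_nil, mul_one, aut_D, zero_add] using this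

end Pool.Agent.Lib.MP_24877f_gt_h61
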