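import Pool.Agent.Lib.MP_24877f_gt_h61.Gen2

set_option autoImplicit false

/-!
# Propagation along the pieces (MP_24877f_gt)
-/

namespace Pool.Agent.Lib.MP_24877f_gt_h61

variable {Γ : Type*} [Group Γ] {a b c : ℕ → Γ}

/-- `G` contains the twists of the first `m` handles -/
def Has (a b c : ℕ → Γ) (G : Subgroup Γ) (m : ℕ) : Prop :=
  (∀ i < m, a i ∈ G ∧ b i ∈ G) ∧ (∀ i, i + 1 < m → c i ∈ G)

theorem conj_pm {G : Subgroup Γ} {f ψ X : Γ} (h : X * f * X⁻¹ ∈ G) (hψ : ψ = f ∨ ψ = f⁻¹) :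
    X * ψ * X⁻¹ ∈ G := by
  rcases hψ with rfl | rfl
  · exact h
  · have e : X * f⁻¹ * X⁻¹ = (X * f * X⁻¹)⁻¹ := by group
    rw [e]; exact G.inv_mem h

theorem conj_pm' {G : Subgroup Γ} {f ψ X : Γ} (h : X * ψ * X⁻¹ ∈ G) (hψ : ψ = f ∨ ψ = f⁻¹) :
    X * f * X⁻¹ ∈ G := by
  rcases hψ with rfl | rfl
  · exact h
  · have e : X * f * X⁻¹ = (X * f⁻¹ * X⁻¹)⁻¹ := by group
    rw [e]; exact G.inv_mem h

theorem mem_pm {G : Subgroup Γ} {f ψ : Γ} (h : f ∈ G) (hψ : ψ = f ∨ ψ = f⁻¹) : ψ ∈ G := by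
  rcases hψ with rfl | rfl
  · exact h
  · exact G.inv_mem h

/-- pieces of genus one -/
theorem prop4 (hR : Rel a b c) (G : Subgroup Γ) (f : Γ) (hf : f ∈ G) (h : ℕ) (h2 : 2 ≤ h) (n : ℕ)
    (hbase : Has a b c G h)
    (hX : (XX c 1 (h - 1) n) * f * (XX c 1 (h - 1) n)⁻¹ ∈ G)
    (hφ : ∃ φ, (φ = f ∨ φ = f⁻¹) ∧ φ * b (h - 2) * φ⁻¹ = b (h - 1))
    (hp : ∀ j < n, ∃ ψ, (ψ = f ∨ ψ = f⁻¹) ∧ ψ * a (h + j) * ψ⁻¹ = b (h + j)) :
    ∀ j ≤ n, Has a b c G (h + j) ∧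
      (XX c 1 (h - 1 + j) (n - j)) * f * (XX c 1 (h - 1 + j) (n - j))⁻¹ ∈ G := by
  intro j
  induction j with
  | zero => intro _; exact ⟨hbase, by simpa using hX⟩
  | succ j ih =>
    intro hj
    obtain ⟨⟨hab, hc⟩, hXj⟩ := ih (by omega)
    have e1 : n - j = (n - (j + 1)) + 1 := by omega
    rw [e1] at hXj
    have e2 : h - 1 + j + 1 = h - 1 + (j + 1) := by omega
    have hXe : XX c 1 (h - 1 + j) (n - (j + 1) + 1) =
        c (h - 1 + j) * XX c 1 (h - 1 + (j + 1)) (n - (j + 1)) := by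
      rw [XX, e2]
    rw [hXe] at hXj
    set X' := XX c 1 (h - 1 + (j + 1)) (n - (j + 1)) with hX'
    have hcross : c (h - 1 + j) ∈ G ∧ X' * f * X'⁻¹ ∈ G := by
      have hXb : Commute X' (b (h - 1 + j)) :=
        XX_comm 1 _ _ _ (fun i hi => (hR.bc _ _ (by omega) (by omega)).symm)
      have hbr : b (h - 1 + j) * c (h - 1 + j) * b (h - 1 + j) =
        c (h - 1 + j) * b (h - 1 + j) * c (h - 1 + j) := hR.brbc _
      have hbm : b (h - 1 + j) ∈ G := (hab _ (by omega)).2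
      rcases Nat.eq_zero_or_pos j with rfl | hj0
      · obtain ⟨φ, hφf, hφb⟩ := hφ
        have hz : Commute (c (h - 1 + 0) * X') (b (h - 2)) :=
          (hR.bc _ _ (by omega) (by omega)).symm.mul_left
            (XX_comm 1 _ _ _ (fun i hi => (hR.bc _ _ (by omega) (by omega)).symm))
        obtain ⟨k1, k2⟩ := cross_mem (conj_pm hXj hφf) (hab (h - 2) (by omega)).2 hz hbm
          (by simpa using hφb) hXb hbr
        exact ⟨k1, conj_pm' k2 hφf⟩
      · obtain ⟨ψ, hψf, hψ⟩ := hp (j - 1) (by omega)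
        have e3 : h + (j - 1) = h - 1 + j := by omega
        rw [e3] at hψ
        have hz : Commute (c (h - 1 + j) * X') (a (h - 1 + j)) :=
          (hR.ac _ _).symm.mul_left (XX_comm 1 _ _ _ (fun i _ => (hR.ac _ _).symm))
        obtain ⟨k1, k2⟩ := cross_mem (conj_pm hXj hψf) (hab (h - 1 + j) (by omega)).1 hz hbm
          hψ hXb hbr
        exact ⟨k1, conj_pm' k2 hψf⟩
    have ha : a (h + j) ∈ G := by
      have e4 : h - 2 + j + 1 = h - 1 + j := by omega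
      have := star_mem hR G (h - 2 + j) (hab _ (by omega)).1 (hab _ (by omega)).2
        (hc _ (by omega)) (by rw [e4]; exact (hab _ (by omega)).2) (by rw [e4]; exact hcross.1)
        (by rw [e4]; exact (hab _ (by omega)).1)
      have e5 : h - 2 + j + 2 = h + j := by omega
      rw [e5] at this; exact this
    have hb : b (h + j) ∈ G := by
      obtain ⟨ψ, hψf, hψ⟩ := hp j (by omega)
      rw [← hψ]
      exact G.mul_mem (G.mul_mem (mem_pm hf hψf) ha) (G.inv_mem (mem_pm hf hψf))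
    refine ⟨⟨?_, ?_⟩, hcross.2⟩
    · intro i hi
      rcases Nat.lt_or_ge i (h + j) with h3 | h3
      · exact hab i h3
      · have : i = h + j := by omega
        subst this
        exact ⟨ha, hb⟩
    · intro i hi
      rcases Nat.lt_or_ge (i + 1) (h + j) with h3 | h3
      · exact hc i h3
      · have : i = h - 1 + j := by omega
        subst this
        exact hcross.1

/-- pieces of genus two -/
theorem prop5 (hR : Rel a b c) (G : Subgroup Γ) (f : Γ) (hf : f ∈ G) (h : ℕ) (h2 : 2 ≤ h) (n : ℕ)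
    (hbase : Has a b c G h)
    (hX : (XX c 2 (h - 1) n) * f * (XX c 2 (h - 1) n)⁻¹ ∈ G)
    (hφ : ∃ φ, (φ = f ∨ φ = f⁻¹) ∧ φ * b (h - 2) * φ⁻¹ = b (h - 1))
    (hp : ∀ j < n, ∃ ψ, (ψ = f ∨ ψ = f⁻¹) ∧
      ψ * a (h + 2 * j) * ψ⁻¹ = a (h + 2 * j) * b (h + 2 * j) * (a (h + 2 * j))⁻¹ ∧
      ψ * b (h + 2 * j) * ψ⁻¹ = c (h + 2 * j) ∧
      ψ * c (h + 2 * j) * ψ⁻¹ = b (h + 2 * j + 1)) :
    ∀ j ≤ n, Has a b c G (h + 2 * j) ∧
      (XX c 2 (h - 1 + 2 * j) (n - j)) * f * (XX c 2 (h - 1 + 2 * j) (n - j))⁻¹ ∈ G := by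
  intro j
  induction j with
  | zero => intro _; exact ⟨hbase, by simpa using hX⟩
  | succ j ih =>
    intro hj
    obtain ⟨⟨hab, hc⟩, hXj⟩ := ih (by omega)
    have e1 : n - j = (n - (j + 1)) + 1 := by omega
    rw [e1] at hXj
    have e2 : h - 1 + 2 * j + 2 = h - 1 + 2 * (j + 1) := by omega
    have hXe : XX c 2 (h - 1 + 2 * j) (n - (j + 1) + 1) =
        c (h - 1 + 2 * j) * XX c 2 (h - 1 + 2 * (j + 1)) (n - (j + 1)) := by
      rw [XX, e2]
    rw [hXe] at hXj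
    set X' := XX c 2 (h - 1 + 2 * (j + 1)) (n - (j + 1)) with hX'
    have hcross : c (h - 1 + 2 * j) ∈ G ∧ X' * f * X'⁻¹ ∈ G := by
      have hXb : Commute X' (b (h - 1 + 2 * j)) :=
        XX_comm 2 _ _ _ (fun i hi => (hR.bc _ _ (by omega) (by omega)).symm)
      have hbr : b (h - 1 + 2 * j) * c (h - 1 + 2 * j) * b (h - 1 + 2 * j) =
        c (h - 1 + 2 * j) * b (h - 1 + 2 * j) * c (h - 1 + 2 * j) := hR.brbc _
      have hbm : b (h - 1 + 2 * j) ∈ G := (hab _ (by omega)).2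
      rcases Nat.eq_zero_or_pos j with rfl | hj0
      · obtain ⟨φ, hφf, hφb⟩ := hφ
        have hz : Commute (c (h - 1 + 2 * 0) * X') (b (h - 2)) :=
          (hR.bc _ _ (by omega) (by omega)).symm.mul_left
            (XX_comm 2 _ _ _ (fun i hi => (hR.bc _ _ (by omega) (by omega)).symm))
        obtain ⟨k1, k2⟩ := cross_mem (conj_pm hXj hφf) (hab (h - 2) (by omega)).2 hz hbm
          (by simpa using hφb) hXb hbr
        exact ⟨k1, conj_pm' k2 hφf⟩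
      · obtain ⟨ψ, hψf, -, -, hψ⟩ := hp (j - 1) (by omega)
        have e3 : h + 2 * (j - 1) + 1 = h - 1 + 2 * j := by omega
        rw [e3] at hψ
        have hz : Commute (c (h - 1 + 2 * j) * X') (c (h + 2 * (j - 1))) :=
          (hR.cc _ _).mul_left (XX_comm 2 _ _ _ (fun i _ => (hR.cc _ _)))
        obtain ⟨k1, k2⟩ := cross_mem (conj_pm hXj hψf) (hc (h + 2 * (j - 1)) (by omega)) hz hbm
          hψ hXb hbr
        exact ⟨k1, conj_pm' k2 hψf⟩
    have ha : a (h + 2 * j) ∈ G := by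
      have e4 : h - 2 + 2 * j + 1 = h - 1 + 2 * j := by omega
      have := star_mem hR G (h - 2 + 2 * j) (hab _ (by omega)).1 (hab _ (by omega)).2
        (hc _ (by omega)) (by rw [e4]; exact (hab _ (by omega)).2) (by rw [e4]; exact hcross.1)
        (by rw [e4]; exact (hab _ (by omega)).1)
      have e5 : h - 2 + 2 * j + 2 = h + 2 * j := by omega
      rw [e5] at this; exact this
    obtain ⟨ψ, hψf, g1, g2, g3⟩ := hp j (by omega)
    have hψ : ψ ∈ G := mem_pm hf hψf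
    have hcj : ∀ x ∈ G, ψ * x * ψ⁻¹ ∈ G := fun x hx =>
      G.mul_mem (G.mul_mem hψ hx) (G.inv_mem hψ)
    have hb : b (h + 2 * j) ∈ G := by
      have k := hcj _ ha
      rw [g1] at k
      have := G.mul_mem (G.mul_mem (G.inv_mem ha) k) ha
      have e : (a (h + 2 * j))⁻¹ * (a (h + 2 * j) * b (h + 2 * j) * (a (h + 2 * j))⁻¹) *
        a (h + 2 * j) = b (h + 2 * j) := by group
      rw [e] at this; exact this
    have hcm : c (h + 2 * j) ∈ G := by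
      have k := hcj _ hb
      rw [g2] at k; exact k
    have hb' : b (h + 2 * j + 1) ∈ G := by
      have k := hcj _ hcm
      rw [g3] at k; exact k
    have ha' : a (h + 2 * j + 1) ∈ G := by
      have e4 : h - 1 + 2 * j + 1 = h + 2 * j := by omega
      have := star_mem hR G (h - 1 + 2 * j) (hab _ (by omega)).1 (hab _ (by omega)).2
        hcross.1 (by rw [e4]; exact hb) (by rw [e4]; exact hcm) (by rw [e4]; exact ha)
      have e5 : h - 1 + 2 * j + 2 = h + 2 * j + 1 := by omega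
      rw [e5] at this; exact this
    refine ⟨⟨?_, ?_⟩, hcross.2⟩
    · intro i hi
      rcases Nat.lt_or_ge i (h + 2 * j) with h3 | h3
      · exact hab i h3
      · rcases Nat.lt_or_ge i (h + 2 * j + 1) with h4 | h4
        · have : i = h + 2 * j := by omega
          subst this
          exact ⟨ha, hb⟩
        · have : i = h + 2 * j + 1 := by omega
          subst this
          exact ⟨ha', hb'⟩
    · intro i hi
      rcases Nat.lt_or_ge (i + 1) (h + 2 * j) with h3 | h3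
      · exact hc i h3
      · rcases Nat.lt_or_ge (i + 1) (h + 2 * j + 1) with h4 | h4
        · have : i = h - 1 + 2 * j := by omega
          subst this
          exact hcross.1
        · have : i = h + 2 * j := by omega
          subst this
          exact hcm

theorem strip {G : Subgroup Γ} {u X f : Γ} (hu : u ∈ G) (h : (u * X) * f * (u * X)⁻¹ ∈ G) :
    X * f * X⁻¹ ∈ G := by
  have := G.mul_mem (G.mul_mem (G.inv_mem hu) h) hu
  have e : u⁻¹ * ((u * X) * f * (u * X)⁻¹) * u = X * f * X⁻¹ := by group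
  rw [e] at this; exact this

/-- generation, order four -/
theorem gen4 (hR : Rel a b c) (G : Subgroup Γ) (f : Γ) (n : ℕ) (hf : f ∈ G)
    (hv : a 0 * f * (a 0)⁻¹ ∈ G)
    (hw : (b 0 * a 1 * XX c 1 2 n) * f * (b 0 * a 1 * XX c 1 2 n)⁻¹ ∈ G)
    (hφ : ∃ φ, (φ = f ∨ φ = f⁻¹) ∧ φ * a 0 * φ⁻¹ = c 0 ∧ φ * c 0 * φ⁻¹ = c 1 ∧
      φ * c 1 * φ⁻¹ = a 2 ∧ φ * b 0 * φ⁻¹ = b 1 ∧ φ * b 1 * φ⁻¹ = b 2)
    (hp : ∀ j < n, ∃ ψ, (ψ = f ∨ ψ = f⁻¹) ∧ ψ * a (3 + j) * ψ⁻¹ = b (3 + j)) :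
    Has a b c G (3 + n) := by
  obtain ⟨φ, hφf, h1, h2, h3, h4, h5⟩ := hφ
  have hXc : ∀ i, Commute (XX c 1 2 n) (c i) := fun i => XX_comm 1 _ _ _ (fun _ _ => hR.cc _ _)
  have hXa : ∀ i, Commute (XX c 1 2 n) (a i) :=
    fun i => XX_comm 1 _ _ _ (fun _ _ => (hR.ac _ _).symm)
  have hXb : ∀ i < 2, Commute (XX c 1 2 n) (b i) := fun i hi =>
    XX_comm 1 _ _ _ (fun _ _ => (hR.bc _ _ (by omega) (by omega)).symm)
  obtain ⟨hl, ha2⟩ := base_tube hR G φ (XX c 1 2 n) (a 2) (mem_pm hf hφf) h1 h2 h3 h4 h5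
    (hXc 0) (hXb 0 (by omega)) (hXc 1) (hXb 1 (by omega)) (hXa 2)
    (hR.ab 2 0 (by omega)) (hR.ab 2 1 (by omega)) (hR.aa 2 1)
    (conj_pm hv hφf) (conj_pm hw hφf)
  have ma0 : a 0 ∈ G := hl _ (by simp [letters])
  have mb0 : b 0 ∈ G := hl _ (by simp [letters])
  have mc0 : c 0 ∈ G := hl _ (by simp [letters])
  have mb1 : b 1 ∈ G := hl _ (by simp [letters])
  have mc1 : c 1 ∈ G := hl _ (by simp [letters])
  have mb2 : b 2 ∈ G := hl _ (by simp [letters])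
  have ma1 : a 1 ∈ G := hl _ (by simp [letters])
  have hbase : Has a b c G 3 := by
    constructor
    · intro i hi
      interval_cases i
      · exact ⟨ma0, mb0⟩
      · exact ⟨ma1, mb1⟩
      · exact ⟨ha2, mb2⟩
    · intro i hi
      have : i < 2 := by omega
      interval_cases i
      · exact mc0
      · exact mc1
  exact (prop4 hR G f hf 3 (by omega) n hbase (strip (G.mul_mem mb0 ma1) hw) ⟨φ, hφf, h5⟩ hp n
    le_rfl).1

/-- generation, order five, even genus -/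
theorem gen5e (hR : Rel a b c) (G : Subgroup Γ) (f : Γ) (n : ℕ) (hf : f ∈ G)
    (hv : a 0 * f * (a 0)⁻¹ ∈ G)
    (hw : (b 0 * a 1 * XX c 2 3 n) * f * (b 0 * a 1 * XX c 2 3 n)⁻¹ ∈ G)
    (hφ : ∃ φ, (φ = f ∨ φ = f⁻¹) ∧ φ * a 0 * φ⁻¹ = c 0 ∧ φ * c 0 * φ⁻¹ = c 1 ∧
      φ * c 1 * φ⁻¹ = c 2 ∧ φ * b 0 * φ⁻¹ = b 1 ∧ φ * b 1 * φ⁻¹ = b 2 ∧ φ * b 2 * φ⁻¹ = b 3)
    (hp : ∀ j < n, ∃ ψ, (ψ = f ∨ ψ = f⁻¹) ∧
      ψ * a (4 + 2 * j) * ψ⁻¹ = a (4 + 2 * j) * b (4 + 2 * j) * (a (4 + 2 * j))⁻¹ ∧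
      ψ * b (4 + 2 * j) * ψ⁻¹ = c (4 + 2 * j) ∧
      ψ * c (4 + 2 * j) * ψ⁻¹ = b (4 + 2 * j + 1)) :
    Has a b c G (4 + 2 * n) := by
  obtain ⟨φ, hφf, h1, h2, h3, h4, h5, h6⟩ := hφ
  have hφG := mem_pm hf hφf
  have hXc : ∀ i, Commute (XX c 2 3 n) (c i) := fun i => XX_comm 2 _ _ _ (fun _ _ => hR.cc _ _)
  have hXb : ∀ i < 3, Commute (XX c 2 3 n) (b i) := fun i hi =>
    XX_comm 2 _ _ _ (fun _ _ => (hR.bc _ _ (by omega) (by omega)).symm)
  obtain ⟨hl, ha2⟩ := base_tube hR G φ (XX c 2 3 n) (c 2) hφG h1 h2 h3 h4 h5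
    (hXc 0) (hXb 0 (by omega)) (hXc 1) (hXb 1 (by omega)) (hXc 2)
    (hR.bc 0 2 (by omega) (by omega)).symm (hR.bc 1 2 (by omega) (by omega)).symm
    (hR.ac 1 2).symm (conj_pm hv hφf) (conj_pm hw hφf)
  have ma0 : a 0 ∈ G := hl _ (by simp [letters])
  have mb0 : b 0 ∈ G := hl _ (by simp [letters])
  have mc0 : c 0 ∈ G := hl _ (by simp [letters])
  have mb1 : b 1 ∈ G := hl _ (by simp [letters])
  have mc1 : c 1 ∈ G := hl _ (by simp [letters])
  have mb2 : b 2 ∈ G := hl _ (by simp [letters])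
  have ma1 : a 1 ∈ G := hl _ (by simp [letters])
  have mc2 : c 2 ∈ G := by
    rw [← h3]; exact G.mul_mem (G.mul_mem hφG mc1) (G.inv_mem hφG)
  have mb3 : b 3 ∈ G := by
    rw [← h6]; exact G.mul_mem (G.mul_mem hφG mb2) (G.inv_mem hφG)
  have ma3 : a 3 ∈ G := star_mem hR G 1 ma1 mb1 mc1 mb2 mc2 ha2
  have hbase : Has a b c G 4 := by
    constructor
    · intro i hi
      interval_cases i
      · exact ⟨ma0, mb0⟩
      · exact ⟨ma1, mb1⟩
      · exact ⟨ha2, mb2⟩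
      · exact ⟨ma3, mb3⟩
    · intro i hi
      have : i < 3 := by omega
      interval_cases i
      · exact mc0
      · exact mc1
      · exact mc2
  exact (prop5 hR G f hf 4 (by omega) n hbase (strip (G.mul_mem mb0 ma1) hw) ⟨φ, hφf, h6⟩ hp n
    le_rfl).1

/-- generation, order five, odd genus -/
theorem gen5o (hR : Rel a b c) (G : Subgroup Γ) (f : Γ) (n : ℕ) (hf : f ∈ G)
    (hv : a 0 * f * (a 0)⁻¹ ∈ G)
    (hw : (b 0 * c 0 * XX c 2 4 n) * f * (b 0 * c 0 * XX c 2 4 n)⁻¹ ∈ G)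
    (hφ : ∃ φ, (φ = f ∨ φ = f⁻¹) ∧ (∀ i < 4, φ * a i * φ⁻¹ = a (i + 1)) ∧
      (∀ i < 4, φ * b i * φ⁻¹ = b (i + 1)) ∧ (∀ i < 3, φ * c i * φ⁻¹ = c (i + 1)))
    (hp : ∀ j < n, ∃ ψ, (ψ = f ∨ ψ = f⁻¹) ∧
      ψ * a (5 + 2 * j) * ψ⁻¹ = a (5 + 2 * j) * b (5 + 2 * j) * (a (5 + 2 * j))⁻¹ ∧
      ψ * b (5 + 2 * j) * ψ⁻¹ = c (5 + 2 * j) ∧
      ψ * c (5 + 2 * j) * ψ⁻¹ = b (5 + 2 * j + 1)) :
    Has a b c G (5 + 2 * n) := by
  obtain ⟨φ, hφf, h1, h2, h3⟩ := hφ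
  have hφG := mem_pm hf hφf
  have hXa : ∀ i, Commute (XX c 2 4 n) (a i) :=
    fun i => XX_comm 2 _ _ _ (fun _ _ => (hR.ac _ _).symm)
  have hXb : ∀ i < 4, Commute (XX c 2 4 n) (b i) := fun i hi =>
    XX_comm 2 _ _ _ (fun _ _ => (hR.bc _ _ (by omega) (by omega)).symm)
  obtain ⟨hl, ha2⟩ := base_ring hR G φ (XX c 2 4 n) hφG (h1 0 (by omega)) (h1 1 (by omega))
    (h1 2 (by omega)) (h2 0 (by omega)) (h2 1 (by omega)) (h3 0 (by omega)) hXa
    (hXb 0 (by omega)) (hXb 2 (by omega)) (conj_pm hv hφf) (conj_pm hw hφf)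
  have ma0 : a 0 ∈ G := hl _ (by simp [letters])
  have mb0 : b 0 ∈ G := hl _ (by simp [letters])
  have mc0 : c 0 ∈ G := hl _ (by simp [letters])
  have hcj : ∀ x ∈ G, φ * x * φ⁻¹ ∈ G := fun x hx =>
    G.mul_mem (G.mul_mem hφG hx) (G.inv_mem hφG)
  have hbase : Has a b c G 5 := by
    constructor
    · intro i
      induction i with
      | zero => intro _; exact ⟨ma0, mb0⟩
      | succ i ih =>
        intro hi
        obtain ⟨k1, k2⟩ := ih (by omega)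
        exact ⟨by rw [← h1 i (by omega)]; exact hcj _ k1,
          by rw [← h2 i (by omega)]; exact hcj _ k2⟩
    · intro i
      induction i with
      | zero => intro _; exact mc0
      | succ i ih =>
        intro hi
        rw [← h3 i (by omega)]; exact hcj _ (ih (by omega))
  exact (prop5 hR G f hf 5 (by omega) n hbase (strip (G.mul_mem mb0 mc0) hw)
    ⟨φ, hφf, h2 3 (by omega)⟩ hp n le_rfl).1

end Pool.Agent.Lib.MP_24877f_gt_h61
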