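import Pool.Agent.Lib.MP_24877f_gt_h61.Base
import Pool.Agent.Lib.MP_24877f_gt_h61.Gen3

set_option autoImplicit false

/-!
# Commutation of twists with disjoint supports, and the relations (MP_24877f_gt)
-/

namespace Pool.Agent.Lib.MP_24877f_gt_h61

open Sy

/-- the subgroup of the free group on the first `N` handles -/
def LowG (N : ℕ) : Subgroup F := Subgroup.closure {x | ∃ q : ℕ × Bool, q.1 < N ∧ x = FreeGroup.of q}

/-- the subgroup of the free group on the other handles -/
def UppG (N : ℕ) : Subgroup F := Subgroup.closure {x | ∃ q : ℕ × Bool, N ≤ q.1 ∧ x = FreeGroup.of q}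

def Low (N : ℕ) (φ : MulAut F) : Prop :=
  (∀ q : ℕ × Bool, q.1 < N → φ (FreeGroup.of q) ∈ LowG N) ∧
  (∀ q : ℕ × Bool, N ≤ q.1 → φ (FreeGroup.of q) = FreeGroup.of q)

def Upp (N : ℕ) (φ : MulAut F) : Prop :=
  (∀ q : ℕ × Bool, q.1 < N → φ (FreeGroup.of q) = FreeGroup.of q) ∧
  (∀ q : ℕ × Bool, N ≤ q.1 → φ (FreeGroup.of q) ∈ UppG N)

theorem of_mem_LowG {N : ℕ} {q : ℕ × Bool} (h : q.1 < N) : FreeGroup.of q ∈ LowG N :=
  Subgroup.subset_closure ⟨q, h, rfl⟩

theorem of_mem_UppG {N : ℕ} {q : ℕ × Bool} (h : N ≤ q.1) : FreeGroup.of q ∈ UppG N :=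
  Subgroup.subset_closure ⟨q, h, rfl⟩

theorem al_mem_LowG {N i : ℕ} (h : i < N) : al i ∈ LowG N := of_mem_LowG h
theorem be_mem_LowG {N i : ℕ} (h : i < N) : be i ∈ LowG N := of_mem_LowG h
theorem al_mem_UppG {N i : ℕ} (h : N ≤ i) : al i ∈ UppG N := of_mem_UppG h
theorem be_mem_UppG {N i : ℕ} (h : N ≤ i) : be i ∈ UppG N := of_mem_UppG h

theorem fix_low {N : ℕ} {ψ : MulAut F} (h : Upp N ψ) {x : F} (hx : x ∈ LowG N) : ψ x = x := by
  induction hx using Subgroup.closure_induction with
  | mem x hx => obtain ⟨q, hq, rfl⟩ := hx; exact h.1 q hq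
  | one => exact map_one ψ
  | mul x y _ _ hx hy => rw [map_mul, hx, hy]
  | inv x _ hx => rw [map_inv, hx]

theorem fix_upp {N : ℕ} {φ : MulAut F} (h : Low N φ) {x : F} (hx : x ∈ UppG N) : φ x = x := by
  induction hx using Subgroup.closure_induction with
  | mem x hx => obtain ⟨q, hq, rfl⟩ := hx; exact h.2 q hq
  | one => exact map_one φ
  | mul x y _ _ hx hy => rw [map_mul, hx, hy]
  | inv x _ hx => rw [map_inv, hx]

theorem aut_ext {φ ψ : MulAut F} (h : ∀ q : ℕ × Bool, φ (FreeGroup.of q) = ψ (FreeGroup.of q)) :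
    φ = ψ := by
  have key : (φ : F →* F) = (ψ : F →* F) := FreeGroup.ext_hom _ _ h
  apply MulEquiv.ext
  intro x
  exact DFunLike.congr_fun key x

theorem comm_LU {N : ℕ} {φ ψ : MulAut F} (hφ : Low N φ) (hψ : Upp N ψ) : Commute φ ψ := by
  apply aut_ext
  intro q
  rw [MulAut.mul_apply, MulAut.mul_apply]
  rcases Nat.lt_or_ge q.1 N with h | h
  · rw [hψ.1 q h, fix_low hψ (hφ.1 q h)]
  · rw [hφ.2 q h, fix_upp hφ (hψ.2 q h)]

theorem TA_of (n : ℕ) (q : ℕ × Bool) : TA n (FreeGroup.of q) =
    if q = (n, true) then be n * (al n)⁻¹ else FreeGroup.of q := by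
  have : TA n (FreeGroup.of q) = hA (0 + n) true (FreeGroup.of q) := rfl
  rw [this, hA_of, zero_add]; rfl

theorem TB_of (n : ℕ) (q : ℕ × Bool) : TB n (FreeGroup.of q) =
    if q = (n, false) then al n * be n else FreeGroup.of q := by
  have : TB n (FreeGroup.of q) = hB (0 + n) true (FreeGroup.of q) := rfl
  rw [this, hB_of, zero_add]; rfl

theorem TC_of (n : ℕ) (q : ℕ × Bool) : TC n (FreeGroup.of q) =
    if q = (n, true) then gam n * be n
    else if q = (n + 1, false) then gam n * al (n + 1) * (gam n)⁻¹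
    else if q = (n + 1, true) then be (n + 1) * (gam n)⁻¹
    else FreeGroup.of q := by
  have : TC n (FreeGroup.of q) = hC (0 + n) true (FreeGroup.of q) := rfl
  rw [this, hC_of, zero_add]; rfl

theorem TP_of (n : ℕ) (q : ℕ × Bool) : TP n (FreeGroup.of q) =
    if q.1 < n ∨ q = (n, false) then (R n * al n) * FreeGroup.of q * (R n * al n)⁻¹
    else if q = (n, true) then be n * (R n * al n)⁻¹
    else FreeGroup.of q := by
  have : TP n (FreeGroup.of q) = hP (0 + n) true (FreeGroup.of q) := rfl
  rw [this, hP_of, zero_add]; rfl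

theorem TD_of (n : ℕ) (q : ℕ × Bool) : TD n (FreeGroup.of q) =
    if q.1 < n then R n * FreeGroup.of q * (R n)⁻¹ else FreeGroup.of q := by
  have : TD n (FreeGroup.of q) = hD (0 + n) true (FreeGroup.of q) := rfl
  rw [this, hD_of, zero_add]; rfl

theorem gam_low {n N : ℕ} (h : n + 1 < N) : gam n ∈ LowG N :=
  mul_mem (mul_mem (mul_mem (be_mem_LowG (by omega)) (inv_mem (al_mem_LowG (by omega))))
    (inv_mem (be_mem_LowG (by omega)))) (al_mem_LowG h)

theorem gam_upp {n N : ℕ} (h : N ≤ n) : gam n ∈ UppG N :=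
  mul_mem (mul_mem (mul_mem (be_mem_UppG h) (inv_mem (al_mem_UppG h)))
    (inv_mem (be_mem_UppG h))) (al_mem_UppG (by omega))

theorem R_low {N : ℕ} : ∀ n ≤ N, R n ∈ LowG N
  | 0, _ => one_mem _
  | n + 1, h => mul_mem (R_low n (by omega)) (mul_mem (mul_mem (mul_mem (al_mem_LowG h)
      (be_mem_LowG h)) (inv_mem (al_mem_LowG h))) (inv_mem (be_mem_LowG h)))

theorem low_A {n N : ℕ} (h : n < N) : Low N (TA n) := by
  constructor
  · intro q hq
    rw [TA_of]
    split_ifs
    · exact mul_mem (be_mem_LowG h) (inv_mem (al_mem_LowG h))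
    · exact of_mem_LowG hq
  · intro q hq
    rw [TA_of, if_neg]
    rintro rfl; simp only at hq; omega

theorem low_B {n N : ℕ} (h : n < N) : Low N (TB n) := by
  constructor
  · intro q hq
    rw [TB_of]
    split_ifs
    · exact mul_mem (al_mem_LowG h) (be_mem_LowG h)
    · exact of_mem_LowG hq
  · intro q hq
    rw [TB_of, if_neg]
    rintro rfl; simp only at hq; omega

theorem low_C {n N : ℕ} (h : n + 1 < N) : Low N (TC n) := by
  constructor
  · intro q hq
    rw [TC_of]
    split_ifs
    · exact mul_mem (gam_low h) (be_mem_LowG (by omega))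
    · exact mul_mem (mul_mem (gam_low h) (al_mem_LowG h)) (inv_mem (gam_low h))
    · exact mul_mem (be_mem_LowG h) (inv_mem (gam_low h))
    · exact of_mem_LowG hq
  · intro q hq
    rw [TC_of, if_neg, if_neg, if_neg]
    · rintro rfl; simp only at hq; omega
    · rintro rfl; simp only at hq; omega
    · rintro rfl; simp only at hq; omega

theorem low_P {n N : ℕ} (h : n < N) : Low N (TP n) := by
  have hu : R n * al n ∈ LowG N := mul_mem (R_low n h.le) (al_mem_LowG h)
  constructor
  · intro q hq
    rw [TP_of]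
    split_ifs
    · exact mul_mem (mul_mem hu (of_mem_LowG hq)) (inv_mem hu)
    · exact mul_mem (be_mem_LowG h) (inv_mem hu)
    · exact of_mem_LowG hq
  · intro q hq
    rw [TP_of, if_neg, if_neg]
    · rintro rfl; simp only at hq; omega
    · rintro (h1 | rfl)
      · omega
      · simp only at hq; omega

theorem low_D {n N : ℕ} (h : n ≤ N) : Low N (TD n) := by
  have hu : R n ∈ LowG N := R_low n h
  constructor
  · intro q hq
    rw [TD_of]
    split_ifs
    · exact mul_mem (mul_mem hu (of_mem_LowG hq)) (inv_mem hu)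
    · exact of_mem_LowG hq
  · intro q hq
    rw [TD_of, if_neg (by omega)]

theorem upp_A {n N : ℕ} (h : N ≤ n) : Upp N (TA n) := by
  constructor
  · intro q hq
    rw [TA_of, if_neg]
    rintro rfl; simp only at hq; omega
  · intro q hq
    rw [TA_of]
    split_ifs
    · exact mul_mem (be_mem_UppG h) (inv_mem (al_mem_UppG h))
    · exact of_mem_UppG hq

theorem upp_B {n N : ℕ} (h : N ≤ n) : Upp N (TB n) := by
  constructor
  · intro q hq
    rw [TB_of, if_neg]
    rintro rfl; simp only at hq; omega
  · intro q hq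
    rw [TB_of]
    split_ifs
    · exact mul_mem (al_mem_UppG h) (be_mem_UppG h)
    · exact of_mem_UppG hq

theorem upp_C {n N : ℕ} (h : N ≤ n) : Upp N (TC n) := by
  constructor
  · intro q hq
    rw [TC_of, if_neg, if_neg, if_neg]
    · rintro rfl; simp only at hq; omega
    · rintro rfl; simp only at hq; omega
    · rintro rfl; simp only at hq; omega
  · intro q hq
    rw [TC_of]
    split_ifs
    · exact mul_mem (gam_upp h) (be_mem_UppG h)
    · exact mul_mem (mul_mem (gam_upp h) (al_mem_UppG (by omega))) (inv_mem (gam_upp h))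
    · exact mul_mem (be_mem_UppG (by omega)) (inv_mem (gam_upp h))
    · exact of_mem_UppG hq

/-- the relations between the twists -/
theorem rel_twists : Rel TA TB TC where
  aa i j := by
    rcases Nat.lt_trichotomy i j with h | rfl | h
    · exact comm_LU (low_A h) (upp_A le_rfl)
    · exact Commute.refl _
    · exact (comm_LU (low_A h) (upp_A le_rfl)).symm
  bb i j := by
    rcases Nat.lt_trichotomy i j with h | rfl | h
    · exact comm_LU (low_B h) (upp_B le_rfl)
    · exact Commute.refl _
    · exact (comm_LU (low_B h) (upp_B le_rfl)).symm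
  cc i j := by
    rcases Nat.lt_trichotomy i j with h | rfl | h
    · rcases Nat.lt_or_ge (i + 1) j with h' | h'
      · exact comm_LU (low_C h') (upp_C le_rfl)
      · have : j = i + 1 := by omega
        subst this
        exact cm_cc1 i
    · exact Commute.refl _
    · rcases Nat.lt_or_ge (j + 1) i with h' | h'
      · exact (comm_LU (low_C h') (upp_C le_rfl)).symm
      · have : i = j + 1 := by omega
        subst this
        exact (cm_cc1 j).symm
  ab i j hij := by
    rcases Nat.lt_or_gt_of_ne hij with h | h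
    · exact comm_LU (low_A h) (upp_B le_rfl)
    · exact (comm_LU (low_B h) (upp_A le_rfl)).symm
  ac i j := by
    rcases Nat.lt_trichotomy i j with h | rfl | h
    · exact comm_LU (low_A h) (upp_C le_rfl)
    · exact cm_ac0 i
    · rcases Nat.lt_or_ge (j + 1) i with h' | h'
      · exact (comm_LU (low_C h') (upp_A le_rfl)).symm
      · have : i = j + 1 := by omega
        subst this
        exact cm_ac1 j
  bc i j hij hij' := by
    rcases Nat.lt_or_gt_of_ne hij with h | h
    · exact comm_LU (low_B h) (upp_C le_rfl)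
    · have h' : j + 1 < i := by omega
      exact (comm_LU (low_C h') (upp_B le_rfl)).symm
  brab i := br_ab i
  brbc i := br_bc i
  brcb i := br_cb i
  star i := star_id i

/-! ### the twists along the other curves -/

theorem fixR_A (i k : ℕ) : TA i (R k) = R k := by
  induction k with
  | zero => exact map_one _
  | succ k ih =>
    rw [R_succ, map_mul, ih]
    congr 1
    by_cases h : k = i
    · subst h
      have h1 : TA k (al k) = al k := by
        rw [al, TA_of, if_neg (by simp)]
      have h2 : TA k (be k) = be k * (al k)⁻¹ := by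
        rw [be, TA_of, if_pos rfl]; rfl
      simp only [map_mul, map_inv, h1, h2]
      group
    · have h1 : TA i (al k) = al k := by
        rw [al, TA_of, if_neg (by simp)]
      have h2 : TA i (be k) = be k := by
        rw [be, TA_of, if_neg (by rw [Prod.mk.injEq]; omega)]
      simp only [map_mul, map_inv, h1, h2]

theorem fixR_B (i k : ℕ) : TB i (R k) = R k := by
  induction k with
  | zero => exact map_one _
  | succ k ih =>
    rw [R_succ, map_mul, ih]
    congr 1
    by_cases h : k = i
    · subst h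
      have h1 : TB k (be k) = be k := by
        rw [be, TB_of, if_neg (by simp)]
      have h2 : TB k (al k) = al k * be k := by
        rw [al, TB_of, if_pos rfl]; rfl
      simp only [map_mul, map_inv, h1, h2]
      group
    · have h1 : TB i (be k) = be k := by
        rw [be, TB_of, if_neg (by simp)]
      have h2 : TB i (al k) = al k := by
        rw [al, TB_of, if_neg (by rw [Prod.mk.injEq]; omega)]
      simp only [map_mul, map_inv, h1, h2]

theorem fixR_C_low (i k : ℕ) (h : k ≤ i) : TC i (R k) = R k :=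
  fix_low (upp_C h) (R_low k le_rfl)

theorem fixR_C (i k : ℕ) (h : k ≠ i + 1) : TC i (R k) = R k := by
  rcases Nat.lt_or_ge k (i + 1) with h1 | h1
  · exact fixR_C_low i k (by omega)
  · obtain ⟨d, rfl⟩ : ∃ d, k = i + 2 + d := ⟨k - (i + 2), by omega⟩
    clear h h1
    induction d with
    | zero =>
      have h0 : R (i + 2) = ev (rho i 1) (Rw 2) := (ev_Rw i 1 2).symm
      have h1 : pr i (P [C 0]) (ev (rho i 1) (Rw 2)) = ev (rho i 1) (Rw 2) := by
        have h3 : acts (P [C 0]) (Rw 2) = Rw 2 := Wd.eq_of_beq (by decide +kernel)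
        rw [pr_ev i 1 (Or.inl rfl), h3]
      have h2 : pr i (P [C 0]) = TC i := by
        rw [pr_P_cons, pr_P_nil, mul_one, aut_C, add_zero]
      rw [add_zero, h0]
      rw [h2] at h1
      exact h1
    | succ d ih =>
      rw [← add_assoc, R_succ, map_mul, ih]
      congr 1
      have h1 : TC i (al (i + 2 + d)) = al (i + 2 + d) := by
        rw [al, TC_of, if_neg (by simp), if_neg (by rw [Prod.mk.injEq]; omega), if_neg (by simp)]
      have h2 : TC i (be (i + 2 + d)) = be (i + 2 + d) := by
        rw [be, TC_of, if_neg (by rw [Prod.mk.injEq]; omega), if_neg (by simp),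
          if_neg (by rw [Prod.mk.injEq]; omega)]
      simp only [map_mul, map_inv, h1, h2]

theorem TP_low {m : ℕ} {x : F} (hx : x ∈ LowG m) :
    TP m x = (R m * al m) * x * (R m * al m)⁻¹ := by
  induction hx using Subgroup.closure_induction with
  | mem x hx => obtain ⟨q, hq, rfl⟩ := hx; rw [TP_of, if_pos (Or.inl hq)]
  | one => rw [map_one]; group
  | mul x y _ _ hx hy => rw [map_mul, hx, hy]; group
  | inv x _ hx => rw [map_inv, hx]; group

/-- an automorphism supported on the first `m` handles and fixing the boundary word commutes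
with the twist `TP m` -/
theorem comm_P {m : ℕ} {φ : MulAut F} (hφ : Low m φ) (hR : φ (R m) = R m) :
    Commute φ (TP m) := by
  have hal : φ (al m) = al m := hφ.2 (m, false) le_rfl
  have hbe : φ (be m) = be m := hφ.2 (m, true) le_rfl
  have hu : φ (R m * al m) = R m * al m := by rw [map_mul, hR, hal]
  apply aut_ext
  intro q
  rw [MulAut.mul_apply, MulAut.mul_apply]
  rcases Nat.lt_or_ge q.1 m with h | h
  · rw [TP_low (hφ.1 q h), TP_of, if_pos (Or.inl h), map_mul, map_mul, map_inv, hu]
  · rw [hφ.2 q h]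
    rw [TP_of]
    split_ifs with h1 h2
    · rw [map_mul, map_mul, map_inv, hu, hφ.2 q h]
    · rw [map_mul, map_inv, hu, hbe]
    · rw [hφ.2 q h]

theorem pa (m i : ℕ) : Commute (TP m) (TA i) := by
  rcases Nat.lt_trichotomy i m with h | rfl | h
  · exact (comm_P (low_A h) (fixR_A i m)).symm
  · exact (cm_ap0 i).symm
  · exact comm_LU (low_P h) (upp_A le_rfl)

theorem pb (m i : ℕ) (hi : i ≠ m) : Commute (TP m) (TB i) := by
  rcases Nat.lt_or_gt_of_ne hi with h | h
  · exact (comm_P (low_B h) (fixR_B i m)).symm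
  · exact comm_LU (low_P h) (upp_B le_rfl)

theorem pc (m i : ℕ) : Commute (TP m) (TC i) := by
  rcases Nat.lt_trichotomy i m with h | rfl | h
  · rcases Nat.lt_or_ge (i + 1) m with h' | h'
    · exact (comm_P (low_C h') (fixR_C i m (by omega))).symm
    · have : m = i + 1 := by omega
      subst this
      exact (cm_cp1 i).symm
  · exact (cm_cp0 i).symm
  · exact comm_LU (low_P h) (upp_C le_rfl)

/-- the group generated by the twists in the first `n` handles -/
def MM (n : ℕ) : Subgroup (MulAut F) := Subgroup.closure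
  {x | (∃ i < n, x = TA i ∨ x = TB i) ∨ ∃ i, i + 1 < n ∧ x = TC i}

theorem A_mem {n i : ℕ} (h : i < n) : TA i ∈ MM n :=
  Subgroup.subset_closure (Or.inl ⟨i, h, Or.inl rfl⟩)
theorem B_mem {n i : ℕ} (h : i < n) : TB i ∈ MM n :=
  Subgroup.subset_closure (Or.inl ⟨i, h, Or.inr rfl⟩)
theorem C_mem {n i : ℕ} (h : i + 1 < n) : TC i ∈ MM n :=
  Subgroup.subset_closure (Or.inr ⟨i, h, rfl⟩)

theorem MM_le {n n' : ℕ} (h : n ≤ n') : MM n ≤ MM n' := by
  unfold MM
  apply Subgroup.closure_mono
  rintro x (⟨i, hi, h1⟩ | ⟨i, hi, h1⟩)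
  · exact Or.inl ⟨i, by omega, h1⟩
  · exact Or.inr ⟨i, by omega, h1⟩

theorem TD_zero : TD 0 = 1 := by
  apply aut_ext
  intro q
  rw [TD_of, if_neg (by omega)]; rfl

theorem TP_zero : TP 0 = TA 0 := by
  apply aut_ext
  intro q
  have h0 : R 0 * al 0 = al 0 := by simp [R]
  rw [TP_of, TA_of, h0]
  by_cases h : q = (0, false)
  · subst h
    rw [if_pos (Or.inr rfl), if_neg (by simp), al]
    group
  · rw [if_neg (by rintro (h1 | h1); · omega
                   · exact h h1)]

theorem D_P_mem : ∀ m : ℕ, TD m ∈ MM m ∧ TP m ∈ MM (m + 1)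
  | 0 => ⟨by rw [TD_zero]; exact one_mem _, by rw [TP_zero]; exact A_mem (by omega)⟩
  | m + 1 => by
    obtain ⟨h1, h2⟩ := D_P_mem m
    have hD : TD (m + 1) ∈ MM (m + 1) := by
      have e : TD (m + 1) = (TA m * TB m * TP m) ^ 4 * (TD m)⁻¹ := by
        rw [piece4_id, mul_inv_cancel_right]
      rw [e]
      exact mul_mem (pow_mem (mul_mem (mul_mem (A_mem (by omega)) (B_mem (by omega))) h2) 4)
        (inv_mem (MM_le (by omega) h1))
    refine ⟨hD, ?_⟩
    have e : TP (m + 1) = (TA (m + 1))⁻¹ * (TD m)⁻¹ * (TA m * TP m * TC m * TB m) ^ 3 := by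
      rw [starP_id]; group
    rw [e]
    exact mul_mem (mul_mem (inv_mem (A_mem (by omega))) (inv_mem (MM_le (by omega) h1)))
      (pow_mem (mul_mem (mul_mem (mul_mem (A_mem (by omega)) (MM_le (by omega) h2))
        (C_mem (by omega))) (B_mem (by omega))) 3)

theorem D_mem (m : ℕ) : TD m ∈ MM m := (D_P_mem m).1
theorem P_mem (m : ℕ) : TP m ∈ MM (m + 1) := (D_P_mem m).2

/-- `y` commutes with everything in `MM n` as soon as it commutes with the generators -/
theorem comm_MM {n : ℕ} {y : MulAut F} (hA : ∀ i < n, Commute y (TA i))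
    (hB : ∀ i < n, Commute y (TB i)) (hC : ∀ i, i + 1 < n → Commute y (TC i))
    {x : MulAut F} (hx : x ∈ MM n) : Commute y x := by
  induction hx using Subgroup.closure_induction with
  | mem x hx =>
    rcases hx with ⟨i, hi, rfl | rfl⟩ | ⟨i, hi, rfl⟩
    · exact hA i hi
    · exact hB i hi
    · exact hC i hi
  | one => exact Commute.one_right y
  | mul x z _ _ hx hz => exact hx.mul_right hz
  | inv x _ hx => exact hx.inv_right

end Pool.Agent.Lib.MP_24877f_gt_h61
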