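import Mathlib

set_option autoImplicit false

/-!
# The mapping class group of a closed surface, as a group of outer automorphisms

`S_g` is the closed orientable surface of genus `g`; its fundamental group is
`⟨a_0, b_0, …, a_{g-1}, b_{g-1} | [a_0, b_0] ⋯ [a_{g-1}, b_{g-1}]⟩`.
By the theorem of Dehn, Nielsen and Baer the mapping class group of `S_g` acts faithfully on this
group by outer automorphisms, and by the theorem of Dehn and Lickorish it is generated by the
Dehn twists about the `3 g - 1` curves `a_i`, `b_i` (`0 ≤ i < g`) and `c_i` (`0 ≤ i < g - 1`),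
where `c_i = b_i a_i⁻¹ b_i⁻¹ a_{i+1}` runs through the handles `i` and `i + 1`. So the mapping
class group is the subgroup `MCG g` of `Out (π₁ S_g)` generated by these twists.
-/

namespace Pool.Agent.Lib.MP_24877f_gt_h61

/-- The relator `[a_0, b_0] ⋯ [a_{g-1}, b_{g-1}]`; the generator `(i, false)` is `a_i` and
`(i, true)` is `b_i`. -/
def surfaceRelator (g : ℕ) : FreeGroup (Fin g × Bool) :=
  (List.ofFn fun i : Fin g =>
    FreeGroup.of (i, false) * FreeGroup.of (i, true) *
      (FreeGroup.of (i, false))⁻¹ * (FreeGroup.of (i, true))⁻¹).prod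

/-- The fundamental group of the closed orientable surface of genus `g`. -/
abbrev SurfaceGroup (g : ℕ) : Type :=
  PresentedGroup ({surfaceRelator g} : Set (FreeGroup (Fin g × Bool)))

/-- the generator `a_i` -/
def genA {g : ℕ} (i : Fin g) : SurfaceGroup g := PresentedGroup.of (i, false)

/-- the generator `b_i` -/
def genB {g : ℕ} (i : Fin g) : SurfaceGroup g := PresentedGroup.of (i, true)

/-- The inner automorphisms form a normal subgroup. -/
instance innNormal (G : Type) [Group G] : ((MulAut.conj : G →* MulAut G).range).Normal where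
  conj_mem := by
    rintro _ ⟨x, rfl⟩ φ
    refine ⟨φ x, ?_⟩
    ext y
    simp [MulAut.conj_apply, MulAut.mul_apply]

/-- The outer automorphism group. -/
abbrev Out (G : Type) [Group G] : Type := MulAut G ⧸ (MulAut.conj : G →* MulAut G).range

/-- `φ` is the Dehn twist about `a_i`. -/
def IsTwistA {g : ℕ} (φ : MulAut (SurfaceGroup g)) (i : Fin g) : Prop :=
  (∀ j, φ (genA j) = genA j) ∧ φ (genB i) = genB i * (genA i)⁻¹ ∧
    ∀ j, j ≠ i → φ (genB j) = genB j

/-- `φ` is the Dehn twist about `b_i`. -/
def IsTwistB {g : ℕ} (φ : MulAut (SurfaceGroup g)) (i : Fin g) : Prop :=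
  (∀ j, φ (genB j) = genB j) ∧ φ (genA i) = genA i * genB i ∧
    ∀ j, j ≠ i → φ (genA j) = genA j

/-- the curve running through the handles `i` and `j` (used for `j = i + 1`) -/
def curveC {g : ℕ} (i j : Fin g) : SurfaceGroup g :=
  genB i * (genA i)⁻¹ * (genB i)⁻¹ * genA j

/-- `φ` is the Dehn twist about `curveC i j`, for `j = i + 1`. -/
def IsTwistC {g : ℕ} (φ : MulAut (SurfaceGroup g)) (i j : Fin g) : Prop :=
  (j : ℕ) = i + 1 ∧
  φ (genA i) = genA i ∧
  φ (genB i) = curveC i j * genB i ∧
  φ (genA j) = curveC i j * genA j * (curveC i j)⁻¹ ∧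
  φ (genB j) = genB j * (curveC i j)⁻¹ ∧
  ∀ l, l ≠ i → l ≠ j → φ (genA l) = genA l ∧ φ (genB l) = genB l

/-- The mapping class group of the closed orientable surface of genus `g`: the subgroup of
`Out (π₁ S_g)` generated by the Dehn twists about the curves of Lickorish. -/
def MCG (g : ℕ) : Subgroup (Out (SurfaceGroup g)) :=
  Subgroup.closure {x | ∃ φ : MulAut (SurfaceGroup g),
    ((∃ i, IsTwistA φ i) ∨ (∃ i, IsTwistB φ i) ∨ (∃ i j, IsTwistC φ i j)) ∧
    x = QuotientGroup.mk φ}

end Pool.Agent.Lib.MP_24877f_gt_h61
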