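import Pool.Agent.Lib.MP_24877f_gt_h61.Comm

set_option autoImplicit false

/-!
# The elements of finite order modulo the boundary twist (MP_24877f_gt)
-/

namespace Pool.Agent.Lib.MP_24877f_gt_h61

open Sy

/-- a tower of pieces -/
structure Tower (h d k : ℕ) (q f : ℕ → MulAut F) : Prop where
  succ : ∀ j, f (j + 1) = q j * (f j)⁻¹
  zero_mem : f 0 ∈ MM h
  q_mem : ∀ j, q j ∈ MM (h + d * (j + 1))
  comm : ∀ j, ∀ x ∈ MM (h + d * j), Commute (q j) x
  zero_pow : (f 0) ^ k = TD h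
  q_pow : ∀ j, (q j) ^ k = TD (h + d * (j + 1)) * TD (h + d * j)

namespace Tower
variable {h d k : ℕ} {q f : ℕ → MulAut F}

theorem mem (T : Tower h d k q f) (j : ℕ) : f j ∈ MM (h + d * j) := by
  induction j with
  | zero => simpa using T.zero_mem
  | succ j ih =>
    rw [T.succ j]
    have hle : h + d * j ≤ h + d * (j + 1) := by
      have : d * j ≤ d * (j + 1) := Nat.mul_le_mul_left _ (by omega)
      omega
    exact mul_mem (T.q_mem j) (inv_mem (MM_le hle ih))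

theorem pow (T : Tower h d k q f) (j : ℕ) : (f j) ^ k = TD (h + d * j) := by
  induction j with
  | zero => simpa using T.zero_pow
  | succ j ih =>
    have hc : Commute (q j) (f j)⁻¹ := T.comm j _ (inv_mem (T.mem j))
    rw [T.succ j, hc.mul_pow, inv_pow, ih, T.q_pow j, mul_inv_cancel_right]

theorem conj (T : Tower h d k q f) (j n : ℕ) (hjn : j ≤ n) :
    ∃ ψ, (ψ = f n ∨ ψ = (f n)⁻¹) ∧ ∀ z ∈ MM (h + d * j), ψ * z * ψ⁻¹ = f j * z * (f j)⁻¹ := by
  induction n, hjn using Nat.le_induction with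
  | base => exact ⟨f j, Or.inl rfl, fun _ _ => rfl⟩
  | succ n hn ih =>
    obtain ⟨ψ, hψ, hz⟩ := ih
    have hle : h + d * j ≤ h + d * n := by
      have : d * j ≤ d * n := Nat.mul_le_mul_left _ hn
      omega
    rcases hψ with rfl | rfl
    · refine ⟨(f (n + 1))⁻¹, Or.inr rfl, fun z hzm => ?_⟩
      rw [← hz z hzm, T.succ n]
      have hc : Commute (q n) z := T.comm n z (MM_le hle hzm)
      calc (q n * (f n)⁻¹)⁻¹ * z * (q n * (f n)⁻¹)⁻¹⁻¹ = f n * ((q n)⁻¹ * z) * q n * (f n)⁻¹ := by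
            group
        _ = f n * (z * (q n)⁻¹) * q n * (f n)⁻¹ := by rw [hc.inv_left.eq]
        _ = f n * z * (f n)⁻¹ := by group
    · refine ⟨f (n + 1), Or.inl rfl, fun z hzm => ?_⟩
      rw [← hz z hzm, T.succ n]
      have hm : (f n)⁻¹ * z * f n ∈ MM (h + d * n) :=
        mul_mem (mul_mem (inv_mem (T.mem n)) (MM_le hle hzm)) (T.mem n)
      have hc := T.comm n _ hm
      calc q n * (f n)⁻¹ * z * (q n * (f n)⁻¹)⁻¹ = q n * ((f n)⁻¹ * z * f n) * (q n)⁻¹ := by group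
        _ = (f n)⁻¹ * z * (f n)⁻¹⁻¹ := by rw [hc.eq]; group

/-- the action on a new piece -/
theorem conj_piece (T : Tower h d k q f) (j n : ℕ) (hjn : j < n) :
    ∃ ψ, (ψ = f n ∨ ψ = (f n)⁻¹) ∧ ∀ z ∈ MM (h + d * (j + 1)),
      (∀ x ∈ MM (h + d * j), Commute z x) → ψ * z * ψ⁻¹ = q j * z * (q j)⁻¹ := by
  obtain ⟨ψ, hψ, hz⟩ := T.conj (j + 1) n hjn
  refine ⟨ψ, hψ, fun z hzm hc => ?_⟩
  rw [hz z hzm, T.succ j]
  have h1 := hc _ (T.mem j)
  calc q j * (f j)⁻¹ * z * (q j * (f j)⁻¹)⁻¹ = q j * ((f j)⁻¹ * (z * f j)) * (q j)⁻¹ := by group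
    _ = q j * ((f j)⁻¹ * (f j * z)) * (q j)⁻¹ := by rw [h1.eq]
    _ = q j * z * (q j)⁻¹ := by group

end Tower

theorem TA_comm (m : ℕ) {x : MulAut F} (hx : x ∈ MM m) : Commute (TA m) x :=
  comm_MM (fun i _ => rel_twists.aa _ _) (fun i _ => rel_twists.ab _ _ (by omega))
    (fun i _ => rel_twists.ac _ _) hx

theorem TB_comm (m : ℕ) {x : MulAut F} (hx : x ∈ MM m) : Commute (TB m) x :=
  comm_MM (fun i _ => (rel_twists.ab _ _ (by omega)).symm) (fun i _ => rel_twists.bb _ _)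
    (fun i _ => rel_twists.bc _ _ (by omega) (by omega)) hx

theorem TC_comm (m : ℕ) {x : MulAut F} (hx : x ∈ MM m) : Commute (TC m) x :=
  comm_MM (fun i _ => (rel_twists.ac _ _).symm)
    (fun i _ => (rel_twists.bc _ _ (by omega) (by omega)).symm) (fun i _ => rel_twists.cc _ _) hx

theorem TP_comm (m : ℕ) {x : MulAut F} (hx : x ∈ MM m) : Commute (TP m) x :=
  comm_MM (fun i _ => pa _ _) (fun i _ => pb _ _ (by omega)) (fun i _ => pc _ _) hx

/-- pieces of genus one -/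
def q4 (m : ℕ) : MulAut F := TA m * TB m * TP m

/-- pieces of genus two -/
def q5 (m : ℕ) : MulAut F := TA m * (TA m * TB m * TC m * TB (m + 1) * TP (m + 1))

theorem q4_mem (m : ℕ) : q4 m ∈ MM (m + 1) :=
  mul_mem (mul_mem (A_mem (by omega)) (B_mem (by omega))) (P_mem m)

theorem q5_mem (m : ℕ) : q5 m ∈ MM (m + 2) :=
  mul_mem (A_mem (by omega)) (mul_mem (mul_mem (mul_mem (mul_mem (A_mem (by omega))
    (B_mem (by omega))) (C_mem (by omega))) (B_mem (by omega))) (P_mem (m + 1)))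

theorem q4_comm (m : ℕ) {x : MulAut F} (hx : x ∈ MM m) : Commute (q4 m) x :=
  ((TA_comm m hx).mul_left (TB_comm m hx)).mul_left (TP_comm m hx)

theorem q5_comm (m : ℕ) {x : MulAut F} (hx : x ∈ MM m) : Commute (q5 m) x := by
  have hx' : x ∈ MM (m + 1) := MM_le (by omega) hx
  exact (TA_comm m hx).mul_left (((((TA_comm m hx).mul_left (TB_comm m hx)).mul_left
    (TC_comm m hx)).mul_left (TB_comm (m + 1) hx')).mul_left (TP_comm (m + 1) hx'))

theorem q4_a (m : ℕ) : q4 m * TA m * (q4 m)⁻¹ = TB m := by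
  have := pr_eq (r := 1) (u := P [A 0, B 0, Sy.P 0] ++ P [A 0]) (v := P [B 0] ++ P [A 0, B 0, Sy.P 0])
    (by decide +kernel) m
  simp only [pr_append, pr_P_cons, pr_P_nil, aut_A, aut_B, aut_P, mul_one, add_zero] at this
  rw [mul_inv_eq_iff_eq_mul, q4]
  simpa only [mul_assoc] using this

theorem q5_a (m : ℕ) : q5 m * TA m * (q5 m)⁻¹ = TA m * TB m * (TA m)⁻¹ := by
  have := pr_eq (r := 2) (u := P [A 0, A 0, B 0, C 0, B 1, Sy.P 1] ++ P [A 0])
    (v := P [A 0, B 0] ++ (iv (P [A 0]) ++ P [A 0, A 0, B 0, C 0, B 1, Sy.P 1]))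
    (by decide +kernel) m
  simp only [pr_append, pr_iv, pr_P_cons, pr_P_nil, aut_A, aut_B, aut_C, aut_P, mul_one,
    add_zero] at this
  rw [mul_inv_eq_iff_eq_mul, q5]
  simpa only [mul_assoc] using this

theorem q5_b (m : ℕ) : q5 m * TB m * (q5 m)⁻¹ = TC m := by
  have := pr_eq (r := 2) (u := P [A 0, A 0, B 0, C 0, B 1, Sy.P 1] ++ P [B 0])
    (v := P [C 0] ++ P [A 0, A 0, B 0, C 0, B 1, Sy.P 1])
    (by decide +kernel) m
  simp only [pr_append, pr_iv, pr_P_cons, pr_P_nil, aut_A, aut_B, aut_C, aut_P, mul_one,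
    add_zero] at this
  rw [mul_inv_eq_iff_eq_mul, q5]
  simpa only [mul_assoc] using this

theorem q5_c (m : ℕ) : q5 m * TC m * (q5 m)⁻¹ = TB (m + 1) := by
  have := pr_eq (r := 2) (u := P [A 0, A 0, B 0, C 0, B 1, Sy.P 1] ++ P [C 0])
    (v := P [B 1] ++ P [A 0, A 0, B 0, C 0, B 1, Sy.P 1])
    (by decide +kernel) m
  simp only [pr_append, pr_iv, pr_P_cons, pr_P_nil, aut_A, aut_B, aut_C, aut_P, mul_one,
    add_zero] at this
  rw [mul_inv_eq_iff_eq_mul, q5]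
  simpa only [mul_assoc] using this

/-- the sequence of elements -/
def tow (f0 : MulAut F) (q : ℕ → MulAut F) : ℕ → MulAut F
  | 0 => f0
  | j + 1 => q j * (tow f0 q j)⁻¹

theorem tower4 (f0 : MulAut F) (h : ℕ) (hm : f0 ∈ MM h) (hp : f0 ^ 4 = TD h) :
    Tower h 1 4 (fun j => q4 (h + j)) (tow f0 (fun j => q4 (h + j))) where
  succ _ := rfl
  zero_mem := hm
  q_mem j := by simpa [add_assoc] using q4_mem (h + j)
  comm j x hx := q4_comm (h + j) (by simpa using hx)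
  zero_pow := hp
  q_pow j := by simpa [q4, add_assoc] using piece4_id (h + j)

theorem tower5 (f0 : MulAut F) (h : ℕ) (hm : f0 ∈ MM h) (hp : f0 ^ 5 = TD h) :
    Tower h 2 5 (fun j => q5 (h + 2 * j)) (tow f0 (fun j => q5 (h + 2 * j))) where
  succ _ := rfl
  zero_mem := hm
  q_mem j := by
    have e : h + 2 * (j + 1) = h + 2 * j + 2 := by ring
    rw [e]; exact q5_mem _
  comm j x hx := q5_comm (h + 2 * j) hx
  zero_pow := hp
  q_pow j := by
    have e : h + 2 * (j + 1) = h + 2 * j + 2 := by ring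
    rw [e]; exact piece5_id (h + 2 * j)

/-- the first base element, order four -/
def f40 : MulAut F := (pr 0 (P ch3)) ^ 2
/-- the first base element, order five -/
def f50 : MulAut F := (pr 0 (P ch4)) ^ 2
/-- the second base element, order five -/
def f51 : MulAut F := (pr 0 rot5)⁻¹

theorem f40_pow : f40 ^ 4 = TD 3 := by
  rw [f40, ← pow_mul]; exact base3_id
theorem f50_pow : f50 ^ 5 = TD 4 := by
  rw [f50, ← pow_mul]; exact base4_id
theorem f51_pow : f51 ^ 5 = TD 5 := by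
  rw [f51, inv_pow, base5_id, inv_inv]

theorem pr_ch3_mem : pr 0 (P ch3) ∈ MM 3 := by
  simp only [ch3, pr_P_cons, pr_P_nil, aut_A, aut_B, aut_C, mul_one, zero_add]
  refine mul_mem ?_ (mul_mem ?_ (mul_mem ?_ (mul_mem ?_ (mul_mem ?_ (mul_mem ?_ ?_)))))
  · exact A_mem (by omega)
  · exact B_mem (by omega)
  · exact C_mem (by omega)
  · exact B_mem (by omega)
  · exact C_mem (by omega)
  · exact B_mem (by omega)
  · exact A_mem (by omega)

theorem pr_ch4_mem : pr 0 (P ch4) ∈ MM 4 := by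
  simp only [ch4, pr_P_cons, pr_P_nil, aut_A, aut_B, aut_C, mul_one, zero_add]
  refine mul_mem ?_ (mul_mem ?_ (mul_mem ?_ (mul_mem ?_ (mul_mem ?_ (mul_mem ?_ (mul_mem ?_
    (mul_mem ?_ ?_)))))))
  · exact A_mem (by omega)
  · exact B_mem (by omega)
  · exact C_mem (by omega)
  · exact B_mem (by omega)
  · exact C_mem (by omega)
  · exact B_mem (by omega)
  · exact C_mem (by omega)
  · exact B_mem (by omega)
  · exact A_mem (by omega)

theorem TS_mem (m : ℕ) : TS m ∈ MM (m + 2) := by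
  have hA0 : TA m ∈ MM (m + 2) := A_mem (by omega)
  have hA1 : TA (m + 1) ∈ MM (m + 2) := A_mem (by omega)
  have hB0 : TB m ∈ MM (m + 2) := B_mem (by omega)
  have hB1 : TB (m + 1) ∈ MM (m + 2) := B_mem (by omega)
  have hC0 : TC m ∈ MM (m + 2) := C_mem (by omega)
  have hh : pr m (P halfw) ∈ MM (m + 2) := by
    simp only [halfw, pr_P_cons, pr_P_nil, aut_A, aut_B, aut_C, mul_one, add_zero]
    exact mul_mem hA0 (mul_mem hB0 (mul_mem hA0 (mul_mem hC0 (mul_mem hB0 (mul_mem hA0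
      (mul_mem hB1 (mul_mem hC0 (mul_mem hB0 (mul_mem hA0 (mul_mem hA1 (mul_mem hB1
      (mul_mem hC0 (mul_mem hB0 hA0)))))))))))))
  rw [swap_id]
  exact mul_mem (mul_mem (inv_mem hh) (pow_mem (mul_mem hA0 hB0) 3))
    (pow_mem (mul_mem hA1 hB1) 3)

theorem pr_rot5_mem : pr 0 rot5 ∈ MM 5 := by
  have h1 : pr 0 (iv (pw 6 (P [A 0, B 0]))) ∈ MM 5 := by
    rw [pr_iv, pr_pw, pr_P_cons, pr_P_cons, pr_P_nil, aut_A, aut_B, mul_one]
    exact inv_mem (pow_mem (mul_mem (A_mem (by omega)) (B_mem (by omega))) 6)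
  have h2 : pr 0 (P [S 0, S 1, S 2, S 3]) ∈ MM 5 := by
    simp only [pr_P_cons, pr_P_nil, aut_S, mul_one, zero_add]
    exact mul_mem (MM_le (by omega) (TS_mem 0)) (mul_mem (MM_le (by omega) (TS_mem 1))
      (mul_mem (MM_le (by omega) (TS_mem 2)) (TS_mem 3)))
  rw [rot5, pr_append]
  exact mul_mem h1 h2

theorem f40_mem : f40 ∈ MM 3 := pow_mem pr_ch3_mem 2
theorem f50_mem : f50 ∈ MM 4 := pow_mem pr_ch4_mem 2
theorem f51_mem : f51 ∈ MM 5 := inv_mem pr_rot5_mem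

/-! ### action of the base elements -/

theorem chk_conj {r : ℕ} {u : List (Sy × Bool)} {y z : Sy}
    (h : chk r (u ++ P [y]) (P [z] ++ u) = true) :
    pr 0 u * aut 0 y * (pr 0 u)⁻¹ = aut 0 z := by
  have := pr_eq h 0
  simp only [pr_append, pr_P_cons, pr_P_nil, mul_one] at this
  rw [mul_inv_eq_iff_eq_mul]; exact this

theorem f40_eq : f40 = pr 0 (pw 2 (P ch3)) := by rw [pr_pw, f40]
theorem f50_eq : f50 = pr 0 (pw 2 (P ch4)) := by rw [pr_pw, f50]

theorem f40_conj : f40 * TA 0 * f40⁻¹ = TC 0 ∧ f40 * TC 0 * f40⁻¹ = TC 1 ∧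
    f40 * TC 1 * f40⁻¹ = TA 2 ∧ f40 * TB 0 * f40⁻¹ = TB 1 ∧ f40 * TB 1 * f40⁻¹ = TB 2 := by
  rw [f40_eq]
  exact ⟨chk_conj (r := 3) (by decide +kernel), chk_conj (r := 3) (by decide +kernel),
    chk_conj (r := 3) (by decide +kernel), chk_conj (r := 3) (by decide +kernel),
    chk_conj (r := 3) (by decide +kernel)⟩

theorem f50_conj : f50 * TA 0 * f50⁻¹ = TC 0 ∧ f50 * TC 0 * f50⁻¹ = TC 1 ∧
    f50 * TC 1 * f50⁻¹ = TC 2 ∧ f50 * TB 0 * f50⁻¹ = TB 1 ∧ f50 * TB 1 * f50⁻¹ = TB 2 ∧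
    f50 * TB 2 * f50⁻¹ = TB 3 := by
  rw [f50_eq]
  exact ⟨chk_conj (r := 4) (by decide +kernel), chk_conj (r := 4) (by decide +kernel),
    chk_conj (r := 4) (by decide +kernel), chk_conj (r := 4) (by decide +kernel),
    chk_conj (r := 4) (by decide +kernel), chk_conj (r := 4) (by decide +kernel)⟩

theorem rot5_conj : (∀ i < 4, pr 0 rot5 * TA i * (pr 0 rot5)⁻¹ = TA (i + 1)) ∧
    (∀ i < 4, pr 0 rot5 * TB i * (pr 0 rot5)⁻¹ = TB (i + 1)) ∧
    (∀ i < 3, pr 0 rot5 * TC i * (pr 0 rot5)⁻¹ = TC (i + 1)) := by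
  refine ⟨fun i hi => ?_, fun i hi => ?_, fun i hi => ?_⟩
  · interval_cases i <;> exact chk_conj (r := 5) (by decide +kernel)
  · interval_cases i <;> exact chk_conj (r := 5) (by decide +kernel)
  · interval_cases i <;> exact chk_conj (r := 5) (by decide +kernel)

end Pool.Agent.Lib.MP_24877f_gt_h61
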