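import Pool.Agent.Lib.MP_24877f_gt_h61.Defs
import Pool.Agent.Lib.MP_24877f_gt_h61.Tower

set_option autoImplicit false

/-!
# Descent to the surface group (MP_24877f_gt)
-/

namespace Pool.Agent.Lib.MP_24877f_gt_h61

/-- the projection -/
def pj (g : ℕ) : F →* SurfaceGroup g :=
  FreeGroup.lift (fun q => if h : q.1 < g then PresentedGroup.of (⟨q.1, h⟩, q.2) else 1)

theorem pj_of_lt {g : ℕ} {q : ℕ × Bool} (h : q.1 < g) :
    pj g (FreeGroup.of q) = PresentedGroup.of (⟨q.1, h⟩, q.2) := by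
  have : pj g (FreeGroup.of q) =
    if h : q.1 < g then PresentedGroup.of (⟨q.1, h⟩, q.2) else 1 := FreeGroup.lift_apply_of
  rw [this, dif_pos h]

theorem pj_of_ge {g : ℕ} {q : ℕ × Bool} (h : g ≤ q.1) : pj g (FreeGroup.of q) = 1 := by
  have : pj g (FreeGroup.of q) =
    if h : q.1 < g then PresentedGroup.of (⟨q.1, h⟩, q.2) else 1 := FreeGroup.lift_apply_of
  rw [this, dif_neg (by omega)]

/-- the inclusion of the free group of rank `2 g` -/
def jj (g : ℕ) : FreeGroup (Fin g × Bool) →* F :=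
  FreeGroup.lift (fun x => FreeGroup.of ((x.1 : ℕ), x.2))

theorem jj_of {g : ℕ} (x : Fin g × Bool) : jj g (FreeGroup.of x) = FreeGroup.of ((x.1 : ℕ), x.2) :=
  FreeGroup.lift_apply_of

theorem ofFn_kap (g : ℕ) : (List.ofFn fun i : Fin g => kap i).prod = R g := by
  induction g with
  | zero => simp [R]
  | succ g ih =>
    rw [List.ofFn_succ']
    simp only [List.concat_eq_append, List.prod_append, List.prod_cons, List.prod_nil, mul_one]
    rw [R]
    congr 1

theorem jj_rel (g : ℕ) : jj g (surfaceRelator g) = R g := by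
  rw [surfaceRelator, map_list_prod, List.map_ofFn, ← ofFn_kap]
  congr 2

theorem pj_jj {g : ℕ} (x : FreeGroup (Fin g × Bool)) :
    pj g (jj g x) = PresentedGroup.mk _ x := by
  have : (pj g).comp (jj g) = PresentedGroup.mk _ := by
    apply FreeGroup.ext_hom
    rintro ⟨i, b⟩
    rw [MonoidHom.comp_apply, jj_of, pj_of_lt (q := ((i : ℕ), b)) i.2]
    rfl
  exact DFunLike.congr_fun this x

theorem pj_R (g : ℕ) : pj g (R g) = 1 := by
  rw [← jj_rel, pj_jj]
  exact PresentedGroup.one_of_mem rfl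

theorem pj_surj (g : ℕ) : Function.Surjective (pj g) := by
  intro y
  obtain ⟨x, rfl⟩ := PresentedGroup.mk_surjective _ y
  exact ⟨jj g x, pj_jj x⟩

/-- automorphisms which descend -/
def SS (g : ℕ) : Subgroup (MulAut F) where
  carrier := {φ | φ (R g) = R g ∧ ∀ q : ℕ × Bool, g ≤ q.1 → φ (FreeGroup.of q) = FreeGroup.of q}
  one_mem' := ⟨rfl, fun _ _ => rfl⟩
  mul_mem' := by
    rintro φ ψ ⟨h1, h2⟩ ⟨h3, h4⟩
    refine ⟨?_, fun q hq => ?_⟩
    · rw [MulAut.mul_apply, h3, h1]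
    · rw [MulAut.mul_apply, h4 q hq, h2 q hq]
  inv_mem' := by
    rintro φ ⟨h1, h2⟩
    refine ⟨?_, fun q hq => ?_⟩
    · have h3 := MulAut.inv_apply_self F φ (R g)
      rw [h1] at h3; exact h3
    · have h3 := MulAut.inv_apply_self F φ (FreeGroup.of q)
      rw [h2 q hq] at h3; exact h3

/-- the induced endomorphism -/
def EE {g : ℕ} (φ : SS g) : SurfaceGroup g →* SurfaceGroup g :=
  PresentedGroup.toGroup (f := fun x => pj g ((φ : MulAut F) (FreeGroup.of ((x.1 : ℕ), x.2)))) (by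
    intro r hr
    rw [Set.mem_singleton_iff] at hr
    subst hr
    have h1 : FreeGroup.lift
        (fun x : Fin g × Bool => pj g ((φ : MulAut F) (FreeGroup.of ((x.1 : ℕ), x.2)))) =
        ((pj g).comp ((φ : MulAut F) : F →* F)).comp (jj g) := by
      apply FreeGroup.ext_hom
      intro x
      rw [FreeGroup.lift_apply_of, MonoidHom.comp_apply, MonoidHom.comp_apply, jj_of]
      rfl
    rw [h1, MonoidHom.comp_apply, MonoidHom.comp_apply, jj_rel]
    change pj g ((φ : MulAut F) (R g)) = 1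
    rw [φ.2.1, pj_R])

theorem EE_pj {g : ℕ} (φ : SS g) (x : F) : EE φ (pj g x) = pj g ((φ : MulAut F) x) := by
  have h1 : (EE φ).comp (pj g) = (pj g).comp ((φ : MulAut F) : F →* F) := by
    apply FreeGroup.ext_hom
    intro q
    rw [MonoidHom.comp_apply, MonoidHom.comp_apply]
    change EE φ (pj g (FreeGroup.of q)) = pj g ((φ : MulAut F) (FreeGroup.of q))
    rcases Nat.lt_or_ge q.1 g with h | h
    · rw [pj_of_lt h]
      exact PresentedGroup.toGroup.of _
    · rw [pj_of_ge h, map_one, φ.2.2 q h, pj_of_ge h]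
  exact DFunLike.congr_fun h1 x

/-- the induced automorphism -/
def dsc (g : ℕ) : SS g →* MulAut (SurfaceGroup g) where
  toFun φ :=
    { toFun := EE φ
      invFun := EE φ⁻¹
      left_inv := by
        intro y
        obtain ⟨x, rfl⟩ := pj_surj g y
        rw [EE_pj, EE_pj]
        congr 1
        exact MulAut.inv_apply_self F (φ : MulAut F) x
      right_inv := by
        intro y
        obtain ⟨x, rfl⟩ := pj_surj g y
        rw [EE_pj, EE_pj]
        congr 1
        exact MulAut.apply_inv_self F (φ : MulAut F) x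
      map_mul' := map_mul _ }
  map_one' := by
    apply MulEquiv.ext
    intro y
    obtain ⟨x, rfl⟩ := pj_surj g y
    exact EE_pj 1 x
  map_mul' φ ψ := by
    apply MulEquiv.ext
    intro y
    obtain ⟨x, rfl⟩ := pj_surj g y
    change EE (φ * ψ) (pj g x) = EE φ (EE ψ (pj g x))
    rw [EE_pj, EE_pj, EE_pj]
    rfl

theorem dsc_pj {g : ℕ} (φ : SS g) (x : F) : dsc g φ (pj g x) = pj g ((φ : MulAut F) x) :=
  EE_pj φ x

/-- the class in the outer automorphism group -/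
def Ph (g : ℕ) : SS g →* Out (SurfaceGroup g) := (QuotientGroup.mk' _).comp (dsc g)

theorem SS_A {g i : ℕ} (h : i < g) : TA i ∈ SS g := ⟨fixR_A i g, (low_A h).2⟩
theorem SS_B {g i : ℕ} (h : i < g) : TB i ∈ SS g := ⟨fixR_B i g, (low_B h).2⟩
theorem SS_C {g i : ℕ} (h : i + 1 < g) : TC i ∈ SS g := ⟨fixR_C i g (by omega), (low_C h).2⟩

theorem MM_SS (g : ℕ) : MM g ≤ SS g := by
  rw [MM, Subgroup.closure_le]
  rintro x (⟨i, hi, rfl | rfl⟩ | ⟨i, hi, rfl⟩)
  · exact SS_A hi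
  · exact SS_B hi
  · exact SS_C hi

theorem pj_al {g i : ℕ} (h : i < g) : pj g (al i) = genA ⟨i, h⟩ := pj_of_lt (q := (i, false)) h
theorem pj_be {g i : ℕ} (h : i < g) : pj g (be i) = genB ⟨i, h⟩ := pj_of_lt (q := (i, true)) h

theorem genA_eq {g : ℕ} (i : Fin g) : genA i = pj g (al i) := (pj_al i.2).symm
theorem genB_eq {g : ℕ} (i : Fin g) : genB i = pj g (be i) := (pj_be i.2).symm

theorem isTwistA_dsc {g : ℕ} (i : Fin g) : IsTwistA (dsc g ⟨TA i, SS_A i.2⟩) i := by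
  refine ⟨fun j => ?_, ?_, fun j hj => ?_⟩
  · rw [genA_eq, dsc_pj]
    congr 1
    change TA i (FreeGroup.of ((j : ℕ), false)) = _
    rw [TA_of, if_neg (by simp)]; rfl
  · rw [genB_eq, genA_eq, dsc_pj, ← map_inv, ← map_mul]
    congr 1
    change TA i (FreeGroup.of ((i : ℕ), true)) = _
    rw [TA_of, if_pos rfl]
  · rw [genB_eq, dsc_pj]
    congr 1
    change TA i (FreeGroup.of ((j : ℕ), true)) = _
    rw [TA_of, if_neg (by rw [Prod.mk.injEq]; intro h; exact hj (Fin.ext h.1))]; rfl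

theorem isTwistB_dsc {g : ℕ} (i : Fin g) : IsTwistB (dsc g ⟨TB i, SS_B i.2⟩) i := by
  refine ⟨fun j => ?_, ?_, fun j hj => ?_⟩
  · rw [genB_eq, dsc_pj]
    congr 1
    change TB i (FreeGroup.of ((j : ℕ), true)) = _
    rw [TB_of, if_neg (by simp)]; rfl
  · rw [genB_eq, genA_eq, dsc_pj, ← map_mul]
    congr 1
    change TB i (FreeGroup.of ((i : ℕ), false)) = _
    rw [TB_of, if_pos rfl]
  · rw [genA_eq, dsc_pj]
    congr 1
    change TB i (FreeGroup.of ((j : ℕ), false)) = _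
    rw [TB_of, if_neg (by rw [Prod.mk.injEq]; intro h; exact hj (Fin.ext h.1))]; rfl

theorem curveC_eq {g : ℕ} (i j : Fin g) (h : (j : ℕ) = i + 1) :
    curveC i j = pj g (gam i) := by
  rw [curveC, genA_eq, genB_eq, genA_eq, h, gam]
  simp only [map_mul, map_inv]

theorem isTwistC_dsc {g : ℕ} (i j : Fin g) (h : (j : ℕ) = i + 1) :
    IsTwistC (dsc g ⟨TC i, SS_C (by rw [← h]; exact j.2)⟩) i j := by
  refine ⟨h, ?_, ?_, ?_, ?_, fun l hl hl' => ⟨?_, ?_⟩⟩
  · rw [genA_eq, dsc_pj]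
    congr 1
    change TC i (FreeGroup.of ((i : ℕ), false)) = _
    rw [TC_of, if_neg (by simp), if_neg (by simp), if_neg (by simp)]; rfl
  · rw [genB_eq, curveC_eq i j h, dsc_pj, ← map_mul]
    congr 1
    change TC i (FreeGroup.of ((i : ℕ), true)) = _
    rw [TC_of, if_pos rfl]
  · rw [genA_eq, curveC_eq i j h, dsc_pj, ← map_inv, ← map_mul, ← map_mul]
    congr 1
    change TC i (FreeGroup.of ((j : ℕ), false)) = _
    rw [h, TC_of, if_neg (by simp), if_pos rfl]
  · rw [genB_eq, curveC_eq i j h, dsc_pj, ← map_inv, ← map_mul]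
    congr 1
    change TC i (FreeGroup.of ((j : ℕ), true)) = _
    rw [h, TC_of, if_neg (by simp), if_neg (by simp), if_pos rfl]
  · rw [genA_eq, dsc_pj]
    congr 1
    change TC i (FreeGroup.of ((l : ℕ), false)) = _
    rw [TC_of, if_neg (by simp), if_neg, if_neg (by simp)]; · rfl
    rw [Prod.mk.injEq]; intro h'; exact hl' (Fin.ext (by rw [h'.1, h]))
  · rw [genB_eq, dsc_pj]
    congr 1
    change TC i (FreeGroup.of ((l : ℕ), true)) = _
    rw [TC_of, if_neg, if_neg (by simp), if_neg]; · rfl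
    · rw [Prod.mk.injEq]; intro h'; exact hl' (Fin.ext (by rw [h'.1, h]))
    · rw [Prod.mk.injEq]; intro h'; exact hl (Fin.ext h'.1)

theorem aut_ext' {g : ℕ} {φ ψ : MulAut (SurfaceGroup g)} (hA : ∀ i, φ (genA i) = ψ (genA i))
    (hB : ∀ i, φ (genB i) = ψ (genB i)) : φ = ψ := by
  have key : (φ : SurfaceGroup g →* SurfaceGroup g) = (ψ : SurfaceGroup g →* SurfaceGroup g) := by
    apply PresentedGroup.ext
    rintro ⟨i, b⟩
    cases b
    · exact hA i
    · exact hB i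
  apply MulEquiv.ext
  intro x
  exact DFunLike.congr_fun key x

theorem twistA_unique {g : ℕ} {i : Fin g} {φ ψ : MulAut (SurfaceGroup g)} (h : IsTwistA φ i)
    (h' : IsTwistA ψ i) : φ = ψ := by
  apply aut_ext'
  · intro j; rw [h.1, h'.1]
  · intro j
    by_cases hj : j = i
    · subst hj; rw [h.2.1, h'.2.1]
    · rw [h.2.2 j hj, h'.2.2 j hj]

theorem twistB_unique {g : ℕ} {i : Fin g} {φ ψ : MulAut (SurfaceGroup g)} (h : IsTwistB φ i)
    (h' : IsTwistB ψ i) : φ = ψ := by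
  apply aut_ext'
  · intro j
    by_cases hj : j = i
    · subst hj; rw [h.2.1, h'.2.1]
    · rw [h.2.2 j hj, h'.2.2 j hj]
  · intro j; rw [h.1, h'.1]

theorem twistC_unique {g : ℕ} {i j : Fin g} {φ ψ : MulAut (SurfaceGroup g)} (h : IsTwistC φ i j)
    (h' : IsTwistC ψ i j) : φ = ψ := by
  apply aut_ext'
  · intro l
    by_cases hl : l = i
    · subst hl; rw [h.2.1, h'.2.1]
    · by_cases hl' : l = j
      · subst hl'; rw [h.2.2.2.1, h'.2.2.2.1]
      · rw [(h.2.2.2.2.2 l hl hl').1, (h'.2.2.2.2.2 l hl hl').1]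
  · intro l
    by_cases hl : l = i
    · subst hl; rw [h.2.2.1, h'.2.2.1]
    · by_cases hl' : l = j
      · subst hl'; rw [h.2.2.2.2.1, h'.2.2.2.2.1]
      · rw [(h.2.2.2.2.2 l hl hl').2, (h'.2.2.2.2.2 l hl hl').2]

/-- classes of elements of `MM g` lie in the mapping class group -/
theorem Ph_mem {g : ℕ} {x : MulAut F} (hx : x ∈ MM g) : Ph g ⟨x, MM_SS g hx⟩ ∈ MCG g := by
  have key : MM g ≤ ((MCG g).comap (Ph g)).map (SS g).subtype := by
    rw [MM, Subgroup.closure_le]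
    rintro x (⟨i, hi, rfl | rfl⟩ | ⟨i, hi, rfl⟩)
    · refine ⟨⟨TA i, SS_A hi⟩, ?_, rfl⟩
      exact Subgroup.subset_closure ⟨_, Or.inl ⟨⟨i, hi⟩, isTwistA_dsc ⟨i, hi⟩⟩, rfl⟩
    · refine ⟨⟨TB i, SS_B hi⟩, ?_, rfl⟩
      exact Subgroup.subset_closure ⟨_, Or.inr (Or.inl ⟨⟨i, hi⟩, isTwistB_dsc ⟨i, hi⟩⟩), rfl⟩
    · refine ⟨⟨TC i, SS_C hi⟩, ?_, rfl⟩
      exact Subgroup.subset_closure ⟨_, Or.inr (Or.inr ⟨⟨i, by omega⟩, ⟨i + 1, hi⟩,
        isTwistC_dsc ⟨i, by omega⟩ ⟨i + 1, hi⟩ rfl⟩), rfl⟩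
  obtain ⟨y, hy, hyx⟩ := key hx
  have : y = ⟨x, MM_SS g hx⟩ := Subtype.ext hyx
  rw [← this]; exact hy

/-- the group generated by some classes is everything as soon as all twists are generated
upstairs -/
theorem MCG_le {g : ℕ} (K : Subgroup (Out (SurfaceGroup g))) (G : Subgroup (MulAut F))
    (hG : G ≤ (K.comap (Ph g)).map (SS g).subtype) (hH : Has TA TB TC G g) : MCG g ≤ K := by
  rw [MCG, Subgroup.closure_le]
  rintro x ⟨φ, hφ, rfl⟩
  rcases hφ with ⟨i, hi⟩ | ⟨i, hi⟩ | ⟨i, j, hij⟩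
  · have : φ = dsc g ⟨TA i, SS_A i.2⟩ := twistA_unique hi (isTwistA_dsc i)
    subst this
    obtain ⟨y, hy, hyx⟩ := hG (hH.1 i i.2).1
    have e : y = ⟨TA i, SS_A i.2⟩ := Subtype.ext hyx
    rw [e] at hy; exact hy
  · have : φ = dsc g ⟨TB i, SS_B i.2⟩ := twistB_unique hi (isTwistB_dsc i)
    subst this
    obtain ⟨y, hy, hyx⟩ := hG (hH.1 i i.2).2
    have e : y = ⟨TB i, SS_B i.2⟩ := Subtype.ext hyx
    rw [e] at hy; exact hy
  · have h1 : (i : ℕ) + 1 < g := by rw [← hij.1]; exact j.2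
    have : φ = dsc g ⟨TC i, SS_C h1⟩ := twistC_unique hij (isTwistC_dsc i j hij.1)
    subst this
    obtain ⟨y, hy, hyx⟩ := hG (hH.2 i h1)
    have e : y = ⟨TC i, SS_C h1⟩ := Subtype.ext hyx
    rw [e] at hy; exact hy

theorem Ph_TD (g : ℕ) : Ph g ⟨TD g, MM_SS g (D_mem g)⟩ = 1 := by
  have : dsc g ⟨TD g, MM_SS g (D_mem g)⟩ = 1 := by
    apply aut_ext'
    · intro i
      rw [genA_eq, dsc_pj]
      change pj g (TD g (FreeGroup.of ((i : ℕ), false))) = _
      rw [TD_of, if_pos i.2, map_mul, map_mul, map_inv, pj_R]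
      simp [al]
    · intro i
      rw [genB_eq, dsc_pj]
      change pj g (TD g (FreeGroup.of ((i : ℕ), true))) = _
      rw [TD_of, if_pos i.2, map_mul, map_mul, map_inv, pj_R]
      simp [be]
  rw [Ph, MonoidHom.comp_apply, this, map_one]

/-- the homomorphism to the integers counting the generator `a_0` -/
def chi (g : ℕ) : SurfaceGroup g →* Multiplicative ℤ :=
  PresentedGroup.toGroup (f := fun x => if (x.1 : ℕ) = 0 ∧ x.2 = false
      then Multiplicative.ofAdd (1 : ℤ) else 1) (by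
    intro r hr
    rw [Set.mem_singleton_iff] at hr
    subst hr
    rw [surfaceRelator, map_list_prod, List.map_ofFn]
    apply List.prod_eq_one
    intro y hy
    rw [List.mem_ofFn] at hy
    obtain ⟨i, rfl⟩ := hy
    simp only [Function.comp_apply, map_mul, map_inv]
    rw [mul_comm (FreeGroup.lift _ (FreeGroup.of (i, false))), mul_inv_cancel_right,
      mul_inv_cancel])

/-- the twist about `a_0` is not equivalent to an automorphism fixing `b_0` -/
theorem Ph_ne {g : ℕ} (hg : 0 < g) {y : MulAut F} (hy : y ∈ SS g) (hyb : y (be 0) = be 0) :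
    Ph g ⟨TA 0, SS_A hg⟩ ≠ Ph g ⟨y, hy⟩ := by
  intro h
  rw [Ph, MonoidHom.comp_apply, MonoidHom.comp_apply, QuotientGroup.mk'_apply,
    QuotientGroup.mk'_apply, QuotientGroup.eq] at h
  obtain ⟨u, hu⟩ := h
  have h1 : (dsc g ⟨TA 0, SS_A hg⟩) (u * pj g (be 0) * u⁻¹) = pj g (be 0) := by
    have h2 : MulAut.conj u (pj g (be 0)) =
        ((dsc g ⟨TA 0, SS_A hg⟩)⁻¹ * dsc g ⟨y, hy⟩) (pj g (be 0)) := by rw [hu]
    rw [MulAut.conj_apply, MulAut.mul_apply, dsc_pj] at h2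
    rw [h2]
    change (dsc g ⟨TA 0, SS_A hg⟩) ((dsc g ⟨TA 0, SS_A hg⟩)⁻¹ (pj g (y (be 0)))) = _
    rw [hyb, MulAut.apply_inv_self]
  have h4 : (dsc g ⟨TA 0, SS_A hg⟩) (pj g (be 0)) = pj g (be 0) * (pj g (al 0))⁻¹ := by
    rw [dsc_pj, ← map_inv, ← map_mul]
    congr 1
  rw [map_mul, map_mul, map_inv, h4] at h1
  have h3 := congrArg (chi g) h1
  rw [map_mul, map_mul, map_mul, map_inv, map_inv] at h3
  have h5 : chi g (pj g (al 0)) = Multiplicative.ofAdd (1 : ℤ) := by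
    rw [pj_al hg]
    have : chi g (genA ⟨0, hg⟩) = if ((⟨0, hg⟩ : Fin g) : ℕ) = 0 ∧ false = false
      then Multiplicative.ofAdd (1 : ℤ) else 1 := PresentedGroup.toGroup.of _
    rw [this, if_pos ⟨rfl, rfl⟩]
  rw [h5] at h3
  have h6 : ∀ (a b c : Multiplicative ℤ), a * (b * (Multiplicative.ofAdd (1 : ℤ))⁻¹) * c⁻¹ = b →
      a = c → False := by
    intro a b c h7 h8
    subst h8
    have h9 : a * (b * (Multiplicative.ofAdd (1 : ℤ))⁻¹) * a⁻¹ =
        b * (Multiplicative.ofAdd (1 : ℤ))⁻¹ := by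
      rw [mul_comm a, mul_inv_cancel_right]
    rw [h9] at h7
    have h10 : (Multiplicative.ofAdd (1 : ℤ))⁻¹ = 1 := by
      have := congrArg (fun t => b⁻¹ * t) h7
      simpa using this
    rw [inv_eq_one, ← ofAdd_zero, Multiplicative.ofAdd.injective.eq_iff] at h10
    exact one_ne_zero h10
  exact h6 _ _ _ h3 rfl

end Pool.Agent.Lib.MP_24877f_gt_h61
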