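import Pool.Agent.Lib.MP_24877f_gt_h61.Desc

set_option autoImplicit false

/-!
# Assembly (MP_24877f_gt)
-/

namespace Pool.Agent.Lib.MP_24877f_gt_h61

/-- three elements of order `k` generating the mapping class group -/
def ThreeGen (g k : ℕ) : Prop :=
  ∃ x y z : Out (SurfaceGroup g), orderOf x = k ∧ orderOf y = k ∧ orderOf z = k ∧
    Subgroup.closure {x, y, z} = MCG g

theorem assemble {g k : ℕ} (f v w : MulAut F) (hf : f ∈ MM g) (hv : v ∈ MM g)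
    (hw : w ∈ MM g)
    (hgen : ∀ G : Subgroup (MulAut F), f ∈ G → v * f * v⁻¹ ∈ G → w * f * w⁻¹ ∈ G →
      Has TA TB TC G g)
    (hord : orderOf (Ph g ⟨f, MM_SS g hf⟩) = k) : ThreeGen g k := by
  set x := Ph g ⟨f, MM_SS g hf⟩ with hx
  set V := Ph g ⟨v, MM_SS g hv⟩ with hV
  set W := Ph g ⟨w, MM_SS g hw⟩ with hW
  have hxM : x ∈ MCG g := Ph_mem hf
  have hVM : V ∈ MCG g := Ph_mem hv
  have hWM : W ∈ MCG g := Ph_mem hw
  refine ⟨x, V * x * V⁻¹, W * x * W⁻¹, hord, ?_, ?_, ?_⟩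
  · rw [← hord]
    exact MulEquiv.orderOf_eq (MulAut.conj V) x
  · rw [← hord]
    exact MulEquiv.orderOf_eq (MulAut.conj W) x
  · apply le_antisymm
    · rw [Subgroup.closure_le]
      rintro y (rfl | rfl | rfl)
      · exact hxM
      · exact mul_mem (mul_mem hVM hxM) (inv_mem hVM)
      · exact mul_mem (mul_mem hWM hxM) (inv_mem hWM)
    · set K := Subgroup.closure {x, V * x * V⁻¹, W * x * W⁻¹} with hK
      refine MCG_le K (Subgroup.closure {f, v * f * v⁻¹, w * f * w⁻¹}) ?_ ?_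
      · rw [Subgroup.closure_le]
        rintro y (rfl | rfl | rfl)
        · refine ⟨⟨y, MM_SS g hf⟩, ?_, rfl⟩
          exact Subgroup.subset_closure (Or.inl rfl)
        · refine ⟨⟨v, MM_SS g hv⟩ * ⟨f, MM_SS g hf⟩ * ⟨v, MM_SS g hv⟩⁻¹, ?_, rfl⟩
          rw [SetLike.mem_coe, Subgroup.mem_comap, map_mul, map_mul, map_inv]
          exact Subgroup.subset_closure (Or.inr (Or.inl rfl))
        · refine ⟨⟨w, MM_SS g hw⟩ * ⟨f, MM_SS g hf⟩ * ⟨w, MM_SS g hw⟩⁻¹, ?_, rfl⟩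
          rw [SetLike.mem_coe, Subgroup.mem_comap, map_mul, map_mul, map_inv]
          exact Subgroup.subset_closure (Or.inr (Or.inr rfl))
      · exact hgen _ (Subgroup.subset_closure (Or.inl rfl))
          (Subgroup.subset_closure (Or.inr (Or.inl rfl)))
          (Subgroup.subset_closure (Or.inr (Or.inr rfl)))

theorem XX_mem {g : ℕ} (st : ℕ) : ∀ (n s : ℕ), s + st * n < g + st → 
    (∀ i, i < n → s + st * i + 1 < g) → XX TC st s n ∈ MM g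
  | 0, _, _, _ => one_mem _
  | n + 1, s, h0, h => by
    refine mul_mem (C_mem (by simpa using h 0 (by omega))) (XX_mem st n (s + st) ?_ ?_)
    · have e : st * (n + 1) = st * n + st := by ring
      omega
    · intro i hi
      have := h (i + 1) (by omega)
      have e : st * (i + 1) = st * i + st := by ring
      omega

theorem Ph_pow {g k : ℕ} {f : MulAut F} (hf : f ∈ MM g) (h : f ^ k = TD g) :
    (Ph g ⟨f, MM_SS g hf⟩) ^ k = 1 := by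
  rw [← map_pow]
  have e : (⟨f, MM_SS g hf⟩ : SS g) ^ k = ⟨TD g, MM_SS g (D_mem g)⟩ := Subtype.ext h
  rw [e, Ph_TD]

/-- if `f` (or its inverse) moves `TA 0` to a twist fixing `be 0`, its class is not trivial -/
theorem Ph_ne_one {g : ℕ} (hg : 0 < g) {f ψ y : MulAut F} (hf : f ∈ SS g)
    (hψ : ψ = f ∨ ψ = f⁻¹) (hy : y ∈ SS g) (hyb : y (be 0) = be 0)
    (h : ψ * TA 0 * ψ⁻¹ = y) : Ph g ⟨f, hf⟩ ≠ 1 := by
  intro h1
  have hψS : ψ ∈ SS g := mem_pm hf hψ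
  have hψ1 : Ph g ⟨ψ, hψS⟩ = 1 := by
    rcases hψ with rfl | rfl
    · exact h1
    · have e : (⟨f⁻¹, hψS⟩ : SS g) = (⟨f, hf⟩ : SS g)⁻¹ := rfl
      rw [e, map_inv, h1, inv_one]
  apply Ph_ne hg hy hyb
  have e : (⟨y, hy⟩ : SS g) = ⟨ψ, hψS⟩ * ⟨TA 0, SS_A hg⟩ * ⟨ψ, hψS⟩⁻¹ := Subtype.ext h.symm
  rw [e, map_mul, map_mul, map_inv, hψ1]
  simp

theorem TC1_be0 : TC 1 (be 0) = be 0 := by
  rw [be, TC_of, if_neg (by simp), if_neg (by simp), if_neg (by simp)]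

theorem TA1_be0 : TA 1 (be 0) = be 0 := by
  rw [be, TA_of, if_neg (by simp)]

/-- **order four** -/
theorem three4 (n : ℕ) : ThreeGen (3 + n) 4 := by
  have T := tower4 f40 3 f40_mem f40_pow
  set f := tow f40 (fun j => q4 (3 + j)) with hfdef
  have hf : f n ∈ MM (3 + n) := by simpa using T.mem n
  have hpow : (f n) ^ 4 = TD (3 + n) := by simpa using T.pow n
  obtain ⟨c1, c2, c3, c4, c5⟩ := f40_conj
  obtain ⟨ψ, hψ, hz⟩ := T.conj 0 n (by omega)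
  have hz' : ∀ z ∈ MM 3, ψ * z * ψ⁻¹ = f40 * z * f40⁻¹ := fun z hzm => hz z (by simpa using hzm)
  have g1 : ψ * TA 0 * ψ⁻¹ = TC 0 := by rw [hz' _ (A_mem (by omega)), c1]
  have g2 : ψ * TC 0 * ψ⁻¹ = TC 1 := by rw [hz' _ (C_mem (by omega)), c2]
  have g3 : ψ * TC 1 * ψ⁻¹ = TA 2 := by rw [hz' _ (C_mem (by omega)), c3]
  have g4 : ψ * TB 0 * ψ⁻¹ = TB 1 := by rw [hz' _ (B_mem (by omega)), c4]
  have g5 : ψ * TB 1 * ψ⁻¹ = TB 2 := by rw [hz' _ (B_mem (by omega)), c5]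
  refine assemble (f n) (TA 0) (TB 0 * TA 1 * XX TC 1 2 n) hf (A_mem (by omega))
    (mul_mem (mul_mem (B_mem (by omega)) (A_mem (by omega)))
      (XX_mem 1 n 2 (by omega) (fun i hi => by omega))) ?_ ?_
  · intro G h1 h2 h3
    refine gen4 rel_twists G (f n) n h1 h2 h3 ⟨ψ, hψ, g1, g2, g3, g4, g5⟩ ?_
    intro j hj
    obtain ⟨ψ', hψ', hz2⟩ := T.conj_piece j n hj
    refine ⟨ψ', hψ', ?_⟩
    rw [hz2 (TA (3 + j)) (A_mem (by omega)) (fun x hx => TA_comm (3 + j) (by simpa using hx))]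
    exact q4_a (3 + j)
  · have h4 : (Ph (3 + n) ⟨f n, MM_SS _ hf⟩) ^ 2 ^ (1 + 1) = 1 := Ph_pow hf hpow
    have h2 : ¬ (Ph (3 + n) ⟨f n, MM_SS _ hf⟩) ^ 2 ^ 1 = 1 := by
      have e : (Ph (3 + n) ⟨f n, MM_SS _ hf⟩) ^ 2 ^ 1 =
          Ph (3 + n) ⟨(f n) ^ 2, pow_mem (MM_SS _ hf) 2⟩ := by
        rw [pow_one, ← map_pow]; rfl
      rw [e]
      refine Ph_ne_one (by omega) (ψ := ψ ^ 2) (y := TC 1) _ ?_ (SS_C (by omega)) TC1_be0 ?_
      · rcases hψ with rfl | rfl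
        · exact Or.inl rfl
        · exact Or.inr (by rw [inv_pow])
      · rw [← g2, ← g1, pow_two]; group
    have := orderOf_eq_prime_pow h2 h4
    rw [this]; norm_num

/-- **order five, even genus** -/
theorem three5e (n : ℕ) : ThreeGen (4 + 2 * n) 5 := by
  have T := tower5 f50 4 f50_mem f50_pow
  set f := tow f50 (fun j => q5 (4 + 2 * j)) with hfdef
  have hf : f n ∈ MM (4 + 2 * n) := T.mem n
  have hpow : (f n) ^ 5 = TD (4 + 2 * n) := T.pow n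
  obtain ⟨c1, c2, c3, c4, c5, c6⟩ := f50_conj
  obtain ⟨ψ, hψ, hz⟩ := T.conj 0 n (by omega)
  have hz' : ∀ z ∈ MM 4, ψ * z * ψ⁻¹ = f50 * z * f50⁻¹ := fun z hzm => hz z (by simpa using hzm)
  have g1 : ψ * TA 0 * ψ⁻¹ = TC 0 := by rw [hz' _ (A_mem (by omega)), c1]
  have g2 : ψ * TC 0 * ψ⁻¹ = TC 1 := by rw [hz' _ (C_mem (by omega)), c2]
  have g3 : ψ * TC 1 * ψ⁻¹ = TC 2 := by rw [hz' _ (C_mem (by omega)), c3]
  have g4 : ψ * TB 0 * ψ⁻¹ = TB 1 := by rw [hz' _ (B_mem (by omega)), c4]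
  have g5 : ψ * TB 1 * ψ⁻¹ = TB 2 := by rw [hz' _ (B_mem (by omega)), c5]
  have g6 : ψ * TB 2 * ψ⁻¹ = TB 3 := by rw [hz' _ (B_mem (by omega)), c6]
  refine assemble (f n) (TA 0) (TB 0 * TA 1 * XX TC 2 3 n) hf (A_mem (by omega))
    (mul_mem (mul_mem (B_mem (by omega)) (A_mem (by omega)))
      (XX_mem 2 n 3 (by omega) (fun i hi => by omega))) ?_ ?_
  · intro G h1 h2 h3
    refine gen5e rel_twists G (f n) n h1 h2 h3 ⟨ψ, hψ, g1, g2, g3, g4, g5, g6⟩ ?_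
    intro j hj
    obtain ⟨ψ', hψ', hz2⟩ := T.conj_piece j n hj
    refine ⟨ψ', hψ', ?_, ?_, ?_⟩
    · rw [hz2 (TA (4 + 2 * j)) (A_mem (by omega)) (fun x hx => TA_comm _ hx)]
      exact q5_a _
    · rw [hz2 (TB (4 + 2 * j)) (B_mem (by omega)) (fun x hx => TB_comm _ hx)]
      exact q5_b _
    · rw [hz2 (TC (4 + 2 * j)) (C_mem (by omega)) (fun x hx => TC_comm _ hx)]
      exact q5_c _
  · haveI : Fact (Nat.Prime 5) := ⟨by norm_num⟩
    refine orderOf_eq_prime (Ph_pow hf hpow) ?_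
    intro h
    have hne := Ph_ne_one (g := 4 + 2 * n) (by omega) (f := (f n) ^ 2) (ψ := ψ ^ 2) (y := TC 1)
      (pow_mem (MM_SS _ hf) 2) ?_ (SS_C (by omega)) TC1_be0 ?_
    · apply hne
      have e : (⟨(f n) ^ 2, pow_mem (MM_SS _ hf) 2⟩ : SS (4 + 2 * n)) =
        (⟨f n, MM_SS _ hf⟩ : SS (4 + 2 * n)) ^ 2 := rfl
      rw [e, map_pow, h, one_pow]
    · rcases hψ with rfl | rfl
      · exact Or.inl rfl
      · exact Or.inr (by rw [inv_pow])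
    · rw [← g2, ← g1, pow_two]; group

/-- **order five, odd genus** -/
theorem three5o (n : ℕ) : ThreeGen (5 + 2 * n) 5 := by
  have T := tower5 f51 5 f51_mem f51_pow
  set f := tow f51 (fun j => q5 (5 + 2 * j)) with hfdef
  have hf : f n ∈ MM (5 + 2 * n) := T.mem n
  have hpow : (f n) ^ 5 = TD (5 + 2 * n) := T.pow n
  obtain ⟨c1, c2, c3⟩ := rot5_conj
  obtain ⟨ψ, hψ, hz⟩ := T.conj 0 n (by omega)
  -- the rotation is the inverse of the base element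
  have hzr : ∀ z ∈ MM 5, ψ⁻¹ * z * ψ⁻¹⁻¹ = pr 0 rot5 * z * (pr 0 rot5)⁻¹ := by
    intro z hzm
    have hz1 : pr 0 rot5 * z * (pr 0 rot5)⁻¹ ∈ MM 5 :=
      mul_mem (mul_mem pr_rot5_mem hzm) (inv_mem pr_rot5_mem)
    have := hz _ (by simpa using hz1)
    have e0 : tow f51 (fun j => q5 (5 + 2 * j)) 0 = (pr 0 rot5)⁻¹ := rfl
    rw [hfdef, e0] at this
    have e1 : (pr 0 rot5)⁻¹ * (pr 0 rot5 * z * (pr 0 rot5)⁻¹) * (pr 0 rot5)⁻¹⁻¹ = z := by group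
    rw [e1] at this
    calc ψ⁻¹ * z * ψ⁻¹⁻¹ = ψ⁻¹ * (ψ * (pr 0 rot5 * z * (pr 0 rot5)⁻¹) * ψ⁻¹) * ψ := by
          rw [this, inv_inv]
      _ = _ := by group
  have hψ' : ψ⁻¹ = f n ∨ ψ⁻¹ = (f n)⁻¹ := by
    rcases hψ with rfl | rfl
    · exact Or.inr rfl
    · exact Or.inl (inv_inv _)
  have g1 : ∀ i < 4, ψ⁻¹ * TA i * ψ⁻¹⁻¹ = TA (i + 1) := fun i hi => by
    rw [hzr _ (A_mem (by omega)), c1 i hi]
  have g2 : ∀ i < 4, ψ⁻¹ * TB i * ψ⁻¹⁻¹ = TB (i + 1) := fun i hi => by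
    rw [hzr _ (B_mem (by omega)), c2 i hi]
  have g3 : ∀ i < 3, ψ⁻¹ * TC i * ψ⁻¹⁻¹ = TC (i + 1) := fun i hi => by
    rw [hzr _ (C_mem (by omega)), c3 i hi]
  refine assemble (f n) (TA 0) (TB 0 * TC 0 * XX TC 2 4 n) hf (A_mem (by omega))
    (mul_mem (mul_mem (B_mem (by omega)) (C_mem (by omega)))
      (XX_mem 2 n 4 (by omega) (fun i hi => by omega))) ?_ ?_
  · intro G h1 h2 h3
    refine gen5o rel_twists G (f n) n h1 h2 h3 ⟨ψ⁻¹, hψ', g1, g2, g3⟩ ?_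
    intro j hj
    obtain ⟨ψ', hψ', hz2⟩ := T.conj_piece j n hj
    refine ⟨ψ', hψ', ?_, ?_, ?_⟩
    · rw [hz2 (TA (5 + 2 * j)) (A_mem (by omega)) (fun x hx => TA_comm _ hx)]
      exact q5_a _
    · rw [hz2 (TB (5 + 2 * j)) (B_mem (by omega)) (fun x hx => TB_comm _ hx)]
      exact q5_b _
    · rw [hz2 (TC (5 + 2 * j)) (C_mem (by omega)) (fun x hx => TC_comm _ hx)]
      exact q5_c _
  · haveI : Fact (Nat.Prime 5) := ⟨by norm_num⟩
    exact orderOf_eq_prime (Ph_pow hf hpow)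
      (Ph_ne_one (by omega) (MM_SS _ hf) hψ' (SS_A (by omega)) TA1_be0 (g1 0 (by omega)))

end Pool.Agent.Lib.MP_24877f_gt_h61
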