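import Mathlib

set_option autoImplicit false

/-!
# The generation argument in an abstract group (MP_24877f_gt)
-/

namespace Pool.Agent.Lib.MP_24877f_gt_h61

variable {Γ : Type*} [Group Γ]

/-- the relations between the twists used in the argument -/
structure Rel (a b c : ℕ → Γ) : Prop where
  aa : ∀ i j, Commute (a i) (a j)
  bb : ∀ i j, Commute (b i) (b j)
  cc : ∀ i j, Commute (c i) (c j)
  ab : ∀ i j, i ≠ j → Commute (a i) (b j)
  ac : ∀ i j, Commute (a i) (c j)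
  bc : ∀ i j, i ≠ j → i ≠ j + 1 → Commute (b i) (c j)
  brab : ∀ i, a i * b i * a i = b i * a i * b i
  brbc : ∀ i, b i * c i * b i = c i * b i * c i
  brcb : ∀ i, b (i + 1) * c i * b (i + 1) = c i * b (i + 1) * c i
  star : ∀ i, (c i * c (i + 1) * a (i + 1) * b (i + 1)) ^ 3 =
    a i * a (i + 2) * ((c i * b (i + 1) * c (i + 1)) ^ 4 *
      ((a i * b i * c i * b (i + 1) * c (i + 1)) ^ 2 * (a (i + 1))⁻¹ *
        ((a i * b i * c i * b (i + 1) * c (i + 1)) ^ 2)⁻¹))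

/-- agreement modulo a subgroup, on both sides -/
def Eqv (G : Subgroup Γ) (x y : Γ) : Prop := x * y⁻¹ ∈ G ∧ x⁻¹ * y ∈ G

namespace Eqv
variable {G : Subgroup Γ}

theorem symm {x y : Γ} (h : Eqv G x y) : Eqv G y x :=
  ⟨by simpa using G.inv_mem h.1, by simpa using G.inv_mem h.2⟩

theorem trans {x y z : Γ} (h : Eqv G x y) (h' : Eqv G y z) : Eqv G x z :=
  ⟨by simpa [mul_assoc] using G.mul_mem h.1 h'.1, by simpa [mul_assoc] using G.mul_mem h.2 h'.2⟩

theorem conj {x y u x' y' : Γ} (h : Eqv G x y) (hu : u ∈ G) (hx : u * x * u⁻¹ = x')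
    (hy : u * y * u⁻¹ = y') : Eqv G x' y' := by
  subst hx hy
  constructor
  · have := G.mul_mem (G.mul_mem hu h.1) (G.inv_mem hu)
    have e : u * x * u⁻¹ * (u * y * u⁻¹)⁻¹ = u * (x * y⁻¹) * u⁻¹ := by group
    rw [e]; exact this
  · have := G.mul_mem (G.mul_mem hu h.2) (G.inv_mem hu)
    have e : (u * x * u⁻¹)⁻¹ * (u * y * u⁻¹) = u * (x⁻¹ * y) * u⁻¹ := by group
    rw [e]; exact this

theorem of_comm {x y : Γ} (hc : Commute x y) (h : x * y⁻¹ ∈ G) : Eqv G x y := by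
  refine ⟨h, ?_⟩
  have e : x⁻¹ * y = (x * y⁻¹)⁻¹ := by
    rw [mul_inv_rev, inv_inv]
    exact (hc.inv_left.eq)
  rw [e]; exact G.inv_mem h

/-- extraction of a letter -/
theorem extract {x z p : Γ} (hbr : x * z * x = z * x * z) (hx : Commute p x) (hz : Commute p z)
    (h : Eqv G z p) (hm : x * z * x⁻¹ * p⁻¹ ∈ G) : Eqv G x z := by
  have h1 : x * z * x⁻¹ * z⁻¹ ∈ G := by
    have := G.mul_mem hm h.symm.1
    have e : x * z * x⁻¹ * z⁻¹ = x * z * x⁻¹ * p⁻¹ * (p * z⁻¹) := by group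
    rw [e]; exact this
  have h2 : x * z * x⁻¹ * z⁻¹ = z⁻¹ * x := by
    have : x * z * x⁻¹ = z⁻¹ * x * z := by
      rw [mul_inv_eq_iff_eq_mul, mul_assoc, mul_assoc, eq_inv_mul_iff_mul_eq, ← mul_assoc,
        ← mul_assoc, hbr, mul_assoc]
    rw [this]; group
  have h3 : z⁻¹ * x ∈ G := h2 ▸ h1
  have h4 : x * z⁻¹ ∈ G := by
    have := G.mul_mem (G.mul_mem h.1 h3) (G.inv_mem h.1)
    have e : z * p⁻¹ * (z⁻¹ * x) * (z * p⁻¹)⁻¹ = x * z⁻¹ := by
      have e1 : p⁻¹ * (z⁻¹ * x) = (z⁻¹ * x) * p⁻¹ :=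
        ((hz.inv_left.inv_right).mul_right (hx.inv_left)).eq
      calc z * p⁻¹ * (z⁻¹ * x) * (z * p⁻¹)⁻¹ = z * (p⁻¹ * (z⁻¹ * x)) * (p * z⁻¹) := by group
        _ = z * ((z⁻¹ * x) * p⁻¹) * (p * z⁻¹) := by rw [e1]
        _ = x * z⁻¹ := by group
    rw [← e]; exact this
  exact ⟨h4, by simpa using G.inv_mem h3⟩

end Eqv

theorem conj_comm {x u : Γ} (h : Commute u x) : u * x * u⁻¹ = x := by
  rw [h.eq, mul_inv_cancel_right]

/-- `b c b = c b c` gives `c b c⁻¹ = b⁻¹ c b` -/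
theorem br_conj {b c : Γ} (h : b * c * b = c * b * c) : c * b * c⁻¹ = b⁻¹ * c * b := by
  rw [mul_inv_eq_iff_eq_mul, mul_assoc, mul_assoc, eq_inv_mul_iff_mul_eq, ← mul_assoc,
    ← mul_assoc, ← h, mul_assoc]

theorem br_conj' {b c : Γ} (h : b * c * b = c * b * c) : b * c * b * c⁻¹ * b⁻¹ = c := by
  rw [h]; group

/-! ### the perfectness step -/

section perfect
variable {a b c : ℕ → Γ}

/-- the letters used -/
def letters (a b c : ℕ → Γ) : Set Γ := {a 0, b 0, c 0, b 1, c 1, b 2, a 1}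

theorem perfect_step (hR : Rel a b c) (G : Subgroup Γ)
    (hG : ∀ x ∈ letters a b c, x * (a 0)⁻¹ ∈ G) :
    (∀ x ∈ letters a b c, x ∈ G) ∧ a 2 ∈ G := by
  classical
  set t := a 0 with ht
  let D : Subgroup Γ := Subgroup.closure ((fun x => x * t⁻¹) '' letters a b c)
  have hDG : D ≤ G := by
    rw [Subgroup.closure_le]
    rintro _ ⟨x, hx, rfl⟩
    exact hG x hx
  have hD : ∀ x ∈ letters a b c, x * t⁻¹ ∈ D := fun x hx =>
    Subgroup.subset_closure ⟨x, hx, rfl⟩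
  -- `t` normalises `D`
  have hgen : ∀ x ∈ letters a b c, t * (x * t⁻¹) * t⁻¹ ∈ D ∧ t⁻¹ * (x * t⁻¹) * t ∈ D := by
    intro x hx
    by_cases hxb : x = b 0
    · have hm : b 1 * t⁻¹ ∈ D := hD _ (by simp [letters])
      have hb0 : b 0 * t⁻¹ ∈ D := hD _ (by simp [letters])
      have c1 : Commute (b 1) t := (hR.ab 0 1 (by omega)).symm
      have c2 : Commute (b 1) (b 0) := hR.bb 1 0
      subst hxb
      constructor
      · have e : t * (b 0 * t⁻¹) * t⁻¹ = (b 1 * t⁻¹)⁻¹ * (b 0 * t⁻¹) * (b 1 * t⁻¹) := by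
          have e1 : (b 1)⁻¹ * (b 0 * t⁻¹) = (b 0 * t⁻¹) * (b 1)⁻¹ :=
            (c2.inv_left.mul_right (c1.inv_left.inv_right)).eq
          calc t * (b 0 * t⁻¹) * t⁻¹ = t * ((b 0 * t⁻¹) * (b 1)⁻¹) * (b 1) * t⁻¹ := by group
            _ = t * ((b 1)⁻¹ * (b 0 * t⁻¹)) * (b 1) * t⁻¹ := by rw [e1]
            _ = (b 1 * t⁻¹)⁻¹ * (b 0 * t⁻¹) * (b 1 * t⁻¹) := by group
        rw [e]
        exact D.mul_mem (D.mul_mem (D.inv_mem hm) hb0) hm
      · have e : t⁻¹ * (b 0 * t⁻¹) * t = (b 1 * t⁻¹) * (b 0 * t⁻¹) * (b 1 * t⁻¹)⁻¹ := by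
          have e1 : (b 1) * (t⁻¹ * (b 0 * t⁻¹)) = (t⁻¹ * (b 0 * t⁻¹)) * (b 1) :=
            (c1.inv_right.mul_right (c2.mul_right c1.inv_right)).eq
          calc t⁻¹ * (b 0 * t⁻¹) * t = (t⁻¹ * (b 0 * t⁻¹)) * (b 1) * (b 1)⁻¹ * t := by group
            _ = (b 1) * (t⁻¹ * (b 0 * t⁻¹)) * (b 1)⁻¹ * t := by rw [e1]
            _ = (b 1 * t⁻¹) * (b 0 * t⁻¹) * (b 1 * t⁻¹)⁻¹ := by
              rw [mul_inv_rev, inv_inv, ← mul_assoc, ← mul_assoc, ← mul_assoc, mul_assoc (_ * t⁻¹) t,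
                ← c1.inv_left.eq, ← mul_assoc]
        rw [e]
        exact D.mul_mem (D.mul_mem hm hb0) (D.inv_mem hm)
    · have hc : Commute t x := by
        simp only [letters, Set.mem_insert_iff, Set.mem_singleton_iff] at hx
        rcases hx with rfl | rfl | rfl | rfl | rfl | rfl | rfl
        · exact Commute.refl _
        · exact absurd rfl hxb
        · exact hR.ac 0 0
        · exact hR.ab 0 1 (by omega)
        · exact hR.ac 0 1
        · exact hR.ab 0 2 (by omega)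
        · exact hR.aa 0 1
      have hc2 : Commute t (x * t⁻¹) := hc.mul_right (Commute.refl t).inv_right
      constructor
      · rw [hc2.eq, mul_inv_cancel_right]
        exact hD x hx
      · rw [hc2.inv_left.eq, mul_assoc, inv_mul_cancel, mul_one]
        exact hD x hx
  have hnorm : ∀ d ∈ D, t * d * t⁻¹ ∈ D ∧ t⁻¹ * d * t ∈ D := by
    intro d hd
    induction hd using Subgroup.closure_induction with
    | mem x hx =>
      obtain ⟨y, hy, rfl⟩ := hx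
      exact hgen y hy
    | one => simp [D.one_mem]
    | mul x y _ _ hx hy =>
      constructor
      · have e : t * (x * y) * t⁻¹ = (t * x * t⁻¹) * (t * y * t⁻¹) := by group
        rw [e]; exact D.mul_mem hx.1 hy.1
      · have e : t⁻¹ * (x * y) * t = (t⁻¹ * x * t) * (t⁻¹ * y * t) := by group
        rw [e]; exact D.mul_mem hx.2 hy.2
    | inv x _ hx =>
      constructor
      · have e : t * x⁻¹ * t⁻¹ = (t * x * t⁻¹)⁻¹ := by group
        rw [e]; exact D.inv_mem hx.1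
      · have e : t⁻¹ * x⁻¹ * t = (t⁻¹ * x * t)⁻¹ := by group
        rw [e]; exact D.inv_mem hx.2
  have hnz : ∀ (n : ℤ), ∀ d ∈ D, t ^ n * d * t ^ (-n) ∈ D := by
    intro n
    induction n using Int.induction_on with
    | zero => intro d hd; simpa using hd
    | succ n ih =>
      intro d hd
      have := (hnorm _ (ih d hd)).1
      have e : t ^ ((n : ℤ) + 1) * d * t ^ (-((n : ℤ) + 1)) =
          t * (t ^ (n : ℤ) * d * t ^ (-(n : ℤ))) * t⁻¹ := by group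
      rw [e]; exact this
    | pred n ih =>
      intro d hd
      have := (hnorm _ (ih d hd)).2
      have e : t ^ (-(n : ℤ) - 1) * d * t ^ (-(-(n : ℤ) - 1)) =
          t⁻¹ * (t ^ (-(n : ℤ)) * d * t ^ (-(-(n : ℤ)))) * t := by group
      rw [e]; exact this
  -- the degree
  let Q : Γ → ℤ → Prop := fun h e => h * t ^ (-e) ∈ D
  have Qmul : ∀ {h h' : Γ} {e e' : ℤ}, Q h e → Q h' e' → Q (h * h') (e + e') := by
    intro h h' e e' h1 h2
    have := D.mul_mem h1 (hnz e _ h2)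
    have e3 : h * t ^ (-e) * (t ^ e * (h' * t ^ (-e')) * t ^ (-e)) = h * h' * t ^ (-(e + e')) := by
      group
    rw [e3] at this; exact this
  have Qinv : ∀ {h : Γ} {e : ℤ}, Q h e → Q h⁻¹ (-e) := by
    intro h e h1
    have := hnz (-e) _ (D.inv_mem h1)
    have e3 : t ^ (-e) * (h * t ^ (-e))⁻¹ * t ^ (-(-e)) = h⁻¹ * t ^ (-(-e)) := by group
    rw [e3] at this; exact this
  have Qpow : ∀ {h : Γ} {e : ℤ} (n : ℕ), Q h e → Q (h ^ n) (n * e) := by
    intro h e n h1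
    induction n with
    | zero => simp [Q, D.one_mem]
    | succ n ih =>
      rw [pow_succ]
      have := Qmul ih h1
      have e3 : ((n : ℤ) * e + e) = ((n + 1 : ℕ) : ℤ) * e := by push_cast; ring
      rw [e3] at this; exact this
  have Ql : ∀ x ∈ letters a b c, Q x 1 := by
    intro x hx
    have := hD x hx
    simpa [Q] using this
  have qa0 : Q (a 0) 1 := Ql _ (by simp [letters])
  have qb0 : Q (b 0) 1 := Ql _ (by simp [letters])
  have qc0 : Q (c 0) 1 := Ql _ (by simp [letters])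
  have qb1 : Q (b 1) 1 := Ql _ (by simp [letters])
  have qc1 : Q (c 1) 1 := Ql _ (by simp [letters])
  have qb2 : Q (b 2) 1 := Ql _ (by simp [letters])
  have qa1 : Q (a 1) 1 := Ql _ (by simp [letters])
  have hst := hR.star 0
  simp only [zero_add] at hst
  have q1 : Q ((c 0 * c 1 * a 1 * b 1) ^ 3) 12 := Qpow 3 (Qmul (Qmul (Qmul qc0 qc1) qa1) qb1)
  have q2 : Q ((c 0 * b 1 * c 1) ^ 4) 12 := Qpow 4 (Qmul (Qmul qc0 qb1) qc1)
  have q3 : Q ((a 0 * b 0 * c 0 * b 1 * c 1) ^ 2) 10 :=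
    Qpow 2 (Qmul (Qmul (Qmul (Qmul qa0 qb0) qc0) qb1) qc1)
  have q4 : Q ((a 0 * b 0 * c 0 * b 1 * c 1) ^ 2 * (a 1)⁻¹ *
      ((a 0 * b 0 * c 0 * b 1 * c 1) ^ 2)⁻¹) (-1) := by
    have := Qmul (Qmul q3 (Qinv qa1)) (Qinv q3)
    simpa using this
  have q5 : Q (a 2) 0 := by
    have e : a 2 = (a 0)⁻¹ * (c 0 * c 1 * a 1 * b 1) ^ 3 * ((c 0 * b 1 * c 1) ^ 4 *
      ((a 0 * b 0 * c 0 * b 1 * c 1) ^ 2 * (a 1)⁻¹ *
      ((a 0 * b 0 * c 0 * b 1 * c 1) ^ 2)⁻¹))⁻¹ := by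
      rw [hst]; group
    rw [e]
    have := Qmul (Qmul (Qinv qa0) q1) (Qinv (Qmul q2 q4))
    have e2 : (-1 + 12 + -(12 + -1) : ℤ) = 0 := by norm_num
    rw [e2] at this
    exact this
  -- braid relation of `a 2` and `b 2`
  have hbr := hR.brab 2
  have q6 : Q (a 2 * b 2 * a 2) 1 := by simpa using Qmul (Qmul q5 qb2) q5
  have q7 : Q (a 2 * b 2 * a 2) 2 := by
    rw [hbr]; simpa using Qmul (Qmul qb2 q5) qb2
  have htD : t ∈ D := by
    have := D.mul_mem (D.inv_mem q7) q6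
    have e : (a 2 * b 2 * a 2 * t ^ (-(2 : ℤ)))⁻¹ * (a 2 * b 2 * a 2 * t ^ (-(1 : ℤ))) = t := by
      group
    rw [e] at this; exact this
  have hall : ∀ x ∈ letters a b c, x ∈ D := by
    intro x hx
    have := D.mul_mem (hD x hx) htD
    simpa using this
  refine ⟨fun x hx => hDG (hall x hx), hDG ?_⟩
  have : a 2 * t ^ (-(0 : ℤ)) ∈ D := q5
  simpa using this

end perfect

end Pool.Agent.Lib.MP_24877f_gt_h61
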