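import Pool.Agent.Lib.MP_24877f_gt_h61.Gen

set_option autoImplicit false

/-!
# The base steps and the propagation steps (MP_24877f_gt)
-/

namespace Pool.Agent.Lib.MP_24877f_gt_h61

variable {Γ : Type*} [Group Γ] {a b c : ℕ → Γ}

/-- moving through a conjugation -/
theorem conj_step {w φ z z' : Γ} (h : φ * z * φ⁻¹ = z') (hw : Commute w z') :
    (w * φ⁻¹ * w⁻¹ * φ) * z * (w * φ⁻¹ * w⁻¹ * φ)⁻¹ = w * z * w⁻¹ := by
  have h1 : w⁻¹ * z' = z' * w⁻¹ := hw.inv_left.eq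
  calc (w * φ⁻¹ * w⁻¹ * φ) * z * (w * φ⁻¹ * w⁻¹ * φ)⁻¹
      = w * φ⁻¹ * (w⁻¹ * (φ * z * φ⁻¹)) * w * φ * w⁻¹ := by group
    _ = w * φ⁻¹ * ((φ * z * φ⁻¹) * w⁻¹) * w * φ * w⁻¹ := by rw [h, h1]
    _ = w * z * w⁻¹ := by group

theorem mem_U {G : Subgroup Γ} {w φ : Γ} (hφ : φ ∈ G) (hw : w * φ * w⁻¹ ∈ G) :
    w * φ⁻¹ * w⁻¹ * φ ∈ G := by
  have e : w * φ⁻¹ * w⁻¹ = (w * φ * w⁻¹)⁻¹ := by group
  rw [e]
  exact G.mul_mem (G.inv_mem hw) hφ

/-- base step, first type -/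
theorem base_tube (hR : Rel a b c) (G : Subgroup Γ) (φ X z : Γ) (hφ : φ ∈ G)
    (h1 : φ * a 0 * φ⁻¹ = c 0) (h2 : φ * c 0 * φ⁻¹ = c 1) (h3 : φ * c 1 * φ⁻¹ = z)
    (h4 : φ * b 0 * φ⁻¹ = b 1) (h5 : φ * b 1 * φ⁻¹ = b 2)
    (Xc0 : Commute X (c 0)) (Xb0 : Commute X (b 0)) (Xc1 : Commute X (c 1))
    (Xb1 : Commute X (b 1)) (Xz : Commute X z)
    (zb0 : Commute z (b 0)) (zb1 : Commute z (b 1)) (za1 : Commute z (a 1))
    (hv : a 0 * φ * (a 0)⁻¹ ∈ G)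
    (hw : (b 0 * a 1 * X) * φ * (b 0 * a 1 * X)⁻¹ ∈ G) :
    (∀ x ∈ letters a b c, x ∈ G) ∧ a 2 ∈ G := by
  set w := b 0 * a 1 * X with hwdef
  -- the differences of the first letter
  have d1 : Eqv G (a 0) (c 0) := by
    apply Eqv.of_comm (hR.ac 0 0)
    have := G.mul_mem hv (G.inv_mem hφ)
    have e : a 0 * φ * (a 0)⁻¹ * φ⁻¹ = a 0 * (c 0)⁻¹ := by rw [← h1]; group
    rw [e] at this; exact this
  have d2 : Eqv G (c 0) (c 1) := d1.conj hφ h1 h2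
  have d3 : Eqv G (c 1) z := d2.conj hφ h2 h3
  have hU : w * φ⁻¹ * w⁻¹ * φ ∈ G := mem_U hφ hw
  -- commutations of `w`
  have wc1 : Commute w (c 1) :=
    ((hR.bc 0 1 (by omega) (by omega)).mul_left (hR.ac 1 1)).mul_left Xc1
  have wz : Commute w z := (zb0.symm.mul_left za1.symm).mul_left Xz
  have wb0 : Commute w (b 0) :=
    ((Commute.refl (b 0)).mul_left (hR.ab 1 0 (by omega))).mul_left Xb0
  -- first extraction
  have e1 : Eqv G (b 0) (c 0) := by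
    have h6 : Eqv G (w * c 0 * w⁻¹) (c 1) := by
      refine d2.conj hU (conj_step h2 wc1) ?_
      rw [conj_step h3 wz, conj_comm wc1]
    have h7 : w * c 0 * w⁻¹ = b 0 * c 0 * (b 0)⁻¹ := by
      have k1 : (a 1 * X) * c 0 * (a 1 * X)⁻¹ = c 0 := conj_comm ((hR.ac 1 0).mul_left Xc0)
      calc w * c 0 * w⁻¹ = b 0 * ((a 1 * X) * c 0 * (a 1 * X)⁻¹) * (b 0)⁻¹ := by
            rw [hwdef]; group
        _ = _ := by rw [k1]
    rw [h7] at h6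
    exact Eqv.extract (hR.brbc 0) (hR.bc 0 1 (by omega) (by omega)).symm (hR.cc 1 0) d2 h6.1
  have e2 : Eqv G (b 1) (c 1) := e1.conj hφ h4 h2
  have e3 : Eqv G (b 2) z := e2.conj hφ h5 h3
  -- second extraction
  have e4 : Eqv G (a 1) (b 1) := by
    have hφ' : φ⁻¹ ∈ G := G.inv_mem hφ
    have hU' : w * φ⁻¹⁻¹ * w⁻¹ * φ⁻¹ ∈ G := by
      apply mem_U hφ'
      have e : w * φ⁻¹ * w⁻¹ = (w * φ * w⁻¹)⁻¹ := by group
      rw [e]; exact G.inv_mem hw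
    have g1 : φ⁻¹ * b 1 * φ⁻¹⁻¹ = b 0 := by rw [← h4]; group
    have g2 : φ⁻¹ * z * φ⁻¹⁻¹ = c 1 := by rw [← h3]; group
    have h6 : Eqv G (w * b 1 * w⁻¹) z := by
      refine (e2.trans d3).conj hU' (conj_step g1 wb0) ?_
      rw [conj_step g2 wc1, conj_comm wz]
    have h7 : w * b 1 * w⁻¹ = a 1 * b 1 * (a 1)⁻¹ := by
      have k1 : X * b 1 * X⁻¹ = b 1 := conj_comm Xb1
      have k2 : b 0 * (a 1 * b 1 * (a 1)⁻¹) * (b 0)⁻¹ = a 1 * b 1 * (a 1)⁻¹ := by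
        apply conj_comm
        exact ((hR.ab 1 0 (by omega)).symm.mul_right (hR.bb 0 1)).mul_right
          ((hR.ab 1 0 (by omega)).symm.inv_right)
      calc w * b 1 * w⁻¹ = b 0 * (a 1 * (X * b 1 * X⁻¹) * (a 1)⁻¹) * (b 0)⁻¹ := by
            rw [hwdef]; group
        _ = _ := by rw [k1, k2]
    rw [h7] at h6
    exact Eqv.extract (hR.brab 1) za1 zb1 (e2.trans d3) h6.1
  apply perfect_step hR
  intro x hx
  have key : Eqv G x (a 0) := by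
    simp only [letters, Set.mem_insert_iff, Set.mem_singleton_iff] at hx
    rcases hx with rfl | rfl | rfl | rfl | rfl | rfl | rfl
    · exact d1.trans d1.symm
    · exact e1.trans d1.symm
    · exact d1.symm
    · exact (e2.trans d2.symm).trans d1.symm
    · exact d2.symm.trans d1.symm
    · exact ((e3.trans d3.symm).trans d2.symm).trans d1.symm
    · exact (e4.trans (e2.trans d2.symm)).trans d1.symm
  exact key.1

/-- base step, second type -/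
theorem base_ring (hR : Rel a b c) (G : Subgroup Γ) (φ X : Γ) (hφ : φ ∈ G)
    (h1 : φ * a 0 * φ⁻¹ = a 1) (h2 : φ * a 1 * φ⁻¹ = a 2) (h3 : φ * a 2 * φ⁻¹ = a 3)
    (h4 : φ * b 0 * φ⁻¹ = b 1) (h5 : φ * b 1 * φ⁻¹ = b 2) (h6 : φ * c 0 * φ⁻¹ = c 1)
    (Xa : ∀ i, Commute X (a i)) (Xb0 : Commute X (b 0)) (Xb2 : Commute X (b 2))
    (hv : a 0 * φ * (a 0)⁻¹ ∈ G)
    (hw : (b 0 * c 0 * X) * φ * (b 0 * c 0 * X)⁻¹ ∈ G) :
    (∀ x ∈ letters a b c, x ∈ G) ∧ a 2 ∈ G := by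
  set w := b 0 * c 0 * X with hwdef
  have d1 : Eqv G (a 0) (a 1) := by
    apply Eqv.of_comm (hR.aa 0 1)
    have := G.mul_mem hv (G.inv_mem hφ)
    have e : a 0 * φ * (a 0)⁻¹ * φ⁻¹ = a 0 * (a 1)⁻¹ := by rw [← h1]; group
    rw [e] at this; exact this
  have hU : w * φ⁻¹ * w⁻¹ * φ ∈ G := mem_U hφ hw
  have wa : ∀ i, i ≠ 0 → Commute w (a i) := fun i hi =>
    ((hR.ab i 0 hi).symm.mul_left (hR.ac i 0).symm).mul_left (Xa i)
  have wb2 : Commute w (b 2) :=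
    ((hR.bb 0 2).mul_left (hR.bc 2 0 (by omega) (by omega)).symm).mul_left Xb2
  -- first extraction
  have e1 : Eqv G (b 0) (a 0) := by
    have k0 : Eqv G (w * a 0 * w⁻¹) (a 1) := by
      refine d1.conj hU (conj_step h1 (wa 1 (by omega))) ?_
      rw [conj_step h2 (wa 2 (by omega)), conj_comm (wa 1 (by omega))]
    have k2 : w * a 0 * w⁻¹ = b 0 * a 0 * (b 0)⁻¹ := by
      have k1 : (c 0 * X) * a 0 * (c 0 * X)⁻¹ = a 0 :=
        conj_comm ((hR.ac 0 0).symm.mul_left (Xa 0))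
      calc w * a 0 * w⁻¹ = b 0 * ((c 0 * X) * a 0 * (c 0 * X)⁻¹) * (b 0)⁻¹ := by
            rw [hwdef]; group
        _ = _ := by rw [k1]
    rw [k2] at k0
    exact Eqv.extract (hR.brab 0).symm (hR.ab 1 0 (by omega)) (hR.aa 1 0) d1 k0.1
  -- the letter `c 0`
  have e2 : Eqv G (c 0) (a 1) := by
    have hφ2 : φ * φ ∈ G := G.mul_mem hφ hφ
    have hw2 : w * (φ * φ) * w⁻¹ ∈ G := by
      have e : w * (φ * φ) * w⁻¹ = (w * φ * w⁻¹) * (w * φ * w⁻¹) := by group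
      rw [e]; exact G.mul_mem hw hw
    have hV := mem_U hφ2 hw2
    have g1 : (φ * φ) * b 0 * (φ * φ)⁻¹ = b 2 := by rw [← h5, ← h4]; group
    have g2 : (φ * φ) * a 1 * (φ * φ)⁻¹ = a 3 := by rw [← h3, ← h2]; group
    refine (e1.trans d1).conj hV ?_ ?_
    · rw [conj_step g1 wb2]
      have k1 : X * b 0 * X⁻¹ = b 0 := conj_comm Xb0
      calc w * b 0 * w⁻¹ = b 0 * c 0 * (X * b 0 * X⁻¹) * (c 0)⁻¹ * (b 0)⁻¹ := by
            rw [hwdef]; group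
        _ = _ := by rw [k1, br_conj' (hR.brbc 0)]
    · rw [conj_step g2 (wa 3 (by omega)), conj_comm (wa 1 (by omega))]
  have e3 : Eqv G (b 1) (a 1) := e1.conj hφ h4 h1
  have d2 : Eqv G (a 1) (a 2) := d1.conj hφ h1 h2
  have e4 : Eqv G (b 2) (a 2) := e3.conj hφ h5 h2
  have e5 : Eqv G (c 1) (a 2) := e2.conj hφ h6 h2
  apply perfect_step hR
  intro x hx
  have key : Eqv G x (a 0) := by
    simp only [letters, Set.mem_insert_iff, Set.mem_singleton_iff] at hx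
    rcases hx with rfl | rfl | rfl | rfl | rfl | rfl | rfl
    · exact d1.trans d1.symm
    · exact e1
    · exact e2.trans d1.symm
    · exact e3.trans d1.symm
    · exact (e5.trans d2.symm).trans d1.symm
    · exact (e4.trans d2.symm).trans d1.symm
    · exact d1.symm
  exact key.1

/-- the star relation as a membership -/
theorem star_mem (hR : Rel a b c) (G : Subgroup Γ) (i : ℕ) (ha : a i ∈ G) (hb : b i ∈ G)
    (hc : c i ∈ G) (hb' : b (i + 1) ∈ G) (hc' : c (i + 1) ∈ G) (ha' : a (i + 1) ∈ G) :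
    a (i + 2) ∈ G := by
  have e : a (i + 2) = (a i)⁻¹ * (c i * c (i + 1) * a (i + 1) * b (i + 1)) ^ 3 *
      ((c i * b (i + 1) * c (i + 1)) ^ 4 *
      ((a i * b i * c i * b (i + 1) * c (i + 1)) ^ 2 * (a (i + 1))⁻¹ *
      ((a i * b i * c i * b (i + 1) * c (i + 1)) ^ 2)⁻¹))⁻¹ := by
    rw [hR.star i]; group
  rw [e]
  have m1 : (c i * c (i + 1) * a (i + 1) * b (i + 1)) ^ 3 ∈ G :=
    G.pow_mem (G.mul_mem (G.mul_mem (G.mul_mem hc hc') ha') hb') 3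
  have m2 : (c i * b (i + 1) * c (i + 1)) ^ 4 ∈ G :=
    G.pow_mem (G.mul_mem (G.mul_mem hc hb') hc') 4
  have m3 : (a i * b i * c i * b (i + 1) * c (i + 1)) ^ 2 ∈ G :=
    G.pow_mem (G.mul_mem (G.mul_mem (G.mul_mem (G.mul_mem ha hb) hc) hb') hc') 2
  exact G.mul_mem (G.mul_mem (G.inv_mem ha) m1)
    (G.inv_mem (G.mul_mem m2 (G.mul_mem (G.mul_mem m3 (G.inv_mem ha')) (G.inv_mem m3))))

/-- extraction of a crossing letter by a probe -/
theorem cross_mem {G : Subgroup Γ} {ψ z bb cc X : Γ} (hψ : (cc * X) * ψ * (cc * X)⁻¹ ∈ G)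
    (hz : z ∈ G) (hzX : Commute (cc * X) z) (hb : bb ∈ G) (hψz : ψ * z * ψ⁻¹ = bb)
    (hXb : Commute X bb) (hbr : bb * cc * bb = cc * bb * cc) :
    cc ∈ G ∧ X * ψ * X⁻¹ ∈ G := by
  have h1 : (cc * X) * ψ * (cc * X)⁻¹ * z * ((cc * X) * ψ * (cc * X)⁻¹)⁻¹ ∈ G :=
    G.mul_mem (G.mul_mem hψ hz) (G.inv_mem hψ)
  have h2 : (cc * X) * ψ * (cc * X)⁻¹ * z * ((cc * X) * ψ * (cc * X)⁻¹)⁻¹ =
      cc * bb * cc⁻¹ := by
    have k1 : (cc * X)⁻¹ * z * (cc * X) = z := by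
      rw [hzX.inv_left.eq, inv_mul_cancel_right]
    have k2 : X * bb * X⁻¹ = bb := conj_comm hXb
    calc (cc * X) * ψ * (cc * X)⁻¹ * z * ((cc * X) * ψ * (cc * X)⁻¹)⁻¹
        = (cc * X) * (ψ * ((cc * X)⁻¹ * z * (cc * X)) * ψ⁻¹) * (cc * X)⁻¹ := by group
      _ = cc * (X * bb * X⁻¹) * cc⁻¹ := by rw [k1, hψz]; group
      _ = _ := by rw [k2]
  rw [h2, br_conj hbr] at h1
  have h3 : cc ∈ G := by
    have := G.mul_mem (G.mul_mem hb h1) (G.inv_mem hb)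
    have e : bb * (bb⁻¹ * cc * bb) * bb⁻¹ = cc := by group
    rw [e] at this; exact this
  refine ⟨h3, ?_⟩
  have := G.mul_mem (G.mul_mem (G.inv_mem h3) hψ) h3
  have e : cc⁻¹ * ((cc * X) * ψ * (cc * X)⁻¹) * cc = X * ψ * X⁻¹ := by group
  rw [e] at this; exact this

/-- products of crossing letters -/
def XX (c : ℕ → Γ) (st : ℕ) : ℕ → ℕ → Γ
  | _, 0 => 1
  | s, n + 1 => c s * XX c st (s + st) n

theorem XX_comm (st : ℕ) (y : Γ) : ∀ (n s : ℕ), (∀ i, s ≤ i → Commute (c i) y) →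
    Commute (XX c st s n) y
  | 0, _, _ => Commute.one_left y
  | n + 1, s, h => (h s le_rfl).mul_left (XX_comm st y n (s + st) (fun i hi => h i (by omega)))

end Pool.Agent.Lib.MP_24877f_gt_h61
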