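import Pool.Agent.Lib.MP_24877f_gt_h61.Aut

set_option autoImplicit false

/-!
# Identities between the twists (MP_24877f_gt)
-/

namespace Pool.Agent.Lib.MP_24877f_gt_h61

open Sy

def TA (n : ℕ) : MulAut F := aut 0 (A n)
def TB (n : ℕ) : MulAut F := aut 0 (B n)
def TC (n : ℕ) : MulAut F := aut 0 (C n)
def TP (n : ℕ) : MulAut F := aut 0 (Sy.P n)
def TD (n : ℕ) : MulAut F := aut 0 (D n)
def TS (n : ℕ) : MulAut F := aut 0 (S n)

theorem aut_A (m p : ℕ) : aut m (A p) = TA (m + p) := by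
  apply MulEquiv.ext; intro x
  change hom m (A p) true x = hom 0 (A (m + p)) true x
  simp [hom]
theorem aut_B (m p : ℕ) : aut m (B p) = TB (m + p) := by
  apply MulEquiv.ext; intro x
  change hom m (B p) true x = hom 0 (B (m + p)) true x
  simp [hom]
theorem aut_C (m p : ℕ) : aut m (C p) = TC (m + p) := by
  apply MulEquiv.ext; intro x
  change hom m (C p) true x = hom 0 (C (m + p)) true x
  simp [hom]
theorem aut_P (m p : ℕ) : aut m (Sy.P p) = TP (m + p) := by
  apply MulEquiv.ext; intro x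
  change hom m (Sy.P p) true x = hom 0 (Sy.P (m + p)) true x
  simp [hom]
theorem aut_D (m p : ℕ) : aut m (D p) = TD (m + p) := by
  apply MulEquiv.ext; intro x
  change hom m (D p) true x = hom 0 (D (m + p)) true x
  simp [hom]
theorem aut_S (m p : ℕ) : aut m (S p) = TS (m + p) := by
  apply MulEquiv.ext; intro x
  change hom m (S p) true x = hom 0 (S (m + p)) true x
  simp [hom]

theorem pr_P_nil (m : ℕ) : pr m (P []) = 1 := rfl

theorem pr_P_cons (m : ℕ) (y : Sy) (l : List Sy) : pr m (P (y :: l)) = aut m y * pr m (P l) := by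
  simp [pr, P, sA]

/-! ### general base -/

theorem br_ab (m : ℕ) : TA m * TB m * TA m = TB m * TA m * TB m := by
  have := pr_eq (r := 1) (u := P [A 0, B 0, A 0]) (v := P [B 0, A 0, B 0]) (by decide +kernel) m
  simpa [pr_P_cons, pr_P_nil, aut_A, aut_B, mul_assoc] using this

theorem br_bc (m : ℕ) : TB m * TC m * TB m = TC m * TB m * TC m := by
  have := pr_eq (r := 2) (u := P [B 0, C 0, B 0]) (v := P [C 0, B 0, C 0]) (by decide +kernel) m
  simpa [pr_P_cons, pr_P_nil, aut_C, aut_B, mul_assoc] using this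

theorem br_cb (m : ℕ) : TB (m + 1) * TC m * TB (m + 1) = TC m * TB (m + 1) * TC m := by
  have := pr_eq (r := 2) (u := P [B 1, C 0, B 1]) (v := P [C 0, B 1, C 0]) (by decide +kernel) m
  simpa [pr_P_cons, pr_P_nil, aut_C, aut_B, mul_assoc] using this

theorem br_pb (m : ℕ) : TP m * TB m * TP m = TB m * TP m * TB m := by
  have := pr_eq (r := 1) (u := P [Sy.P 0, B 0, Sy.P 0]) (v := P [B 0, Sy.P 0, B 0])
    (by decide +kernel) m
  simpa [pr_P_cons, pr_P_nil, aut_P, aut_B, mul_assoc] using this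

theorem cm_ac0 (m : ℕ) : TA m * TC m = TC m * TA m := by
  have := pr_eq (r := 2) (u := P [A 0, C 0]) (v := P [C 0, A 0]) (by decide +kernel) m
  simpa [pr_P_cons, pr_P_nil, aut_A, aut_C, mul_assoc] using this

theorem cm_ac1 (m : ℕ) : TA (m + 1) * TC m = TC m * TA (m + 1) := by
  have := pr_eq (r := 2) (u := P [A 1, C 0]) (v := P [C 0, A 1]) (by decide +kernel) m
  simpa [pr_P_cons, pr_P_nil, aut_A, aut_C, mul_assoc] using this

theorem cm_cc1 (m : ℕ) : TC m * TC (m + 1) = TC (m + 1) * TC m := by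
  have := pr_eq (r := 3) (u := P [C 0, C 1]) (v := P [C 1, C 0]) (by decide +kernel) m
  simpa [pr_P_cons, pr_P_nil, aut_C, mul_assoc] using this

theorem cm_ap0 (m : ℕ) : TA m * TP m = TP m * TA m := by
  have := pr_eq (r := 1) (u := P [A 0, Sy.P 0]) (v := P [Sy.P 0, A 0]) (by decide +kernel) m
  simpa [pr_P_cons, pr_P_nil, aut_A, aut_P, mul_assoc] using this

theorem cm_cp0 (m : ℕ) : TC m * TP m = TP m * TC m := by
  have := pr_eq (r := 2) (u := P [C 0, Sy.P 0]) (v := P [Sy.P 0, C 0]) (by decide +kernel) m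
  simpa [pr_P_cons, pr_P_nil, aut_C, aut_P, mul_assoc] using this

theorem cm_cp1 (m : ℕ) : TC m * TP (m + 1) = TP (m + 1) * TC m := by
  have := pr_eq (r := 2) (u := P [C 0, Sy.P 1]) (v := P [Sy.P 1, C 0]) (by decide +kernel) m
  simpa [pr_P_cons, pr_P_nil, aut_C, aut_P, mul_assoc] using this

theorem star_id (m : ℕ) : (TC m * TC (m + 1) * TA (m + 1) * TB (m + 1)) ^ 3 =
    TA m * TA (m + 2) * ((TC m * TB (m + 1) * TC (m + 1)) ^ 4 *
      ((TA m * TB m * TC m * TB (m + 1) * TC (m + 1)) ^ 2 * (TA (m + 1))⁻¹ *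
        ((TA m * TB m * TC m * TB (m + 1) * TC (m + 1)) ^ 2)⁻¹)) := by
  have := pr_eq (r := 3) (u := pw 3 (P [C 0, C 1, A 1, B 1]))
    (v := P [A 0, A 2] ++ (pw 4 (P [C 0, B 1, C 1]) ++
      (pw 2 (P [A 0, B 0, C 0, B 1, C 1]) ++ (iv (P [A 1]) ++
        iv (pw 2 (P [A 0, B 0, C 0, B 1, C 1]))))))
    (by decide +kernel) m
  simpa only [pr_pw, pr_append, pr_iv, pr_P_cons, pr_P_nil, aut_A, aut_B, aut_C, mul_assoc,
    mul_one, add_zero] using this

theorem starP_id (m : ℕ) : (TA m * TP m * TC m * TB m) ^ 3 = TD m * TA (m + 1) * TP (m + 1) := by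
  have := pr_eq (r := 2) (u := pw 3 (P [A 0, Sy.P 0, C 0, B 0])) (v := P [D 0, A 1, Sy.P 1])
    (by decide +kernel) m
  simpa only [pr_pw, pr_append, pr_iv, pr_P_cons, pr_P_nil, aut_A, aut_B, aut_C, aut_P, aut_D,
    mul_assoc, mul_one, add_zero] using this

theorem piece4_id (m : ℕ) : (TA m * TB m * TP m) ^ 4 = TD (m + 1) * TD m := by
  have := pr_eq (r := 1) (u := pw 4 (P [A 0, B 0, Sy.P 0])) (v := P [D 1, D 0])
    (by decide +kernel) m
  simpa only [pr_pw, pr_append, pr_iv, pr_P_cons, pr_P_nil, aut_A, aut_B, aut_C, aut_P, aut_D,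
    mul_assoc, mul_one, add_zero] using this

theorem piece5_id (m : ℕ) : (TA m * (TA m * TB m * TC m * TB (m + 1) * TP (m + 1))) ^ 5 =
    TD (m + 2) * TD m := by
  have := pr_eq (r := 2) (u := pw 5 (P [A 0, A 0, B 0, C 0, B 1, Sy.P 1])) (v := P [D 2, D 0])
    (by decide +kernel) m
  simpa only [pr_pw, pr_append, pr_iv, pr_P_cons, pr_P_nil, aut_A, aut_B, aut_C, aut_P, aut_D,
    mul_assoc, mul_one, add_zero] using this

/-- the half twist of the chain of five curves in two handles -/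
def halfw : List Sy := [A 0, B 0, A 0, C 0, B 0, A 0, B 1, C 0, B 0, A 0, A 1, B 1, C 0, B 0, A 0]

theorem swap_id (m : ℕ) : TS m = (pr m (P halfw))⁻¹ * (TA m * TB m) ^ 3 *
    (TA (m + 1) * TB (m + 1)) ^ 3 := by
  have := pr_eq (r := 2) (u := P [S 0]) (v := iv (P halfw) ++ (pw 3 (P [A 0, B 0]) ++
    pw 3 (P [A 1, B 1]))) (by decide +kernel) m
  simpa only [pr_pw, pr_append, pr_iv, pr_P_cons, pr_P_nil, aut_A, aut_B, aut_C, aut_P, aut_D,
    aut_S, mul_assoc, mul_one, add_zero] using this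

end Pool.Agent.Lib.MP_24877f_gt_h61
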