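import Pool.Agent.Lib.MP_24877f_gt_h61.Twist

set_option autoImplicit false

/-!
# The twists act on letters by tables (MP_24877f_gt)
-/

namespace Pool.Agent.Lib.MP_24877f_gt_h61

theorem beq_f {i p : ℕ} (h : ¬ i = p) : Nat.beq i p = false := by
  rw [← Bool.not_eq_true]
  intro h1
  exact h (Nat.eq_of_beq_eq_true h1)

theorem hA_of (n : ℕ) (s : Bool) (q : ℕ × Bool) : hA n s (FreeGroup.of q) =
    if q = (n, true) then be n * sg (!s) (al n) else FreeGroup.of q :=
  FreeGroup.lift_apply_of

theorem hB_of (n : ℕ) (s : Bool) (q : ℕ × Bool) : hB n s (FreeGroup.of q) =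
    if q = (n, false) then al n * sg s (be n) else FreeGroup.of q :=
  FreeGroup.lift_apply_of

theorem hC_of (n : ℕ) (s : Bool) (q : ℕ × Bool) : hC n s (FreeGroup.of q) =
    if q = (n, true) then sg s (gam n) * be n
    else if q = (n + 1, false) then sg s (gam n) * al (n + 1) * (sg s (gam n))⁻¹
    else if q = (n + 1, true) then be (n + 1) * (sg s (gam n))⁻¹
    else FreeGroup.of q :=
  FreeGroup.lift_apply_of

theorem hP_of (n : ℕ) (s : Bool) (q : ℕ × Bool) : hP n s (FreeGroup.of q) =
    if q.1 < n ∨ q = (n, false) then sg s (R n * al n) * FreeGroup.of q * (sg s (R n * al n))⁻¹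
    else if q = (n, true) then be n * (sg s (R n * al n))⁻¹
    else FreeGroup.of q :=
  FreeGroup.lift_apply_of

theorem hD_of (n : ℕ) (s : Bool) (q : ℕ × Bool) : hD n s (FreeGroup.of q) =
    if q.1 < n then sg s (R n) * FreeGroup.of q * (sg s (R n))⁻¹
    else FreeGroup.of q :=
  FreeGroup.lift_apply_of

theorem hS_of (n : ℕ) (s : Bool) (q : ℕ × Bool) : hS n s (FreeGroup.of q) =
    if q.1 = n then (bif s then FreeGroup.of (n + 1, q.2)
      else kap n * FreeGroup.of (n + 1, q.2) * (kap n)⁻¹)
    else if q.1 = n + 1 then (bif s then (kap (n + 1))⁻¹ * FreeGroup.of (n, q.2) * kap (n + 1)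
      else FreeGroup.of (n, q.2))
    else FreeGroup.of q :=
  FreeGroup.lift_apply_of

/-- `A` -/
theorem rep_A (m : ℕ) (X : F) (hX : Inn m X) (p : ℕ) (s : Bool) (l : Lt) :
    hA (m + p) s (rho m X l) = ev (rho m X) (tab (Sy.A p) s l) := by
  cases l with
  | X =>
    rcases hX with rfl | ⟨j, b, hj, rfl⟩
    · simp [rho, tab]
    · simp only [rho, tab, hA_of, ev_cons, ev_nil, evl_true, mul_one]
      rw [if_neg (by rw [Prod.mk.injEq]; omega)]
  | E =>
    simp only [rho, tab, ev_cons, ev_nil, evl_true, mul_one]
    apply map_R_fix
    intro j hj b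
    rw [hA_of, if_neg (by rw [Prod.mk.injEq]; omega)]
  | al i =>
    simp only [rho, tab, al, hA_of, ev_cons, ev_nil, evl_true, mul_one]
    rw [if_neg (by simp)]
  | be i =>
    by_cases h : i = p
    · subst h
      have h1 : Nat.beq i i = true := by simp
      simp only [rho, tab, h1, cond_true, ev_cons, ev_nil, evl_true, mul_one]
      rw [be, hA_of, if_pos rfl]
      cases s
      · simp [be, al, rho]
      · simp [be, al, rho]
    · have h1 : Nat.beq i p = false := beq_f h
      simp only [rho, tab, h1, cond_false, ev_cons, ev_nil, evl_true, mul_one]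
      rw [be, hA_of, if_neg (by rw [Prod.mk.injEq]; omega)]

/-- `B` -/
theorem rep_B (m : ℕ) (X : F) (hX : Inn m X) (p : ℕ) (s : Bool) (l : Lt) :
    hB (m + p) s (rho m X l) = ev (rho m X) (tab (Sy.B p) s l) := by
  cases l with
  | X =>
    rcases hX with rfl | ⟨j, b, hj, rfl⟩
    · simp [rho, tab]
    · simp only [rho, tab, hB_of, ev_cons, ev_nil, evl_true, mul_one]
      rw [if_neg (by rw [Prod.mk.injEq]; omega)]
  | E =>
    simp only [rho, tab, ev_cons, ev_nil, evl_true, mul_one]
    apply map_R_fix
    intro j hj b
    rw [hB_of, if_neg (by rw [Prod.mk.injEq]; omega)]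
  | be i =>
    simp only [rho, tab, be, hB_of, ev_cons, ev_nil, evl_true, mul_one]
    rw [if_neg (by simp)]
  | al i =>
    by_cases h : i = p
    · subst h
      have h1 : Nat.beq i i = true := by simp
      simp only [rho, tab, h1, cond_true, ev_cons, ev_nil, evl_true, mul_one]
      rw [al, hB_of, if_pos rfl]
      cases s
      · simp [be, al, rho]
      · simp [be, al, rho]
    · have h1 : Nat.beq i p = false := beq_f h
      simp only [rho, tab, h1, cond_false, ev_cons, ev_nil, evl_true, mul_one]
      rw [al, hB_of, if_neg (by rw [Prod.mk.injEq]; omega)]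

/-- `C` -/
theorem rep_C (m : ℕ) (X : F) (hX : Inn m X) (p : ℕ) (s : Bool) (l : Lt) :
    hC (m + p) s (rho m X l) = ev (rho m X) (tab (Sy.C p) s l) := by
  cases l with
  | X =>
    rcases hX with rfl | ⟨j, b, hj, rfl⟩
    · simp [rho, tab]
    · simp only [rho, tab, hC_of, ev_cons, ev_nil, evl_true, mul_one]
      rw [if_neg (by rw [Prod.mk.injEq]; omega), if_neg (by rw [Prod.mk.injEq]; omega),
        if_neg (by rw [Prod.mk.injEq]; omega)]
  | E =>
    simp only [rho, tab, ev_cons, ev_nil, evl_true, mul_one]
    apply map_R_fix
    intro j hj b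
    rw [hC_of, if_neg (by rw [Prod.mk.injEq]; omega), if_neg (by rw [Prod.mk.injEq]; omega),
        if_neg (by rw [Prod.mk.injEq]; omega)]
  | al i =>
    by_cases h : i = p + 1
    · subst h
      have h1 : Nat.beq (p + 1) (p + 1) = true := by simp
      simp only [rho, tab, h1, cond_true]
      rw [al, hC_of, if_neg (by rw [Prod.mk.injEq]; omega), if_pos (by rfl), ev_cj, ev_sw, ev_gw]
      simp [rho, add_assoc]
    · have h1 : Nat.beq i (p + 1) = false := beq_f h
      simp only [rho, tab, h1, cond_false, ev_cons, ev_nil, evl_true, mul_one]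
      rw [al, hC_of, if_neg (by simp), if_neg (by rw [Prod.mk.injEq]; omega), if_neg (by simp)]
  | be i =>
    by_cases h : i = p
    · subst h
      have h1 : Nat.beq i i = true := by simp
      simp only [rho, tab, h1, cond_true]
      rw [be, hC_of, if_pos rfl, ev_append, ev_sw, ev_gw]
      simp [rho]
    · have h1 : Nat.beq i p = false := beq_f h
      by_cases h' : i = p + 1
      · subst h'
        have h2 : Nat.beq (p + 1) (p + 1) = true := by simp
        simp only [rho, tab, h1, h2, cond_true, cond_false]
        rw [be, hC_of, if_neg (by rw [Prod.mk.injEq]; omega), if_neg (by simp),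
          if_pos (by rfl), ev_cons, ev_inv, ev_sw, ev_gw]
        simp [rho, add_assoc]
      · have h2 : Nat.beq i (p + 1) = false := beq_f h'
        simp only [rho, tab, h1, h2, cond_false, ev_cons, ev_nil, evl_true, mul_one]
        rw [be, hC_of, if_neg (by rw [Prod.mk.injEq]; omega), if_neg (by simp),
          if_neg (by rw [Prod.mk.injEq]; omega)]

/-- `P` -/
theorem rep_P (m : ℕ) (X : F) (hX : Inn m X) (p : ℕ) (s : Bool) (l : Lt) :
    hP (m + p) s (rho m X l) = ev (rho m X) (tab (Sy.P p) s l) := by
  have hu : ev (rho m X) (sw s (Rw p ++ [(Lt.al p, true)])) = sg s (R (m + p) * al (m + p)) := by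
    rw [ev_sw, ev_append, ev_Rw]
    simp [rho]
  cases l with
  | X =>
    simp only [tab, ev_cj, hu]
    rcases hX with rfl | ⟨j, b, hj, rfl⟩
    · simp [rho]
    · simp only [rho, hP_of, ev_cons, ev_nil, evl_true, mul_one]
      rw [if_pos (Or.inl (by omega))]
  | E =>
    simp only [tab, ev_cj, hu, rho, ev_cons, ev_nil, evl_true, mul_one]
    apply map_R_conj
    intro j hj b
    rw [hP_of, if_pos (Or.inl (by simp only; omega))]
  | al i =>
    by_cases h : i ≤ p
    · have h1 : Nat.ble i p = true := by simpa using h
      simp only [rho, tab, h1, cond_true, ev_cj, hu, ev_cons, ev_nil, evl_true, mul_one]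
      rw [al, hP_of]
      rcases Nat.lt_or_ge i p with h2 | h2
      · rw [if_pos (Or.inl (by simp only; omega))]
      · have : i = p := by omega
        subst this
        rw [if_pos (Or.inr rfl)]
    · have h1 : Nat.ble i p = false := by
        rw [← Bool.not_eq_true]; simpa using h
      simp only [rho, tab, h1, cond_false, ev_cons, ev_nil, evl_true, mul_one]
      rw [al, hP_of, if_neg, if_neg (by simp)]
      rintro (h2 | h2)
      · simp only at h2; omega
      · rw [Prod.mk.injEq] at h2; omega
  | be i =>
    by_cases h : i < p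
    · have h1 : Nat.blt i p = true := by simpa [Nat.blt] using h
      simp only [rho, tab, h1, cond_true, ev_cj, hu, ev_cons, ev_nil, evl_true, mul_one]
      rw [be, hP_of, if_pos (Or.inl (by simp only; omega))]
    · have h1 : Nat.blt i p = false := by
        rw [← Bool.not_eq_true]; simpa [Nat.blt] using h
      by_cases h' : i = p
      · subst h'
        have h2 : Nat.beq i i = true := by simp
        simp only [rho, tab, h1, h2, cond_true, cond_false, ev_inv, hu, ev_cons, evl_true]
        rw [be, hP_of, if_neg, if_pos rfl]
        · rfl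
        · rintro (h2 | h2)
          · simp only at h2; omega
          · rw [Prod.mk.injEq] at h2; simp at h2
      · have h2 : Nat.beq i p = false := beq_f h'
        simp only [rho, tab, h1, h2, cond_false, ev_cons, ev_nil, evl_true, mul_one]
        rw [be, hP_of, if_neg, if_neg (by rw [Prod.mk.injEq]; omega)]
        rintro (h2 | h2)
        · simp only at h2; omega
        · rw [Prod.mk.injEq] at h2; simp at h2

/-- `D` -/
theorem rep_D (m : ℕ) (X : F) (hX : Inn m X) (p : ℕ) (s : Bool) (l : Lt) :
    hD (m + p) s (rho m X l) = ev (rho m X) (tab (Sy.D p) s l) := by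
  have hu : ev (rho m X) (sw s (Rw p)) = sg s (R (m + p)) := by
    rw [ev_sw, ev_Rw]
  cases l with
  | X =>
    simp only [tab, ev_cj, hu]
    rcases hX with rfl | ⟨j, b, hj, rfl⟩
    · simp [rho]
    · simp only [rho, hD_of, ev_cons, ev_nil, evl_true, mul_one]
      rw [if_pos (by omega)]
  | E =>
    simp only [tab, ev_cj, hu, rho, ev_cons, ev_nil, evl_true, mul_one]
    apply map_R_conj
    intro j hj b
    rw [hD_of, if_pos (by simp only; omega)]
  | al i =>
    by_cases h : i < p
    · have h1 : Nat.blt i p = true := by simpa [Nat.blt] using h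
      simp only [rho, tab, h1, cond_true, ev_cj, hu, ev_cons, ev_nil, evl_true, mul_one]
      rw [al, hD_of, if_pos (by simp only; omega)]
    · have h1 : Nat.blt i p = false := by
        rw [← Bool.not_eq_true]; simpa [Nat.blt] using h
      simp only [rho, tab, h1, cond_false, ev_cons, ev_nil, evl_true, mul_one]
      rw [al, hD_of, if_neg (by simp only; omega)]
  | be i =>
    by_cases h : i < p
    · have h1 : Nat.blt i p = true := by simpa [Nat.blt] using h
      simp only [rho, tab, h1, cond_true, ev_cj, hu, ev_cons, ev_nil, evl_true, mul_one]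
      rw [be, hD_of, if_pos (by simp only; omega)]
    · have h1 : Nat.blt i p = false := by
        rw [← Bool.not_eq_true]; simpa [Nat.blt] using h
      simp only [rho, tab, h1, cond_false, ev_cons, ev_nil, evl_true, mul_one]
      rw [be, hD_of, if_neg (by simp only; omega)]

/-- `S` -/
theorem rep_S (m : ℕ) (X : F) (hX : Inn m X) (p : ℕ) (s : Bool) (l : Lt) :
    hS (m + p) s (rho m X l) = ev (rho m X) (tab (Sy.S p) s l) := by
  have hi : ev (rho m X) (Wd.inv (kw (p + 1))) = (kap (m + p + 1))⁻¹ := by
    rw [ev_inv, ev_kw, add_assoc]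
  cases l with
  | X =>
    rcases hX with rfl | ⟨j, b, hj, rfl⟩
    · simp [rho, tab]
    · simp only [rho, tab, hS_of, ev_cons, ev_nil, evl_true, mul_one]
      rw [if_neg (by omega), if_neg (by omega)]
  | E =>
    simp only [rho, tab, ev_cons, ev_nil, evl_true, mul_one]
    apply map_R_fix
    intro j hj b
    rw [hS_of, if_neg (by simp only; omega), if_neg (by simp only; omega)]
  | al i =>
    by_cases h : i = p
    · subst h
      have h1 : Nat.beq i i = true := by simp
      simp only [rho, tab, h1, cond_true]
      rw [al, hS_of, if_pos rfl]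
      cases s
      · simp only [cond_false, ev_cj, ev_kw, ev_cons, ev_nil, evl_true, mul_one, rho]
        rfl
      · simp only [cond_true, ev_cons, ev_nil, evl_true, mul_one, rho]
        rfl
    · have h1 : Nat.beq i p = false := beq_f h
      by_cases h' : i = p + 1
      · subst h'
        have h2 : Nat.beq (p + 1) (p + 1) = true := by simp
        simp only [rho, tab, h1, h2, cond_true, cond_false]
        rw [al, hS_of, if_neg (by simp only; omega), if_pos (by simp only; omega)]
        cases s
        · simp only [cond_false, ev_cons, ev_nil, evl_true, mul_one, rho]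
          rfl
        · simp only [cond_true, ev_cj, hi, ev_cons, ev_nil, evl_true, mul_one, rho, inv_inv]
          rfl
      · have h2 : Nat.beq i (p + 1) = false := beq_f h'
        simp only [rho, tab, h1, h2, cond_false, ev_cons, ev_nil, evl_true, mul_one]
        rw [al, hS_of, if_neg (by simp only; omega), if_neg (by simp only; omega)]
  | be i =>
    by_cases h : i = p
    · subst h
      have h1 : Nat.beq i i = true := by simp
      simp only [rho, tab, h1, cond_true]
      rw [be, hS_of, if_pos rfl]
      cases s
      · simp only [cond_false, ev_cj, ev_kw, ev_cons, ev_nil, evl_true, mul_one, rho]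
        rfl
      · simp only [cond_true, ev_cons, ev_nil, evl_true, mul_one, rho]
        rfl
    · have h1 : Nat.beq i p = false := beq_f h
      by_cases h' : i = p + 1
      · subst h'
        have h2 : Nat.beq (p + 1) (p + 1) = true := by simp
        simp only [rho, tab, h1, h2, cond_true, cond_false]
        rw [be, hS_of, if_neg (by simp only; omega), if_pos (by simp only; omega)]
        cases s
        · simp only [cond_false, ev_cons, ev_nil, evl_true, mul_one, rho]
          rfl
        · simp only [cond_true, ev_cj, hi, ev_cons, ev_nil, evl_true, mul_one, rho, inv_inv]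
          rfl
      · have h2 : Nat.beq i (p + 1) = false := beq_f h'
        simp only [rho, tab, h1, h2, cond_false, ev_cons, ev_nil, evl_true, mul_one]
        rw [be, hS_of, if_neg (by simp only; omega), if_neg (by simp only; omega)]

/-- all symbols -/
theorem rep (m : ℕ) (X : F) (hX : Inn m X) (y : Sy) (s : Bool) (l : Lt) :
    hom m y s (rho m X l) = ev (rho m X) (tab y s l) := by
  cases y with
  | A p => exact rep_A m X hX p s l
  | B p => exact rep_B m X hX p s l
  | C p => exact rep_C m X hX p s l
  | P p => exact rep_P m X hX p s l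
  | D p => exact rep_D m X hX p s l
  | S p => exact rep_S m X hX p s l

end Pool.Agent.Lib.MP_24877f_gt_h61
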