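import Pool.Agent.Lib.MP_24877f_gt_h61.Word

set_option autoImplicit false

/-!
# Twist automorphisms of the free group on handle generators (MP_24877f_gt)
-/

namespace Pool.Agent.Lib.MP_24877f_gt_h61

/-- the free group on the handle generators: `(i, false)` is `a_i`, `(i, true)` is `b_i` -/
abbrev F : Type := FreeGroup (ℕ × Bool)

/-- the generator `a_i` -/
def al (i : ℕ) : F := FreeGroup.of (i, false)

/-- the generator `b_i` -/
def be (i : ℕ) : F := FreeGroup.of (i, true)

/-- the commutator of the `i`-th handle -/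
def kap (i : ℕ) : F := al i * be i * (al i)⁻¹ * (be i)⁻¹

/-- the boundary word of the first `m` handles -/
def R : ℕ → F
  | 0 => 1
  | m + 1 => R m * kap m

theorem R_succ (m : ℕ) : R (m + 1) = R m * (al m * be m * (al m)⁻¹ * (be m)⁻¹) := rfl

/-- sign -/
def sg (b : Bool) (u : F) : F := bif b then u else u⁻¹

@[simp] theorem sg_true (u : F) : sg true u = u := rfl
@[simp] theorem sg_false (u : F) : sg false u = u⁻¹ := rfl

/-- the connecting curve -/
def gam (n : ℕ) : F := be n * (al n)⁻¹ * (be n)⁻¹ * al (n + 1)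

def hA (n : ℕ) (s : Bool) : F →* F :=
  FreeGroup.lift (fun q => if q = (n, true) then be n * sg (!s) (al n) else FreeGroup.of q)

def hB (n : ℕ) (s : Bool) : F →* F :=
  FreeGroup.lift (fun q => if q = (n, false) then al n * sg s (be n) else FreeGroup.of q)

def hC (n : ℕ) (s : Bool) : F →* F :=
  FreeGroup.lift (fun q =>
    if q = (n, true) then sg s (gam n) * be n
    else if q = (n + 1, false) then sg s (gam n) * al (n + 1) * (sg s (gam n))⁻¹
    else if q = (n + 1, true) then be (n + 1) * (sg s (gam n))⁻¹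
    else FreeGroup.of q)

def hP (n : ℕ) (s : Bool) : F →* F :=
  FreeGroup.lift (fun q =>
    if q.1 < n ∨ q = (n, false) then sg s (R n * al n) * FreeGroup.of q * (sg s (R n * al n))⁻¹
    else if q = (n, true) then be n * (sg s (R n * al n))⁻¹
    else FreeGroup.of q)

def hD (n : ℕ) (s : Bool) : F →* F :=
  FreeGroup.lift (fun q =>
    if q.1 < n then sg s (R n) * FreeGroup.of q * (sg s (R n))⁻¹
    else FreeGroup.of q)

def hS (n : ℕ) (s : Bool) : F →* F :=
  FreeGroup.lift (fun q =>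
    if q.1 = n then (bif s then FreeGroup.of (n + 1, q.2)
      else kap n * FreeGroup.of (n + 1, q.2) * (kap n)⁻¹)
    else if q.1 = n + 1 then (bif s then (kap (n + 1))⁻¹ * FreeGroup.of (n, q.2) * kap (n + 1)
      else FreeGroup.of (n, q.2))
    else FreeGroup.of q)

theorem map_R_fix (φ : F →* F) (m : ℕ) (h : ∀ j < m, ∀ b, φ (FreeGroup.of (j, b)) = FreeGroup.of (j, b)) :
    φ (R m) = R m := by
  induction m with
  | zero => exact map_one φ
  | succ m ih =>
    rw [R_succ, map_mul, ih (fun j hj => h j (by omega))]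
    have h1 := h m (by omega) false
    have h2 := h m (by omega) true
    simp only [map_mul, map_inv, al, be, h1, h2]

theorem map_R_conj (φ : F →* F) (u : F) (m : ℕ)
    (h : ∀ j < m, ∀ b, φ (FreeGroup.of (j, b)) = u * FreeGroup.of (j, b) * u⁻¹) :
    φ (R m) = u * R m * u⁻¹ := by
  induction m with
  | zero => simp [R]
  | succ m ih =>
    rw [R_succ, map_mul, ih (fun j hj => h j (by omega))]
    have h1 := h m (by omega) false
    have h2 := h m (by omega) true
    simp only [map_mul, map_inv, al, be, h1, h2]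
    group

/-- symbols for the automorphisms -/
inductive Sy : Type
  | A : ℕ → Sy
  | B : ℕ → Sy
  | C : ℕ → Sy
  | P : ℕ → Sy
  | D : ℕ → Sy
  | S : ℕ → Sy

/-- the commutator word -/
def kw (i : ℕ) : Wd := [(Lt.al i, true), (Lt.be i, true), (Lt.al i, false), (Lt.be i, false)]

/-- boundary words -/
def Rw : ℕ → Wd
  | 0 => [(Lt.E, true)]
  | p + 1 => Rw p ++ kw p

def sw (s : Bool) (w : Wd) : Wd := bif s then w else Wd.inv w

def gw (p : ℕ) : Wd := [(Lt.be p, true), (Lt.al p, false), (Lt.be p, false), (Lt.al (p + 1), true)]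

def cj (u w : Wd) : Wd := u ++ (w ++ Wd.inv u)

/-- the action of the symbols on letters -/
def tab : Sy → Bool → Lt → Wd
  | Sy.A p, s, Lt.be i => bif Nat.beq i p then [(Lt.be p, true), (Lt.al p, !s)] else [(Lt.be i, true)]
  | Sy.A _, _, l => [(l, true)]
  | Sy.B p, s, Lt.al i => bif Nat.beq i p then [(Lt.al p, true), (Lt.be p, s)] else [(Lt.al i, true)]
  | Sy.B _, _, l => [(l, true)]
  | Sy.C p, s, Lt.be i =>
      bif Nat.beq i p then sw s (gw p) ++ [(Lt.be p, true)]
      else bif Nat.beq i (p + 1) then (Lt.be (p + 1), true) :: Wd.inv (sw s (gw p))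
      else [(Lt.be i, true)]
  | Sy.C p, s, Lt.al i =>
      bif Nat.beq i (p + 1) then cj (sw s (gw p)) [(Lt.al (p + 1), true)] else [(Lt.al i, true)]
  | Sy.C _, _, l => [(l, true)]
  | Sy.P p, s, Lt.X => cj (sw s (Rw p ++ [(Lt.al p, true)])) [(Lt.X, true)]
  | Sy.P p, s, Lt.E => cj (sw s (Rw p ++ [(Lt.al p, true)])) [(Lt.E, true)]
  | Sy.P p, s, Lt.al i =>
      bif Nat.ble i p then cj (sw s (Rw p ++ [(Lt.al p, true)])) [(Lt.al i, true)]
      else [(Lt.al i, true)]
  | Sy.P p, s, Lt.be i =>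
      bif Nat.blt i p then cj (sw s (Rw p ++ [(Lt.al p, true)])) [(Lt.be i, true)]
      else bif Nat.beq i p then (Lt.be i, true) :: Wd.inv (sw s (Rw p ++ [(Lt.al p, true)]))
      else [(Lt.be i, true)]
  | Sy.D p, s, Lt.X => cj (sw s (Rw p)) [(Lt.X, true)]
  | Sy.D p, s, Lt.E => cj (sw s (Rw p)) [(Lt.E, true)]
  | Sy.D p, s, Lt.al i => bif Nat.blt i p then cj (sw s (Rw p)) [(Lt.al i, true)]
      else [(Lt.al i, true)]
  | Sy.D p, s, Lt.be i => bif Nat.blt i p then cj (sw s (Rw p)) [(Lt.be i, true)]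
      else [(Lt.be i, true)]
  | Sy.S p, s, Lt.al i =>
      bif Nat.beq i p then (bif s then [(Lt.al (p + 1), true)] else cj (kw p) [(Lt.al (p + 1), true)])
      else bif Nat.beq i (p + 1) then
        (bif s then cj (Wd.inv (kw (p + 1))) [(Lt.al p, true)] else [(Lt.al p, true)])
      else [(Lt.al i, true)]
  | Sy.S p, s, Lt.be i =>
      bif Nat.beq i p then (bif s then [(Lt.be (p + 1), true)] else cj (kw p) [(Lt.be (p + 1), true)])
      else bif Nat.beq i (p + 1) then
        (bif s then cj (Wd.inv (kw (p + 1))) [(Lt.be p, true)] else [(Lt.be p, true)])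
      else [(Lt.be i, true)]
  | Sy.S _, _, l => [(l, true)]

/-- the homomorphism of a symbol, at base `m` -/
def hom (m : ℕ) : Sy → Bool → (F →* F)
  | Sy.A p, s => hA (m + p) s
  | Sy.B p, s => hB (m + p) s
  | Sy.C p, s => hC (m + p) s
  | Sy.P p, s => hP (m + p) s
  | Sy.D p, s => hD (m + p) s
  | Sy.S p, s => hS (m + p) s

/-- the assignment of letters at base `m` -/
def rho (m : ℕ) (X : F) : Lt → F
  | Lt.X => X
  | Lt.E => R m
  | Lt.al i => al (m + i)
  | Lt.be i => be (m + i)

/-- inner elements -/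
def Inn (m : ℕ) (X : F) : Prop := X = 1 ∨ ∃ (j : ℕ) (b : Bool), j < m ∧ X = FreeGroup.of (j, b)

theorem ev_Rw (m : ℕ) (X : F) (p : ℕ) : ev (rho m X) (Rw p) = R (m + p) := by
  induction p with
  | zero => simp [Rw, rho]
  | succ p ih =>
    rw [Rw, ev_append, ih, ← add_assoc, R_succ]
    simp [kw, rho, mul_assoc]

theorem ev_sw (ρ : Lt → F) (s : Bool) (w : Wd) : ev ρ (sw s w) = sg s (ev ρ w) := by
  cases s
  · simp [sw, ev_inv]
  · simp [sw]

theorem ev_cj (ρ : Lt → F) (u w : Wd) : ev ρ (cj u w) = ev ρ u * ev ρ w * (ev ρ u)⁻¹ := by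
  simp [cj, ev_append, ev_inv, mul_assoc]

theorem ev_gw (m : ℕ) (X : F) (p : ℕ) : ev (rho m X) (gw p) = gam (m + p) := by
  simp [gw, rho, gam, mul_assoc, add_assoc]

theorem ev_kw (m : ℕ) (X : F) (p : ℕ) : ev (rho m X) (kw p) = kap (m + p) := by
  simp [kw, rho, kap, mul_assoc]

end Pool.Agent.Lib.MP_24877f_gt_h61
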