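import Mathlib

set_option autoImplicit false

/-!
# Words in letters and their evaluation (MP_24877f_gt)

A small calculus which lets the kernel check identities between automorphisms of a free group
that act on an initial family of generators by conjugation and on finitely many others by
explicit words.
-/

namespace Pool.Agent.Lib.MP_24877f_gt_h61

/-- letters: a generic inner element, the boundary word, handle generators -/
inductive Lt : Type
  | X : Lt
  | E : Lt
  | al : ℕ → Lt
  | be : ℕ → Lt

/-- Boolean equality of letters -/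
def Lt.beq : Lt → Lt → Bool
  | Lt.X, Lt.X => true
  | Lt.E, Lt.E => true
  | Lt.al i, Lt.al j => Nat.beq i j
  | Lt.be i, Lt.be j => Nat.beq i j
  | _, _ => false

theorem Lt.eq_of_beq {x y : Lt} (h : Lt.beq x y = true) : x = y := by
  cases x <;> cases y <;> simp_all [Lt.beq]

/-- words: lists of signed letters -/
abbrev Wd : Type := List (Lt × Bool)

/-- the inverse of a word -/
def Wd.inv (w : Wd) : Wd := (w.map (fun x => (x.1, !x.2))).reverse

/-- put a letter in front of a word, cancelling -/
def Wd.push (x : Lt × Bool) : Wd → Wd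
  | [] => [x]
  | y :: t => bif (Lt.beq x.1 y.1 && Bool.xor x.2 y.2) then t else x :: y :: t

/-- product of words, with cancellation -/
def Wd.app (u w : Wd) : Wd := u.foldr Wd.push w

/-- substitution -/
def Wd.act (T : Lt → Wd) (w : Wd) : Wd :=
  w.foldr (fun x acc => Wd.app (bif x.2 then T x.1 else Wd.inv (T x.1)) acc) []

/-- Boolean equality of words -/
def Wd.beq : Wd → Wd → Bool
  | [], [] => true
  | x :: s, y :: t => (Lt.beq x.1 y.1 && (x.2 == y.2)) && Wd.beq s t
  | _, _ => false

theorem Wd.eq_of_beq : ∀ {u w : Wd}, Wd.beq u w = true → u = w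
  | [], [], _ => rfl
  | [], _ :: _, h => by simp [Wd.beq] at h
  | _ :: _, [], h => by simp [Wd.beq] at h
  | x :: s, y :: t, h => by
    simp only [Wd.beq, Bool.and_eq_true, beq_iff_eq] at h
    obtain ⟨⟨h1, h2⟩, h3⟩ := h
    rw [Wd.eq_of_beq h3, Prod.ext (Lt.eq_of_beq h1) h2]

section eval
variable {G : Type*} [Group G] (ρ : Lt → G)

/-- evaluation of a signed letter -/
def evl (x : Lt × Bool) : G := bif x.2 then ρ x.1 else (ρ x.1)⁻¹

/-- evaluation of a word -/
def ev (w : Wd) : G := (w.map (evl ρ)).prod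

@[simp] theorem ev_nil : ev ρ [] = 1 := rfl

@[simp] theorem ev_cons (x : Lt × Bool) (w : Wd) : ev ρ (x :: w) = evl ρ x * ev ρ w := by
  simp [ev]

@[simp] theorem evl_true (x : Lt) : evl ρ (x, true) = ρ x := rfl

@[simp] theorem evl_false (x : Lt) : evl ρ (x, false) = (ρ x)⁻¹ := rfl

theorem ev_append (u w : Wd) : ev ρ (u ++ w) = ev ρ u * ev ρ w := by
  simp [ev]

theorem ev_inv (w : Wd) : ev ρ (Wd.inv w) = (ev ρ w)⁻¹ := by
  induction w with
  | nil => simp [Wd.inv]
  | cons x t ih =>
    have : Wd.inv (x :: t) = Wd.inv t ++ [(x.1, !x.2)] := by simp [Wd.inv]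
    rw [this, ev_append, ih, ev_cons, ev_cons, mul_inv_rev]
    obtain ⟨a, b⟩ := x
    cases b <;> simp [evl]

theorem ev_push (x : Lt × Bool) (w : Wd) : ev ρ (Wd.push x w) = evl ρ x * ev ρ w := by
  cases w with
  | nil => simp [Wd.push]
  | cons y t =>
    change ev ρ (bif (Lt.beq x.1 y.1 && Bool.xor x.2 y.2) then t else x :: y :: t) = _
    by_cases h : (Lt.beq x.1 y.1 && Bool.xor x.2 y.2) = true
    · rw [h, cond_true]
      rw [Bool.and_eq_true] at h
      obtain ⟨h1, h2⟩ := h
      have h3 := Lt.eq_of_beq h1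
      obtain ⟨a, b⟩ := x
      obtain ⟨c, d⟩ := y
      simp only at h3
      subst h3
      cases b <;> cases d <;> simp_all
    · rw [Bool.not_eq_true] at h
      rw [h, cond_false, ev_cons, ev_cons]

theorem ev_app (u w : Wd) : ev ρ (Wd.app u w) = ev ρ u * ev ρ w := by
  induction u with
  | nil => simp [Wd.app]
  | cons x t ih =>
    have : Wd.app (x :: t) w = Wd.push x (Wd.app t w) := rfl
    rw [this, ev_push, ih, ev_cons, mul_assoc]

/-- soundness of substitution -/
theorem ev_act {T : Lt → Wd} (φ : G →* G) (h : ∀ l, φ (ρ l) = ev ρ (T l)) (w : Wd) :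
    φ (ev ρ w) = ev ρ (Wd.act T w) := by
  induction w with
  | nil => simp [Wd.act]
  | cons x t ih =>
    have h1 : Wd.act T (x :: t) =
        Wd.app (bif x.2 then T x.1 else Wd.inv (T x.1)) (Wd.act T t) := rfl
    rw [h1, ev_app, ev_cons, map_mul, ih]
    congr 1
    obtain ⟨a, b⟩ := x
    cases b
    · simp only [evl_false, map_inv, h, cond_false, ev_inv]
    · simp only [evl_true, h, cond_true]

end eval

end Pool.Agent.Lib.MP_24877f_gt_h61
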